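import Mathlib

set_option autoImplicit false
set_option linter.all false
open Finset Polynomial

namespace Pool.Agent.N535

noncomputable section

/-- `s_n(x) = U_{n-1}(x)`, so that `s_n(cos θ) = sin (n θ) / sin θ` -/
def sp (n : ℤ) : Polynomial ℝ := Polynomial.Chebyshev.U ℝ (n - 1)

theorem sp_zero : sp 0 = 0 := by simp [sp]
theorem sp_one : sp 1 = 1 := by simp [sp]
theorem sp_add_one (n : ℤ) : sp (n + 1) = 2 * X * sp n - sp (n - 1) := by
  unfold sp
  have := Polynomial.Chebyshev.U_add_one ℝ (n - 1)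
  rw [show n - 1 + 1 = n + 1 - 1 by ring] at this
  exact this

theorem sp_sub_one (n : ℤ) : sp (n - 1) = 2 * X * sp n - sp (n + 1) := by
  rw [sp_add_one]; ring

theorem two_X_sp (n : ℤ) : 2 * X * sp n = sp (n + 1) + sp (n - 1) := by
  rw [sp_add_one]; ring

theorem sp_neg (n : ℤ) : sp (-n) = - sp n := by
  unfold sp
  have := Polynomial.Chebyshev.U_neg_sub_one ℝ n
  exact this

/-- difference in the index -/
theorem sp_sub_T (n : ℤ) : sp (n + 1) - sp (n - 1) = 2 * Polynomial.Chebyshev.T ℝ n := by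
  unfold sp
  have := Polynomial.Chebyshev.two_mul_T_eq_U_sub_U ℝ (n - 2)
  rw [show n - 2 + 2 = n by ring] at this
  rw [this, show n + 1 - 1 = n by ring, show n - 1 - 1 = n - 2 by ring]

theorem deriv_sp_sub (n : ℤ) :
    derivative (sp (n + 1)) - derivative (sp (n - 1)) = 2 * (n : ℝ[X]) * sp n := by
  have h := congrArg derivative (sp_sub_T n)
  rw [derivative_sub, derivative_mul, Polynomial.Chebyshev.T_derivative_eq_U] at h
  simp only [derivative_ofNat, zero_mul, zero_add] at h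
  rw [h]
  unfold sp
  ring

/-- `(1-x²) s_n' = -((n-1)/2) s_{n+1} + ((n+1)/2) s_{n-1}` -/
theorem one_sub_sq_deriv (n : ℤ) :
    2 * ((1 - X ^ 2) * derivative (sp n)) =
      -((n : ℝ[X]) - 1) * sp (n + 1) + ((n : ℝ[X]) + 1) * sp (n - 1) := by
  have h := Polynomial.Chebyshev.add_one_mul_T_eq_poly_in_U (R := ℝ) (n - 1)
  have h2 := sp_sub_T n
  have h3 := two_X_sp n
  unfold sp at *
  rw [show n - 1 + 1 = n by ring] at h
  push_cast at h
  linear_combination 2 * h + (n : ℝ[X]) * h2 + h3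

/-- `Δ s_n = -(n²-1) s_n` -/
theorem lap_sp (n : ℤ) :
    (1 - X ^ 2) * derivative (derivative (sp n)) - 3 * X * derivative (sp n) =
      -((n : ℝ[X]) ^ 2 - 1) * sp n := by
  have h := Polynomial.Chebyshev.one_sub_X_sq_mul_derivative_derivative_U_eq_poly_in_U (R := ℝ) (n - 1)
  unfold sp
  simp only [Function.iterate_succ, Function.iterate_zero, Function.comp, id] at h
  push_cast at h
  linear_combination h

/-- product formula, one index natural, the other one an integer -/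
theorem sp_mul_int (J : ℕ) : ∀ K : ℤ,
    sp J * sp K = ∑ i ∈ range J, sp (K - J + 1 + 2 * i) := by
  induction J using Nat.strong_induction_on with
  | _ J ih =>
    intro K
    rcases J with _ | _ | J
    · simp [sp_zero]
    · simp [sp_one]
    · have h1 := ih (J + 1) (by omega)
      have h0 := ih J (by omega) K
      have e : sp ((J + 1 + 1 : ℕ) : ℤ) = 2 * X * sp ((J + 1 : ℕ) : ℤ) - sp (J : ℤ) := by
        have := sp_add_one ((J : ℤ) + 1)
        push_cast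
        rw [this]
        congr 2
        ring
      have e2 : sp ((J + 1 + 1 : ℕ) : ℤ) * sp K =
          sp ((J + 1 : ℕ) : ℤ) * sp (K + 1) + sp ((J + 1 : ℕ) : ℤ) * sp (K - 1) - sp (J : ℤ) * sp K := by
        rw [e]
        linear_combination (sp ((J + 1 : ℕ) : ℤ)) * two_X_sp K
      rw [e2, h1, h1, h0]
      rw [Finset.sum_range_succ (n := J + 1), Finset.sum_range_succ (n := J)
        (f := fun i : ℕ => sp (K + 1 - ((J + 1 : ℕ) : ℤ) + 1 + 2 * (i : ℤ)))]
      have e3 : ∀ i : ℕ, sp (K - 1 - ((J + 1 : ℕ) : ℤ) + 1 + 2 * (i : ℤ)) =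
          sp (K - ((J + 1 + 1 : ℕ) : ℤ) + 1 + 2 * (i : ℤ)) := fun i => by
        congr 1; push_cast; ring
      have e4 : ∀ i : ℕ, sp (K + 1 - ((J + 1 : ℕ) : ℤ) + 1 + 2 * (i : ℤ)) =
          sp (K - (J : ℤ) + 1 + 2 * (i : ℤ)) := fun i => by
        congr 1; push_cast; ring
      simp only [e3, e4]
      have e5 : sp (K - (J : ℤ) + 1 + 2 * (J : ℤ)) =
          sp (K - ((J + 1 + 1 : ℕ) : ℤ) + 1 + 2 * ((J + 1 : ℕ) : ℤ)) := by
        congr 1; push_cast; ring
      rw [e5]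
      ring

/-- `|J - K|` -/
def dd (J K : ℕ) : ℕ := (J - K) + (K - J)

theorem dd_comm (J K : ℕ) : dd J K = dd K J := by unfold dd; omega

theorem dd_eq {J K : ℕ} (h : J ≤ K) : dd J K = K - J := by unfold dd; omega

theorem dd_add (J K : ℕ) : dd J K + 2 * min J K = J + K := by unfold dd; omega

theorem dd_sq (J K : ℕ) : ((dd J K : ℕ) : ℝ) ^ 2 = ((J : ℝ) - K) ^ 2 := by
  rcases le_total J K with h | h
  · rw [dd_eq h, Nat.cast_sub h]; ring
  · rw [dd_comm, dd_eq h, Nat.cast_sub h]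

/-- Clebsch-Gordan -/
theorem sp_mul (J K : ℕ) :
    sp J * sp K = ∑ i ∈ range (min J K), sp ((dd J K + 1 + 2 * i : ℕ) : ℤ) := by
  rcases le_total J K with h | h
  · rw [sp_mul_int, min_eq_left h, dd_eq h]
    refine Finset.sum_congr rfl fun i _ => ?_
    congr 1
    push_cast [Nat.cast_sub h]
    ring
  · rw [mul_comm, sp_mul_int, min_eq_right h, dd_comm, dd_eq h]
    refine Finset.sum_congr rfl fun i _ => ?_
    congr 1
    push_cast [Nat.cast_sub h]
    ring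

/-- the coefficients of the antiderivative -/
def ic (J K L : ℕ) : ℝ :=
  ((L : ℝ) ^ 2 - (dd J K : ℝ) ^ 2) * (((J : ℝ) + K) ^ 2 - (L : ℝ) ^ 2) / (8 * ((L : ℝ) ^ 2 - 1))

theorem lap_mul (p q : ℝ[X]) :
    (1 - X ^ 2) * derivative (derivative (p * q)) - 3 * X * derivative (p * q) =
      p * ((1 - X ^ 2) * derivative (derivative q) - 3 * X * derivative q) +
      q * ((1 - X ^ 2) * derivative (derivative p) - 3 * X * derivative p) +
      2 * ((1 - X ^ 2) * (derivative p * derivative q)) := by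
  simp only [derivative_mul, derivative_add]
  ring

theorem grad_mul (J K : ℕ) :
    2 * ((1 - X ^ 2) * (derivative (sp J) * derivative (sp K))) =
      ∑ i ∈ range (min J K), C ((J : ℝ) ^ 2 + (K : ℝ) ^ 2 - 1 - ((dd J K + 1 + 2 * i : ℕ) : ℝ) ^ 2) *
        sp ((dd J K + 1 + 2 * i : ℕ) : ℤ) := by
  have h := lap_mul (sp J) (sp K)
  rw [lap_sp, lap_sp] at h
  have h2 : (1 - X ^ 2) * derivative (derivative (sp J * sp K)) - 3 * X * derivative (sp J * sp K) =
      ∑ i ∈ range (min J K), -((((dd J K + 1 + 2 * i : ℕ) : ℤ) : ℝ[X]) ^ 2 - 1) *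
        sp ((dd J K + 1 + 2 * i : ℕ) : ℤ) := by
    rw [sp_mul]
    simp only [derivative_sum]
    rw [Finset.mul_sum, Finset.mul_sum, ← Finset.sum_sub_distrib]
    exact Finset.sum_congr rfl fun i _ => lap_sp _
  have h3 : 2 * ((1 - X ^ 2) * (derivative (sp J) * derivative (sp K))) =
      ∑ i ∈ range (min J K), -((((dd J K + 1 + 2 * i : ℕ) : ℤ) : ℝ[X]) ^ 2 - 1) *
        sp ((dd J K + 1 + 2 * i : ℕ) : ℤ) + ((((K : ℤ) : ℝ[X])) ^ 2 - 1 + ((((J : ℤ) : ℝ[X])) ^ 2 - 1)) *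
          (sp J * sp K) := by
    rw [← h2]
    linear_combination -h
  rw [h3, sp_mul, Finset.mul_sum, ← Finset.sum_add_distrib]
  refine Finset.sum_congr rfl fun i _ => ?_
  have : C ((J : ℝ) ^ 2 + (K : ℝ) ^ 2 - 1 - ((dd J K + 1 + 2 * i : ℕ) : ℝ) ^ 2) =
      ((J : ℝ[X])) ^ 2 + (K : ℝ[X]) ^ 2 - 1 - ((dd J K + 1 + 2 * i : ℕ) : ℝ[X]) ^ 2 := by
    generalize dd J K + 1 + 2 * i = n
    simp
  rw [this]
  push_cast
  ring

theorem ic_self (J K : ℕ) : ic J K (dd J K) = 0 := by simp [ic]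

theorem ic_top (J K : ℕ) : ic J K (J + K) = 0 := by simp [ic]

theorem ic_rec (J K : ℕ) (i : ℕ) :
    ic J K (dd J K + 2 + 2 * i) * ((dd J K + 2 + 2 * i : ℕ) + 1 : ℝ) -
      ic J K (dd J K + 2 * i) * ((dd J K + 2 * i : ℕ) - 1 : ℝ) =
    (J : ℝ) ^ 2 + (K : ℝ) ^ 2 - 1 - ((dd J K + 1 + 2 * i : ℕ) : ℝ) ^ 2 := by
  have hD := dd_sq J K
  have hS : (J : ℝ) ^ 2 + (K : ℝ) ^ 2 = (((J : ℝ) + K) ^ 2 + (dd J K : ℝ) ^ 2) / 2 := by
    rw [hD]; ring
  rw [hS]
  by_cases h2 : dd J K + 1 + 2 * i = 2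
  · have hi : i = 0 := by omega
    have hd : dd J K = 1 := by omega
    subst hi
    unfold ic
    rw [hd]
    push_cast
    norm_num
    ring
  · unfold ic
    set D : ℝ := (dd J K : ℝ) with hDd
    set S : ℝ := (J : ℝ) + K
    set l : ℝ := D + 1 + 2 * i with hl
    have hl0 : 1 ≤ l := by
      have : (0:ℝ) ≤ D := Nat.cast_nonneg _
      have : (0:ℝ) ≤ (i:ℝ) := Nat.cast_nonneg _
      linarith
    have hl2 : l ≠ 2 := by
      intro h
      apply h2
      have : ((dd J K + 1 + 2 * i : ℕ) : ℝ) = ((2 : ℕ) : ℝ) := by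
        push_cast; exact h
      exact_mod_cast this
    have e1 : (((dd J K + 2 + 2 * i : ℕ)) : ℝ) = l + 1 := by push_cast; ring
    have e2 : (((dd J K + 2 * i : ℕ)) : ℝ) = l - 1 := by push_cast; ring
    have e3 : (((dd J K + 1 + 2 * i : ℕ)) : ℝ) = l := by push_cast; ring
    rw [e1, e2, e3]
    have n1 : (l + 1) ^ 2 - 1 ≠ 0 := by
      have : (l + 1) ^ 2 - 1 = l * (l + 2) := by ring
      rw [this]; positivity
    have n2 : (l - 1) ^ 2 - 1 ≠ 0 := by
      have : (l - 1) ^ 2 - 1 = l * (l - 2) := by ring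
      rw [this]
      exact mul_ne_zero (by positivity) (sub_ne_zero.2 hl2)
    have hl0' : l ≠ 0 := by positivity
    have hlp : l + 2 ≠ 0 := by positivity
    have hlm : l - 2 ≠ 0 := sub_ne_zero.2 hl2
    have q1 : (l + 1) ^ 2 - 1 = l * (l + 2) := by ring
    have q2 : (l - 1) ^ 2 - 1 = l * (l - 2) := by ring
    rw [q1, q2]
    field_simp
    ring

/-- the antiderivative of `s_J' s_K'` -/
def IP (J K : ℕ) : ℝ[X] :=
  ∑ i ∈ range (min J K), C (ic J K (dd J K + 2 + 2 * i)) * sp ((dd J K + 2 + 2 * i : ℕ) : ℤ)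

theorem deriv_IP (J K : ℕ) : derivative (IP J K) = derivative (sp J) * derivative (sp K) := by
  have hne : (2 * (1 - X ^ 2) : ℝ[X]) ≠ 0 := by
    intro h
    have := congrArg (Polynomial.eval 0) h
    simp at this
  apply mul_left_cancel₀ hne
  rw [mul_assoc, mul_assoc, grad_mul]
  unfold IP
  simp only [derivative_sum, derivative_mul, derivative_C, zero_mul, zero_add]
  rw [Finset.mul_sum, Finset.mul_sum]
  have e1 : ∀ i : ℕ, 2 * ((1 - X ^ 2) * (C (ic J K (dd J K + 2 + 2 * i)) *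
      derivative (sp ((dd J K + 2 + 2 * i : ℕ) : ℤ)))) =
      C (ic J K (dd J K + 2 + 2 * i) * ((dd J K + 2 + 2 * i : ℕ) + 1 : ℝ)) *
        sp ((dd J K + 1 + 2 * i : ℕ) : ℤ) -
      C (ic J K (dd J K + 2 + 2 * i) * ((dd J K + 2 + 2 * i : ℕ) - 1 : ℝ)) *
        sp ((dd J K + 1 + 2 * (i + 1) : ℕ) : ℤ) := by
    intro i
    have h := one_sub_sq_deriv ((dd J K + 2 + 2 * i : ℕ) : ℤ)
    have a1 : ((dd J K + 2 + 2 * i : ℕ) : ℤ) + 1 = ((dd J K + 1 + 2 * (i + 1) : ℕ) : ℤ) := by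
      push_cast; ring
    have a2 : ((dd J K + 2 + 2 * i : ℕ) : ℤ) - 1 = ((dd J K + 1 + 2 * i : ℕ) : ℤ) := by
      push_cast; ring
    rw [a1, a2] at h
    have b1 : C (ic J K (dd J K + 2 + 2 * i) * ((dd J K + 2 + 2 * i : ℕ) + 1 : ℝ)) =
        C (ic J K (dd J K + 2 + 2 * i)) * ((((dd J K + 2 + 2 * i : ℕ) : ℤ) : ℝ[X]) + 1) := by
      generalize dd J K + 2 + 2 * i = n
      simp
    have b2 : C (ic J K (dd J K + 2 + 2 * i) * ((dd J K + 2 + 2 * i : ℕ) - 1 : ℝ)) =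
        C (ic J K (dd J K + 2 + 2 * i)) * ((((dd J K + 2 + 2 * i : ℕ) : ℤ) : ℝ[X]) - 1) := by
      generalize dd J K + 2 + 2 * i = n
      simp
    rw [b1, b2]
    linear_combination C (ic J K (dd J K + 2 + 2 * i)) * h
  rw [Finset.sum_congr rfl fun i _ => e1 i, Finset.sum_sub_distrib]
  set f : ℕ → ℝ[X] := fun i => C (ic J K (dd J K + 2 * i) * ((dd J K + 2 * i : ℕ) - 1 : ℝ)) *
    sp ((dd J K + 1 + 2 * i : ℕ) : ℤ) with hf
  have e2 : ∑ i ∈ range (min J K), C (ic J K (dd J K + 2 + 2 * i) * ((dd J K + 2 + 2 * i : ℕ) - 1 : ℝ)) *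
        sp ((dd J K + 1 + 2 * (i + 1) : ℕ) : ℤ) = ∑ i ∈ range (min J K), f i := by
    have h1 : ∀ i, C (ic J K (dd J K + 2 + 2 * i) * ((dd J K + 2 + 2 * i : ℕ) - 1 : ℝ)) *
        sp ((dd J K + 1 + 2 * (i + 1) : ℕ) : ℤ) = f (i + 1) := by
      intro i
      simp only [hf]
      rw [show dd J K + 2 * (i + 1) = dd J K + 2 + 2 * i by ring]
    rw [Finset.sum_congr rfl fun i _ => h1 i]
    have h2 := Finset.sum_range_succ' f (min J K)
    rw [Finset.sum_range_succ] at h2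
    have h3 : f 0 = 0 := by
      simp only [hf]
      rw [show dd J K + 2 * 0 = dd J K by ring, ic_self]
      simp
    have h4 : f (min J K) = 0 := by
      simp only [hf]
      rw [dd_add, ic_top]
      simp
    rw [h3, h4, add_zero, add_zero] at h2
    exact h2.symm
  rw [e2, ← Finset.sum_sub_distrib]
  refine Finset.sum_congr rfl fun i _ => ?_
  simp only [hf]
  rw [← sub_mul, ← C_sub, ic_rec]

/-- `x s_L + (1-x²) s_L'` -/
def GP (L : ℤ) : ℝ[X] := X * sp L + (1 - X ^ 2) * derivative (sp L)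

theorem two_GP (L : ℤ) :
    2 * GP L = -(L : ℝ[X]) * (sp (L + 1) - sp (L - 1)) + 2 * (sp (L + 1) + sp (L - 1)) := by
  unfold GP
  linear_combination one_sub_sq_deriv L + two_X_sp L

theorem sp_mul_T (Q : ℕ) (L : ℤ) :
    sp Q * (sp (L + 1) - sp (L - 1)) = sp (Q + L) + sp (Q - L) := by
  rw [mul_sub, sp_mul_int, sp_mul_int, ← Finset.sum_sub_distrib]
  have h := Finset.sum_range_sub (fun i : ℕ => sp (L - Q + 2 * i)) Q
  have e : ∀ i : ℕ, sp (L + 1 - Q + 1 + 2 * i) - sp (L - 1 - Q + 1 + 2 * i) =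
      sp (L - Q + 2 * ((i + 1 : ℕ) : ℤ)) - sp (L - Q + 2 * (i : ℤ)) := by
    intro i
    congr 2
    · push_cast; ring
    · ring
  rw [Finset.sum_congr rfl fun i _ => e i, h]
  have e1 : L - (Q : ℤ) + 2 * (Q : ℤ) = Q + L := by ring
  have e2 : L - (Q : ℤ) + 2 * ((0 : ℕ) : ℤ) = -((Q : ℤ) - L) := by push_cast; ring
  rw [e1, e2, sp_neg]
  ring

end

end Pool.Agent.N535
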