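import Mathlib
import Pool.Agent.H786.G.R_pool_sql_team_seeded_63374d34.N535.Cheb

set_option autoImplicit false
set_option linter.all false
open Finset Polynomial

namespace Pool.Agent.N535

noncomputable section

def Gs (z w : ℂ) (n : ℕ) : ℂ := ∑ i ∈ range n, z ^ i * w ^ (n - 1 - i)

theorem Gs_succ (z w : ℂ) (n : ℕ) : Gs z w (n + 1) = z ^ n + w * Gs z w n := by
  unfold Gs
  rw [Finset.sum_range_succ, Finset.mul_sum, add_comm]
  congr 1
  · simp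
  · refine Finset.sum_congr rfl fun i hi => ?_
    rw [Finset.mem_range] at hi
    have : n + 1 - 1 - i = (n - 1 - i) + 1 := by omega
    rw [this, pow_succ]
    ring

theorem Gs_add_two (z w : ℂ) (hzw : z * w = 1) (n : ℕ) :
    Gs z w (n + 2) = (z + w) * Gs z w (n + 1) - Gs z w n := by
  have h1 := Gs_succ z w n
  have h2 := Gs_succ z w (n + 1)
  rw [show n + 2 = n + 1 + 1 by ring, h2]
  rw [pow_succ]
  linear_combination (-z) * h1 + (-Gs z w n) * hzw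

theorem norm_Gs_le {z w : ℂ} {ρ : ℝ} (hρ : 1 ≤ ρ) (hz : ‖z‖ ≤ ρ) (hw : ‖w‖ ≤ ρ) (n : ℕ) :
    ‖Gs z w n‖ ≤ n * ρ ^ n := by
  unfold Gs
  refine (norm_sum_le _ _).trans ?_
  calc ∑ i ∈ range n, ‖z ^ i * w ^ (n - 1 - i)‖ ≤ ∑ i ∈ range n, ρ ^ n := by
        refine Finset.sum_le_sum fun i hi => ?_
        rw [Finset.mem_range] at hi
        rw [norm_mul, norm_pow, norm_pow]
        calc ‖z‖ ^ i * ‖w‖ ^ (n - 1 - i) ≤ ρ ^ i * ρ ^ (n - 1 - i) := by gcongr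
          _ = ρ ^ (n - 1) := by rw [← pow_add]; congr 1; omega
          _ ≤ _ := pow_le_pow_right₀ hρ (by omega)
    _ = _ := by simp

theorem exists_z {ρ : ℝ} (hρ : 1 ≤ ρ) {x : ℝ} (hx : |x| ≤ (ρ + ρ⁻¹) / 2) :
    ∃ z w : ℂ, z * w = 1 ∧ z + w = 2 * x ∧ ‖z‖ ≤ ρ ∧ ‖w‖ ≤ ρ := by
  have hρ0 : 0 < ρ := by linarith
  have habs := abs_le.1 hx
  by_cases h : |x| ≤ 1
  · have h2 := abs_le.1 h
    have h3 : 0 ≤ 1 - x ^ 2 := by nlinarith
    have h4 := Real.sq_sqrt h3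
    refine ⟨⟨x, Real.sqrt (1 - x ^ 2)⟩, ⟨x, -Real.sqrt (1 - x ^ 2)⟩, ?_, ?_, ?_, ?_⟩
    · apply Complex.ext
      · simp; nlinarith
      · simp; ring
    · apply Complex.ext
      · simp; ring
      · simp
    · rw [Complex.norm_def, Complex.normSq_mk]
      have : x * x + Real.sqrt (1 - x ^ 2) * Real.sqrt (1 - x ^ 2) = 1 := by nlinarith
      rw [this, Real.sqrt_one]; exact hρ
    · rw [Complex.norm_def, Complex.normSq_mk]
      have : x * x + -Real.sqrt (1 - x ^ 2) * -Real.sqrt (1 - x ^ 2) = 1 := by nlinarith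
      rw [this, Real.sqrt_one]; exact hρ
  · push Not at h
    have hx2 : 1 ≤ x ^ 2 := by rw [← sq_abs]; nlinarith
    have h3 : 0 ≤ x ^ 2 - 1 := by linarith
    set t := Real.sqrt (x ^ 2 - 1) with ht
    have h4 : t ^ 2 = x ^ 2 - 1 := Real.sq_sqrt h3
    have ht0 : 0 ≤ t := Real.sqrt_nonneg _
    have hρi : ρ * ρ⁻¹ = 1 := mul_inv_cancel₀ hρ0.ne'
    have hρi0 : 0 < ρ⁻¹ := inv_pos.2 hρ0
    have hρi1 : ρ⁻¹ ≤ 1 := inv_le_one_of_one_le₀ hρ
    have ht1 : t ≤ (ρ - ρ⁻¹) / 2 := by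
      apply abs_le_of_sq_le_sq' _ (by linarith) |>.2
      have : x ^ 2 ≤ ((ρ + ρ⁻¹) / 2) ^ 2 := by rw [← sq_abs]; exact pow_le_pow_left₀ (abs_nonneg _) hx 2
      nlinarith
    have htx : t ≤ |x| := by
      apply abs_le_of_sq_le_sq' _ (abs_nonneg _) |>.2
      rw [sq_abs]; linarith
    refine ⟨((x + t : ℝ) : ℂ), ((x - t : ℝ) : ℂ), ?_, ?_, ?_, ?_⟩
    · rw [← Complex.ofReal_mul]
      have : (x + t) * (x - t) = 1 := by nlinarith
      rw [this]; simp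
    · push_cast; ring
    · rw [Complex.norm_real, Real.norm_eq_abs]
      refine (abs_add_le _ _).trans ?_
      rw [abs_of_nonneg ht0]; linarith
    · rw [Complex.norm_real, Real.norm_eq_abs]
      refine (abs_sub _ _).trans ?_
      rw [abs_of_nonneg ht0]; linarith

theorem sp_eq_Gs {x : ℝ} {z w : ℂ} (hzw : z * w = 1) (hs : z + w = 2 * x) (n : ℕ) :
    (((sp n).eval x : ℝ) : ℂ) = Gs z w n ∧ (((sp (n + 1)).eval x : ℝ) : ℂ) = Gs z w (n + 1) := by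
  induction n with
  | zero =>
    constructor
    · simp [sp_zero, Gs]
    · have : sp ((0 : ℕ) + 1 : ℤ) = 1 := by simpa using sp_one
      rw [this]
      simp [Gs]
  | succ n ih =>
    refine ⟨?_, ?_⟩
    · push_cast
      exact ih.2
    · have h1 := sp_add_one ((n : ℤ) + 1)
      push_cast
      rw [h1]
      rw [show (n : ℤ) + 1 - 1 = n by ring]
      rw [Gs_add_two z w hzw, ← ih.1, ← ih.2, hs]
      simp

theorem sp_bound {ρ : ℝ} (hρ : 1 ≤ ρ) {x : ℝ} (hx : |x| ≤ (ρ + ρ⁻¹) / 2) (n : ℕ) :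
    |(sp n).eval x| ≤ n * ρ ^ n := by
  obtain ⟨z, w, h1, h2, h3, h4⟩ := exists_z hρ hx
  have h5 := (sp_eq_Gs h1 h2 n).1
  have h6 := norm_Gs_le hρ h3 h4 n
  rw [← h5, Complex.norm_real, Real.norm_eq_abs] at h6
  exact h6

/-- derivatives -/
theorem iter_rec (k : ℕ) (n : ℕ) :
    derivative^[k + 1] (sp ((n + 2 : ℕ) : ℤ)) = derivative^[k + 1] (sp (n : ℤ)) +
      (2 * ((n : ℝ) + 1)) • derivative^[k] (sp ((n + 1 : ℕ) : ℤ)) := by
  have h := deriv_sp_sub ((n : ℤ) + 1)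
  have e1 : derivative (sp ((n + 2 : ℕ) : ℤ)) = derivative (sp (n : ℤ)) +
      (2 * ((n : ℝ) + 1)) • sp ((n + 1 : ℕ) : ℤ) := by
    have e2 : ((n + 2 : ℕ) : ℤ) = (n : ℤ) + 1 + 1 := by push_cast; ring
    have e3 : (n : ℤ) + 1 - 1 = (n : ℤ) := by ring
    have e4 : ((n + 1 : ℕ) : ℤ) = (n : ℤ) + 1 := by push_cast; ring
    rw [e2, e4]
    rw [e3] at h
    rw [smul_eq_C_mul]
    have e5 : C (2 * ((n : ℝ) + 1)) = 2 * (((n : ℤ) + 1 : ℤ) : ℝ[X]) := by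
      rw [C_mul, C_add, C_1]
      have : C (2:ℝ) = (2 : ℝ[X]) := rfl
      rw [this]
      push_cast
      rfl
    rw [e5]
    linear_combination h
  rw [Function.iterate_succ_apply, Function.iterate_succ_apply, e1]
  rw [iterate_map_add, Polynomial.iterate_derivative_smul]

theorem sp_deriv_bound {ρ : ℝ} (hρ : 1 ≤ ρ) {x : ℝ} (hx : |x| ≤ (ρ + ρ⁻¹) / 2) (k : ℕ) :
    ∀ n : ℕ, |(derivative^[k] (sp n)).eval x| ≤ 2 ^ k * (n:ℝ) ^ (2 * k + 1) * ρ ^ n := by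
  induction k with
  | zero => intro n; simpa using sp_bound hρ hx n
  | succ k ih =>
    intro n
    induction n using Nat.strong_induction_on with
    | _ n ihn =>
      rcases n with _ | _ | n
      · simp [sp_zero]
      · have : sp ((0 + 1 : ℕ) : ℤ) = 1 := by simpa using sp_one
        rw [this, Function.iterate_succ_apply, derivative_one, iterate_derivative_zero]
        simp
        positivity
      · have h0 : (0:ℝ) ≤ n := Nat.cast_nonneg n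
        have hρ0 : 0 < ρ := by linarith
        rw [show n + 1 + 1 = n + 2 by ring, iter_rec, eval_add, eval_smul, smul_eq_mul]
        have h1 := ihn n (by omega)
        have h2 := ih (n + 1)
        have h3 : |2 * ((n:ℝ) + 1) * eval x (derivative^[k] (sp ((n + 1 : ℕ) : ℤ)))| ≤
            2 * ((n:ℝ) + 1) * (2 ^ k * ((n + 1 : ℕ) : ℝ) ^ (2 * k + 1) * ρ ^ (n + 1)) := by
          rw [abs_mul, abs_of_nonneg (by positivity)]
          exact mul_le_mul_of_nonneg_left h2 (by positivity)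
        refine (abs_add_le _ _).trans ((add_le_add h1 h3).trans ?_)
        have hp1 : ρ ^ n ≤ ρ ^ (n + 2) := pow_le_pow_right₀ hρ (by omega)
        have hp2 : ρ ^ (n + 1) ≤ ρ ^ (n + 2) := pow_le_pow_right₀ hρ (by omega)
        push_cast
        have hA : (n:ℝ) ^ (2 * (k + 1) + 1) + ((n:ℝ) + 1) ^ (2 * k + 2) ≤ ((n:ℝ) + 2) ^ (2 * (k + 1) + 1) := by
          have a1 : (n:ℝ) ^ (2 * (k + 1) + 1) = (n:ℝ) ^ (2 * k + 2) * n := by
            rw [show 2 * (k + 1) + 1 = (2 * k + 2) + 1 by ring, pow_succ]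
          have a2 : ((n:ℝ) + 2) ^ (2 * (k + 1) + 1) = ((n:ℝ) + 2) ^ (2 * k + 2) * (n + 2) := by
            rw [show 2 * (k + 1) + 1 = (2 * k + 2) + 1 by ring, pow_succ]
          have a3 : (n:ℝ) ^ (2 * k + 2) ≤ ((n:ℝ) + 2) ^ (2 * k + 2) := by gcongr; linarith
          have a4 : ((n:ℝ) + 1) ^ (2 * k + 2) ≤ ((n:ℝ) + 2) ^ (2 * k + 2) := by gcongr; norm_num
          rw [a1, a2]
          have a5 := mul_le_mul_of_nonneg_right a3 h0
          have a6 : (0:ℝ) ≤ ((n:ℝ) + 2) ^ (2 * k + 2) := by positivity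
          nlinarith
        calc 2 ^ (k + 1) * (n:ℝ) ^ (2 * (k + 1) + 1) * ρ ^ n +
              2 * ((n:ℝ) + 1) * (2 ^ k * ((n:ℝ) + 1) ^ (2 * k + 1) * ρ ^ (n + 1))
            ≤ 2 ^ (k + 1) * (n:ℝ) ^ (2 * (k + 1) + 1) * ρ ^ (n + 2) +
              2 * ((n:ℝ) + 1) * (2 ^ k * ((n:ℝ) + 1) ^ (2 * k + 1) * ρ ^ (n + 2)) := by gcongr
          _ = 2 ^ (k + 1) * ((n:ℝ) ^ (2 * (k + 1) + 1) + ((n:ℝ) + 1) ^ (2 * k + 2)) * ρ ^ (n + 2) := by
              rw [show 2 * k + 2 = (2 * k + 1) + 1 by ring, pow_succ ((n:ℝ) + 1), pow_succ (2:ℝ) k]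
              ring
          _ ≤ 2 ^ (k + 1) * ((n:ℝ) + 2) ^ (2 * (k + 1) + 1) * ρ ^ (n + 2) := by gcongr

end

end Pool.Agent.N535
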