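import Mathlib

set_option autoImplicit false
set_option linter.all false
open Finset

namespace Pool.Agent.N535

noncomputable section

/-! ### kernels of polynomial growth and the bilinear maps they define -/

/-- kernels with polynomial growth and triangular support -/
def PK (k : ℕ → ℕ → ℕ → ℝ) : Prop :=
  ∃ (C : ℝ) (p : ℕ), 0 ≤ C ∧ (∀ J K n, |k J K n| ≤ C * ((J : ℝ) + K + 1) ^ p) ∧
    ∀ J K n, J + K < n → k J K n = 0

/-- exponentially decreasing sequences, every rate smaller than `q` -/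
def SS {R : Type} [Norm R] (q : ℝ) (f : ℕ → R) : Prop :=
  ∀ r : ℝ, 1 ≤ r → r < q → Summable fun n => r ^ n * ‖f n‖

/-- the bilinear map -/
def bil {R : Type} [NormedCommRing R] [NormedAlgebra ℝ R] (k : ℕ → ℕ → ℕ → ℝ) (f g : ℕ → R)
    (n : ℕ) : R := ∑' p : ℕ × ℕ, k p.1 p.2 n • (f p.1 * g p.2)

theorem poly_le_geom (p : ℕ) {r r' : ℝ} (h1 : 0 < r) (h : r < r') :
    ∃ C : ℝ, 0 ≤ C ∧ ∀ m : ℕ, ((m : ℝ) + 1) ^ p * r ^ m ≤ C * r' ^ m := by
  have hr' : 0 < r' := h1.trans h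
  set t := r / r' with ht
  have ht0 : 0 < t := div_pos h1 hr'
  have ht1 : t < 1 := (div_lt_one hr').2 h
  have hs : Summable fun n : ℕ => ((n : ℝ) ^ p * t ^ n : ℝ) :=
    summable_pow_mul_geometric_of_norm_lt_one p (by rwa [Real.norm_of_nonneg ht0.le])
  have hnn : ∀ n : ℕ, 0 ≤ ((n : ℝ) ^ p * t ^ n : ℝ) := fun n => by positivity
  refine ⟨(∑' n : ℕ, ((n : ℝ) ^ p * t ^ n : ℝ)) / t, div_nonneg (tsum_nonneg hnn) ht0.le, ?_⟩
  intro m
  have h2 := hs.le_tsum (m + 1) (fun j _ => hnn j)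
  push_cast at h2
  have h3 : ((m : ℝ) + 1) ^ p * t ^ m ≤ (∑' n : ℕ, ((n : ℝ) ^ p * t ^ n : ℝ)) / t := by
    rw [le_div_iff₀ ht0]
    calc ((m : ℝ) + 1) ^ p * t ^ m * t = ((m : ℝ) + 1) ^ p * t ^ (m + 1) := by ring
      _ ≤ _ := h2
  calc ((m : ℝ) + 1) ^ p * r ^ m = (((m : ℝ) + 1) ^ p * t ^ m) * r' ^ m := by
        rw [ht, div_pow]
        field_simp
    _ ≤ _ := mul_le_mul_of_nonneg_right h3 (by positivity)

/-- weighted sum of a kernel -/
def kw (w : ℕ → ℝ) (k : ℕ → ℕ → ℕ → ℝ) (J K : ℕ) : ℝ :=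
  ∑ n ∈ range (J + K + 1), w n * |k J K n|

theorem kw_pow_le {k : ℕ → ℕ → ℕ → ℝ} (hk : PK k) {r r' : ℝ} (h1 : 1 ≤ r) (h : r < r') :
    ∃ C : ℝ, 0 ≤ C ∧ ∀ J K : ℕ, kw (fun n => r ^ n) k J K ≤ C * (r' ^ J * r' ^ K) := by
  obtain ⟨C, p, hC, hb, hs⟩ := hk
  obtain ⟨C', hC', h'⟩ := poly_le_geom (p + 1) (lt_of_lt_of_le one_pos h1) h
  refine ⟨C * C', mul_nonneg hC hC', fun J K => ?_⟩
  have hr0 : 0 < r := lt_of_lt_of_le one_pos h1
  unfold kw
  calc ∑ n ∈ range (J + K + 1), r ^ n * |k J K n|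
      ≤ ∑ n ∈ range (J + K + 1), r ^ (J + K) * (C * ((J : ℝ) + K + 1) ^ p) := by
        refine Finset.sum_le_sum fun n hn => ?_
        rw [Finset.mem_range] at hn
        exact mul_le_mul (pow_le_pow_right₀ h1 (by omega)) (hb J K n) (abs_nonneg _) (by positivity)
    _ = C * ((((J + K : ℕ) : ℝ) + 1) ^ (p + 1) * r ^ (J + K)) := by
        rw [Finset.sum_const, Finset.card_range, nsmul_eq_mul]; push_cast; ring
    _ ≤ C * (C' * r' ^ (J + K)) := mul_le_mul_of_nonneg_left (h' _) hC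
    _ = _ := by rw [pow_add]; ring

section SSlemmas
variable {R : Type} [NormedCommRing R] [NormedAlgebra ℝ R] [CompleteSpace R] {q : ℝ}
variable {f f' g g' : ℕ → R} {k : ℕ → ℕ → ℕ → ℝ}

theorem SS.add (hf : SS q f) (hg : SS q g) : SS q (fun n => f n + g n) := by
  intro r h1 h
  refine Summable.of_nonneg_of_le (fun n => by positivity) ?_ ((hf r h1 h).add (hg r h1 h))
  intro n
  rw [← mul_add]
  exact mul_le_mul_of_nonneg_left (norm_add_le _ _) (by positivity)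

theorem SS.neg (hf : SS q f) : SS q (fun n => - f n) := by
  intro r h1 h
  simpa using hf r h1 h

theorem SS.sub (hf : SS q f) (hg : SS q g) : SS q (fun n => f n - g n) := by
  have := hf.add hg.neg
  simpa [sub_eq_add_neg] using this

theorem SS.smul (c : ℝ) (hf : SS q f) : SS q (fun n => c • f n) := by
  intro r h1 h
  have := (hf r h1 h).mul_left |c|
  refine this.congr fun n => ?_
  rw [norm_smul, Real.norm_eq_abs]; ring

/-- multipliers of polynomial growth -/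
theorem SS.mulp {l : ℕ → ℝ} (hl : ∃ (C : ℝ) (p : ℕ), 0 ≤ C ∧ ∀ n : ℕ, |l n| ≤ C * ((n : ℝ) + 1) ^ p)
    (hf : SS q f) : SS q (fun n => l n • f n) := by
  intro r h1 h
  obtain ⟨C, p, hC, hb⟩ := hl
  obtain ⟨r', hr1, hr2⟩ := exists_between h
  obtain ⟨C', hC', h'⟩ := poly_le_geom p (lt_of_lt_of_le one_pos h1) hr1
  have hr0 : 0 < r := lt_of_lt_of_le one_pos h1
  refine Summable.of_nonneg_of_le (fun n => by positivity) ?_
    ((hf r' (h1.trans hr1.le) hr2).mul_left (C * C'))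
  intro n
  rw [norm_smul, Real.norm_eq_abs]
  calc r ^ n * (|l n| * ‖f n‖) ≤ r ^ n * ((C * ((n : ℝ) + 1) ^ p) * ‖f n‖) := by
        gcongr; exact hb n
    _ = C * (((n : ℝ) + 1) ^ p * r ^ n) * ‖f n‖ := by ring
    _ ≤ C * (C' * r' ^ n) * ‖f n‖ :=
        mul_le_mul_of_nonneg_right (mul_le_mul_of_nonneg_left (h' n) hC) (norm_nonneg _)
    _ = _ := by ring

theorem fam_summable (hk : PK k) (hf : SS q f) (hg : SS q g) {r : ℝ} (h1 : 1 ≤ r) (h : r < q) :
    Summable fun x : (ℕ × ℕ) × ℕ => r ^ x.2 * (|k x.1.1 x.1.2 x.2| * (‖f x.1.1‖ * ‖g x.1.2‖)) := by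
  obtain ⟨r', hr1, hr2⟩ := exists_between h
  obtain ⟨C, hC, hb⟩ := kw_pow_le hk h1 hr1
  have hr0 : 0 < r := lt_of_lt_of_le one_pos h1
  have hr0' : 0 < r' := hr0.trans hr1
  obtain ⟨-, -, -, -, hsupp⟩ := hk
  rw [summable_prod_of_nonneg (fun x => by positivity)]
  have hfin : ∀ p : ℕ × ℕ, ∀ n ∉ range (p.1 + p.2 + 1),
      r ^ n * (|k p.1 p.2 n| * (‖f p.1‖ * ‖g p.2‖)) = 0 := by
    intro p n hn
    rw [Finset.mem_range] at hn
    rw [hsupp p.1 p.2 n (by omega)]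
    simp
  have hts : ∀ p : ℕ × ℕ, ∑' n, r ^ n * (|k p.1 p.2 n| * (‖f p.1‖ * ‖g p.2‖)) =
      kw (fun n => r ^ n) k p.1 p.2 * (‖f p.1‖ * ‖g p.2‖) := by
    intro p
    rw [tsum_eq_sum (hfin p)]
    unfold kw
    rw [Finset.sum_mul]
    exact Finset.sum_congr rfl fun n _ => by ring
  refine ⟨fun p => summable_of_ne_finset_zero (hfin p), ?_⟩
  simp only [hts]
  have hs : Summable fun p : ℕ × ℕ => (r' ^ p.1 * ‖f p.1‖) * (r' ^ p.2 * ‖g p.2‖) :=
    (hf r' (h1.trans hr1.le) hr2).mul_of_nonneg (hg r' (h1.trans hr1.le) hr2)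
      (fun n => by positivity) (fun n => by positivity)
  refine Summable.of_nonneg_of_le (fun p => ?_) ?_ (hs.mul_left C)
  · exact mul_nonneg (Finset.sum_nonneg fun n _ => by positivity) (by positivity)
  · intro p
    calc kw (fun n => r ^ n) k p.1 p.2 * (‖f p.1‖ * ‖g p.2‖)
        ≤ C * (r' ^ p.1 * r' ^ p.2) * (‖f p.1‖ * ‖g p.2‖) :=
          mul_le_mul_of_nonneg_right (hb _ _) (by positivity)
      _ = _ := by ring

theorem norm_term (p : ℕ × ℕ) (n : ℕ) :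
    ‖k p.1 p.2 n • (f p.1 * g p.2)‖ ≤ |k p.1 p.2 n| * (‖f p.1‖ * ‖g p.2‖) := by
  rw [norm_smul, Real.norm_eq_abs]
  exact mul_le_mul_of_nonneg_left (norm_mul_le _ _) (abs_nonneg _)

theorem bil_summable (hq : 1 < q) (hk : PK k) (hf : SS q f) (hg : SS q g) (n : ℕ) :
    Summable fun p : ℕ × ℕ => |k p.1 p.2 n| * (‖f p.1‖ * ‖g p.2‖) := by
  have h := fam_summable hk hf hg le_rfl hq
  have h2 := h.prod_symm.prod_factor n
  simpa using h2

theorem bil_summable' (hq : 1 < q) (hk : PK k) (hf : SS q f) (hg : SS q g) (n : ℕ) :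
    Summable fun p : ℕ × ℕ => k p.1 p.2 n • (f p.1 * g p.2) :=
  Summable.of_norm_bounded (bil_summable hq hk hf hg n) fun p => norm_term p n

theorem SS.bil (hq : 1 < q) (hk : PK k) (hf : SS q f) (hg : SS q g) : SS q (bil k f g) := by
  intro r h1 h
  have hr0 : 0 < r := lt_of_lt_of_le one_pos h1
  have hF := (fam_summable hk hf hg h1 h).prod_symm
  have h2 := hF.prod
  refine Summable.of_nonneg_of_le (fun n => by positivity) (fun n => ?_) h2
  have h3 : ‖N535.bil k f g n‖ ≤ ∑' p : ℕ × ℕ, |k p.1 p.2 n| * (‖f p.1‖ * ‖g p.2‖) :=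
    (norm_tsum_le_tsum_norm ((bil_summable hq hk hf hg n).of_nonneg_of_le (fun p => norm_nonneg _)
      fun p => norm_term p n)).trans
      (Summable.tsum_le_tsum (fun p => norm_term p n)
        ((bil_summable hq hk hf hg n).of_nonneg_of_le (fun p => norm_nonneg _)
          fun p => norm_term p n) (bil_summable hq hk hf hg n))
  calc r ^ n * ‖N535.bil k f g n‖
      ≤ r ^ n * ∑' p : ℕ × ℕ, |k p.1 p.2 n| * (‖f p.1‖ * ‖g p.2‖) :=
        mul_le_mul_of_nonneg_left h3 (by positivity)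
    _ = _ := by rw [← tsum_mul_left]; rfl

theorem bil_add_left (hq : 1 < q) (hk : PK k) (hf : SS q f) (hf' : SS q f') (hg : SS q g) :
    bil k (fun n => f n + f' n) g = fun n => bil k f g n + bil k f' g n := by
  funext n
  unfold N535.bil
  rw [← (bil_summable' hq hk hf hg n).tsum_add (bil_summable' hq hk hf' hg n)]
  refine tsum_congr fun p => ?_
  rw [add_mul, smul_add]

theorem bil_add_right (hq : 1 < q) (hk : PK k) (hf : SS q f) (hg : SS q g) (hg' : SS q g') :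
    bil k f (fun n => g n + g' n) = fun n => bil k f g n + bil k f g' n := by
  funext n
  unfold N535.bil
  rw [← (bil_summable' hq hk hf hg n).tsum_add (bil_summable' hq hk hf hg' n)]
  refine tsum_congr fun p => ?_
  rw [mul_add, smul_add]

theorem bil_smul_left (c : ℝ) : bil k (fun n => c • f n) g = fun n => c • bil k f g n := by
  funext n
  unfold N535.bil
  rw [← tsum_const_smul'']
  refine tsum_congr fun p => ?_
  rw [smul_mul_assoc, smul_comm]

theorem bil_smul_right (c : ℝ) : bil k f (fun n => c • g n) = fun n => c • bil k f g n := by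
  funext n
  unfold N535.bil
  rw [← tsum_const_smul'']
  refine tsum_congr fun p => ?_
  rw [mul_smul_comm, smul_comm]

theorem bil_sub_left (hq : 1 < q) (hk : PK k) (hf : SS q f) (hf' : SS q f') (hg : SS q g) :
    bil k (fun n => f n - f' n) g = fun n => bil k f g n - bil k f' g n := by
  have h1 : (fun n => f n - f' n) = fun n => f n + (fun n => (-1 : ℝ) • f' n) n := by
    funext n; simp [sub_eq_add_neg]
  rw [h1, bil_add_left hq hk hf (hf'.smul (-1)) hg, bil_smul_left]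
  funext n
  simp [sub_eq_add_neg]

theorem bil_sub_right (hq : 1 < q) (hk : PK k) (hf : SS q f) (hg : SS q g) (hg' : SS q g') :
    bil k f (fun n => g n - g' n) = fun n => bil k f g n - bil k f g' n := by
  have h1 : (fun n => g n - g' n) = fun n => g n + (fun n => (-1 : ℝ) • g' n) n := by
    funext n; simp [sub_eq_add_neg]
  rw [h1, bil_add_right hq hk hf hg (hg'.smul (-1)), bil_smul_right]
  funext n
  simp [sub_eq_add_neg]

end SSlemmas

/-! ### homomorphisms -/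

theorem bil_map {R R' : Type} [NormedCommRing R] [NormedAlgebra ℝ R] [CompleteSpace R]
    [NormedCommRing R'] [NormedAlgebra ℝ R'] {q : ℝ} (hq : 1 < q) {k : ℕ → ℕ → ℕ → ℝ} (hk : PK k)
    {f g : ℕ → R} (hf : SS q f) (hg : SS q g) (φ : R →ₐ[ℝ] R') (hφ : Continuous φ) (n : ℕ) :
    φ (bil k f g n) = bil k (fun m => φ (f m)) (fun m => φ (g m)) n := by
  unfold N535.bil
  have h := (bil_summable' hq hk hf hg n).hasSum.map φ hφ
  rw [← h.tsum_eq]
  refine tsum_congr fun p => ?_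
  simp

/-! ### weighted norms in `[0, ∞]` of real sequences -/

open scoped ENNReal

/-- weighted norm -/
def nm (w : ℕ → ℝ) (x : ℕ → ℝ) : ℝ≥0∞ := ∑' n, ENNReal.ofReal (w n) * ‖x n‖ₑ

theorem enorm_bil_le (k : ℕ → ℕ → ℕ → ℝ) (x y : ℕ → ℝ) (n : ℕ) :
    ‖bil k x y n‖ₑ ≤ ∑' J, ∑' K, ENNReal.ofReal |k J K n| * (‖x J‖ₑ * ‖y K‖ₑ) := by
  unfold N535.bil
  refine enorm_tsum_le_tsum_enorm.trans ?_
  rw [ENNReal.tsum_prod']
  refine ENNReal.tsum_le_tsum fun J => ENNReal.tsum_le_tsum fun K => ?_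
  rw [smul_eq_mul, enorm_mul, enorm_mul, Real.enorm_eq_ofReal_abs (k J K n)]

theorem kw_ennreal {w : ℕ → ℝ} (hw : ∀ n, 0 ≤ w n) {k : ℕ → ℕ → ℕ → ℝ}
    (hs : ∀ J K n, J + K < n → k J K n = 0) (J K : ℕ) :
    ∑' n, ENNReal.ofReal (w n) * ENNReal.ofReal |k J K n| = ENNReal.ofReal (kw w k J K) := by
  rw [tsum_eq_sum (s := range (J + K + 1))]
  · unfold kw
    rw [ENNReal.ofReal_sum_of_nonneg (fun n _ => mul_nonneg (hw n) (abs_nonneg _))]
    exact Finset.sum_congr rfl fun n _ => (ENNReal.ofReal_mul (hw n)).symm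
  · intro n hn
    rw [Finset.mem_range] at hn
    rw [hs J K n (by omega)]
    simp

theorem nm_bil_le {w : ℕ → ℝ} (hw : ∀ n, 0 ≤ w n) {k : ℕ → ℕ → ℕ → ℝ}
    (hs : ∀ J K n, J + K < n → k J K n = 0) (x y : ℕ → ℝ) :
    nm w (bil k x y) ≤ ∑' J, ∑' K, ENNReal.ofReal (kw w k J K) * (‖x J‖ₑ * ‖y K‖ₑ) := by
  calc nm w (bil k x y)
      ≤ ∑' n, ENNReal.ofReal (w n) *
          ∑' J, ∑' K, ENNReal.ofReal |k J K n| * (‖x J‖ₑ * ‖y K‖ₑ) :=
        ENNReal.tsum_le_tsum fun n => mul_le_mul_right (enorm_bil_le k x y n) _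
    _ = ∑' n, ∑' J, ∑' K, ENNReal.ofReal (w n) * ENNReal.ofReal |k J K n| * (‖x J‖ₑ * ‖y K‖ₑ) := by
        refine tsum_congr fun n => ?_
        rw [← ENNReal.tsum_mul_left]
        refine tsum_congr fun J => ?_
        rw [← ENNReal.tsum_mul_left]
        refine tsum_congr fun K => ?_
        ring
    _ = ∑' J, ∑' K, ∑' n, ENNReal.ofReal (w n) * ENNReal.ofReal |k J K n| * (‖x J‖ₑ * ‖y K‖ₑ) := by
        rw [ENNReal.tsum_comm]
        refine tsum_congr fun J => ?_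
        rw [ENNReal.tsum_comm]
    _ = _ := by
        refine tsum_congr fun J => tsum_congr fun K => ?_
        rw [ENNReal.tsum_mul_right, kw_ennreal hw hs]

theorem tsum2_mul (a b : ℕ → ℝ≥0∞) : ∑' J, ∑' K, a J * b K = (∑' J, a J) * ∑' K, b K := by
  simp_rw [ENNReal.tsum_mul_left, ENNReal.tsum_mul_right]

/-- product form of the estimate -/
theorem nm_bil_prod {w a b : ℕ → ℝ} (hw : ∀ n, 0 ≤ w n) (ha : ∀ n, 0 ≤ a n)
    {k : ℕ → ℕ → ℕ → ℝ} (hs : ∀ J K n, J + K < n → k J K n = 0)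
    (hk : ∀ J K, kw w k J K ≤ a J * b K) (x y : ℕ → ℝ) :
    nm w (bil k x y) ≤ nm a x * nm b y := by
  refine (nm_bil_le hw hs x y).trans ?_
  unfold nm
  rw [← tsum2_mul]
  refine ENNReal.tsum_le_tsum fun J => ENNReal.tsum_le_tsum fun K => ?_
  calc ENNReal.ofReal (kw w k J K) * (‖x J‖ₑ * ‖y K‖ₑ)
      ≤ ENNReal.ofReal (a J * b K) * (‖x J‖ₑ * ‖y K‖ₑ) :=
        mul_le_mul_left (ENNReal.ofReal_le_ofReal (hk J K)) _
    _ = _ := by rw [ENNReal.ofReal_mul (ha J)]; ring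

theorem nm_mono {w w' : ℕ → ℝ} (h : ∀ n, w n ≤ w' n) (x : ℕ → ℝ) : nm w x ≤ nm w' x :=
  ENNReal.tsum_le_tsum fun n => mul_le_mul_left (ENNReal.ofReal_le_ofReal (h n)) _

theorem nm_add (w : ℕ → ℝ) (x y : ℕ → ℝ) : nm w (fun n => x n + y n) ≤ nm w x + nm w y := by
  unfold nm
  rw [← ENNReal.tsum_add]
  refine ENNReal.tsum_le_tsum fun n => ?_
  rw [← mul_add]
  exact mul_le_mul_right (enorm_add_le _ _) _

theorem nm_smul (w : ℕ → ℝ) (c : ℝ) (x : ℕ → ℝ) : nm w (fun n => c • x n) = ‖c‖ₑ * nm w x := by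
  unfold nm
  rw [← ENNReal.tsum_mul_left]
  refine tsum_congr fun n => ?_
  show ENNReal.ofReal (w n) * ‖c * x n‖ₑ = _
  rw [enorm_mul]
  ring

theorem nm_mulp {w : ℕ → ℝ} (hw : ∀ n, 0 ≤ w n) (l : ℕ → ℝ) (x : ℕ → ℝ) :
    nm w (fun n => l n • x n) = nm (fun n => w n * |l n|) x := by
  unfold nm
  refine tsum_congr fun n => ?_
  show ENNReal.ofReal (w n) * ‖l n * x n‖ₑ = ENNReal.ofReal (w n * |l n|) * ‖x n‖ₑ
  rw [enorm_mul, ENNReal.ofReal_mul (hw n), Real.enorm_eq_ofReal_abs (l n)]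
  ring

end

end Pool.Agent.N535
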