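import Mathlib
import Pool.Agent.H786.G.R_pool_sql_team_seeded_63374d34.N535.Est

set_option autoImplicit false
set_option linter.all false
open Finset
open scoped ENNReal

namespace Pool.Agent.N535

noncomputable section

/-! ### the trilinear form -/

section
variable {R : Type} [NormedCommRing R] [NormedAlgebra ℝ R]

/-- `-Δ` -/
def lmul (f : ℕ → R) (n : ℕ) : R := lam n • f n

/-- `2 f g Δh - (1/2) f Δ(g h) + 2 f g h - I(f, g) (x h + (1-x²) h')` -/
def T (f g h : ℕ → R) (n : ℕ) : R :=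
  (-2 : ℝ) • bil km (bil km f g) (lmul h) n + (1 / 2 : ℝ) • bil km f (lmul (bil km g h)) n
    + (2 : ℝ) • bil km (bil km f g) h n - bil kg (bil ki f g) h n

end

theorem lam_poly : ∃ (C : ℝ) (p : ℕ), 0 ≤ C ∧ ∀ n : ℕ, |lam n| ≤ C * ((n : ℝ) + 1) ^ p := by
  refine ⟨1, 2, zero_le_one, fun n => ?_⟩
  rw [abs_of_nonneg (lam_nonneg n)]
  have := lam_le n
  have : (0:ℝ) ≤ n := Nat.cast_nonneg n
  nlinarith

section SST
variable {R : Type} [NormedCommRing R] [NormedAlgebra ℝ R] [CompleteSpace R] {q : ℝ}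
variable {f f' g g' h h' : ℕ → R}

theorem SS.lmul (hf : SS q f) : SS q (lmul f) := hf.mulp lam_poly

theorem lmul_sub (f f' : ℕ → R) : lmul (fun n => f n - f' n) = fun n => lmul f n - lmul f' n := by
  funext n; unfold lmul; rw [smul_sub]

theorem lmul_add (f f' : ℕ → R) : lmul (fun n => f n + f' n) = fun n => lmul f n + lmul f' n := by
  funext n; unfold lmul; rw [smul_add]

theorem SS.T (hq : 1 < q) (hf : SS q f) (hg : SS q g) (hh : SS q h) : SS q (T f g h) := by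
  unfold N535.T
  exact ((((hf.bil hq PK_km hg).bil hq PK_km hh.lmul).smul _).add
    ((hf.bil hq PK_km (hg.bil hq PK_km hh).lmul).smul _)).add
    (((hf.bil hq PK_km hg).bil hq PK_km hh).smul _) |>.sub ((hf.bil hq PK_ki hg).bil hq PK_kg hh)

theorem T_sub1 (hq : 1 < q) (hf : SS q f) (hf' : SS q f') (hg : SS q g) (hh : SS q h) :
    T (fun n => f n - f' n) g h = fun n => T f g h n - T f' g h n := by
  have e1 := bil_sub_left hq PK_km hf hf' hg
  have e2 := bil_sub_left hq PK_ki hf hf' hg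
  have e3 := bil_sub_left hq PK_km hf hf' (hg.bil hq PK_km hh).lmul
  have e4 := bil_sub_left hq PK_km (hf.bil hq PK_km hg) (hf'.bil hq PK_km hg) hh.lmul
  have e5 := bil_sub_left hq PK_km (hf.bil hq PK_km hg) (hf'.bil hq PK_km hg) hh
  have e6 := bil_sub_left hq PK_kg (hf.bil hq PK_ki hg) (hf'.bil hq PK_ki hg) hh
  funext n
  unfold T
  rw [e1, e2, e3, e4, e5, e6]
  simp only [smul_sub]
  abel

theorem T_sub2 (hq : 1 < q) (hf : SS q f) (hg : SS q g) (hg' : SS q g') (hh : SS q h) :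
    T f (fun n => g n - g' n) h = fun n => T f g h n - T f g' h n := by
  have e1 := bil_sub_right hq PK_km hf hg hg'
  have e2 := bil_sub_right hq PK_ki hf hg hg'
  have e0 := bil_sub_left hq PK_km hg hg' hh
  have e3 := bil_sub_right hq PK_km hf (hg.bil hq PK_km hh).lmul (hg'.bil hq PK_km hh).lmul
  have e4 := bil_sub_left hq PK_km (hf.bil hq PK_km hg) (hf.bil hq PK_km hg') hh.lmul
  have e5 := bil_sub_left hq PK_km (hf.bil hq PK_km hg) (hf.bil hq PK_km hg') hh
  have e6 := bil_sub_left hq PK_kg (hf.bil hq PK_ki hg) (hf.bil hq PK_ki hg') hh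
  funext n
  unfold T
  rw [e1, e2, e0, lmul_sub, e3, e4, e5, e6]
  simp only [smul_sub]
  abel

theorem T_sub3 (hq : 1 < q) (hf : SS q f) (hg : SS q g) (hh : SS q h) (hh' : SS q h') :
    T f g (fun n => h n - h' n) = fun n => T f g h n - T f g h' n := by
  have e0 := bil_sub_right hq PK_km hg hh hh'
  have e3 := bil_sub_right hq PK_km hf (hg.bil hq PK_km hh).lmul (hg.bil hq PK_km hh').lmul
  have e4 := bil_sub_right hq PK_km (hf.bil hq PK_km hg) hh.lmul hh'.lmul
  have e5 := bil_sub_right hq PK_km (hf.bil hq PK_km hg) hh hh'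
  have e6 := bil_sub_right hq PK_kg (hf.bil hq PK_ki hg) hh hh'
  funext n
  unfold T
  rw [lmul_sub, e0, lmul_sub, e3, e4, e5, e6]
  simp only [smul_sub]
  abel

end SST

theorem lmul_map {R R' : Type} [NormedCommRing R] [NormedAlgebra ℝ R]
    [NormedCommRing R'] [NormedAlgebra ℝ R'] (f : ℕ → R) (φ : R →ₐ[ℝ] R') :
    (fun m => φ (lmul f m)) = lmul (fun m => φ (f m)) := by
  funext m; unfold lmul; rw [map_smul]

theorem SS.map {R R' : Type} [NormedCommRing R] [NormedAlgebra ℝ R]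
    [NormedCommRing R'] [NormedAlgebra ℝ R'] {q : ℝ} {f : ℕ → R} (hf : SS q f) (φ : R →ₐ[ℝ] R')
    (hφ : ∀ x, ‖φ x‖ ≤ ‖x‖) : SS q (fun m => φ (f m)) := by
  intro r h1 h
  refine Summable.of_nonneg_of_le (fun n => by positivity) (fun n => ?_) (hf r h1 h)
  exact mul_le_mul_of_nonneg_left (hφ _) (by positivity)

theorem T_map {R R' : Type} [NormedCommRing R] [NormedAlgebra ℝ R] [CompleteSpace R]
    [NormedCommRing R'] [NormedAlgebra ℝ R'] {q : ℝ} (hq : 1 < q)
    {f g h : ℕ → R} (hf : SS q f) (hg : SS q g) (hh : SS q h) (φ : R →ₐ[ℝ] R') (hφ : Continuous φ)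
    (n : ℕ) : φ (T f g h n) = T (fun m => φ (f m)) (fun m => φ (g m)) (fun m => φ (h m)) n := by
  unfold T
  rw [map_sub, map_add, map_add, map_smul, map_smul, map_smul,
    bil_map hq PK_km (hf.bil hq PK_km hg) hh.lmul φ hφ,
    bil_map hq PK_km hf (hg.bil hq PK_km hh).lmul φ hφ,
    bil_map hq PK_km (hf.bil hq PK_km hg) hh φ hφ,
    bil_map hq PK_kg (hf.bil hq PK_ki hg) hh φ hφ]
  have a1 : (fun m => φ (bil km f g m)) = bil km (fun m => φ (f m)) (fun m => φ (g m)) :=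
    funext fun m => bil_map hq PK_km hf hg φ hφ m
  have a2 : (fun m => φ (bil ki f g m)) = bil ki (fun m => φ (f m)) (fun m => φ (g m)) :=
    funext fun m => bil_map hq PK_ki hf hg φ hφ m
  have a3 : (fun m => φ (lmul (bil km g h) m)) = lmul (bil km (fun m => φ (g m)) (fun m => φ (h m))) := by
    rw [lmul_map]
    congr 1
    exact funext fun m => bil_map hq PK_km hg hh φ hφ m
  rw [a1, a2, a3, lmul_map]

/-! ### the unit -/

/-- coefficients of the constant function `1` -/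
def ee {R : Type} [NormedCommRing R] (n : ℕ) : R := if n = 1 then 1 else 0

theorem SS_ee {R : Type} [NormedCommRing R] (q : ℝ) : SS q (ee : ℕ → R) := by
  intro r h1 h
  refine summable_of_ne_finset_zero (s := {1}) fun n hn => ?_
  have : n ≠ 1 := by simpa using hn
  simp [ee, this]

theorem ki_one_left (K n : ℕ) : ki 1 K n = 0 := by
  unfold ki
  rcases Nat.eq_zero_or_pos K with h | h
  · subst h; simp [ds]
  · have h1 : min 1 K = 1 := min_eq_left h
    rw [h1]
    unfold ds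
    rw [Finset.sum_range_one]
    have h2 : dd 1 K + 2 + 2 * 0 = 1 + K := by have := dd_add 1 K; rw [h1] at this; omega
    show (if n = dd 1 K + 2 + 2 * 0 then ic 1 K (dd 1 K + 2 + 2 * 0) else 0) = 0
    rw [h2]
    have h3 := ic_top 1 K
    push_cast at h3
    split_ifs
    · exact h3
    · rfl

theorem ki_one_right (J n : ℕ) : ki J 1 n = 0 := by
  unfold ki
  rcases Nat.eq_zero_or_pos J with h | h
  · subst h; simp [ds]
  · have h1 : min J 1 = 1 := min_eq_right h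
    rw [h1]
    unfold ds
    rw [Finset.sum_range_one]
    have h2 : dd J 1 + 2 + 2 * 0 = J + 1 := by have := dd_add J 1; rw [h1] at this; omega
    show (if n = dd J 1 + 2 + 2 * 0 then ic J 1 (dd J 1 + 2 + 2 * 0) else 0) = 0
    rw [h2]
    have h3 := ic_top J 1
    push_cast at h3
    split_ifs
    · exact h3
    · rfl

section
variable {R : Type} [NormedCommRing R] [NormedAlgebra ℝ R]

theorem bil_ki_ee_left (g : ℕ → R) : bil ki ee g = fun _ => 0 := by
  funext n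
  unfold bil
  have : ∀ p : ℕ × ℕ, ki p.1 p.2 n • ((ee p.1 : R) * g p.2) = 0 := by
    intro p
    by_cases h : p.1 = 1
    · rw [h, ki_one_left, zero_smul]
    · simp [ee, h]
  simp [this]

theorem bil_ki_ee_right (f : ℕ → R) : bil ki f ee = fun _ => 0 := by
  funext n
  unfold bil
  have : ∀ p : ℕ × ℕ, ki p.1 p.2 n • (f p.1 * (ee p.2 : R)) = 0 := by
    intro p
    by_cases h : p.2 = 1
    · rw [h, ki_one_right, zero_smul]
    · simp [ee, h]
  simp [this]

theorem bil_zero_left (k : ℕ → ℕ → ℕ → ℝ) (g : ℕ → R) : bil k (fun _ => 0) g = fun _ => 0 := by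
  funext n; unfold bil; simp

end

/-! ### pointwise estimates -/

/-- weight vanishing at `0` -/
def wc (q M : ℝ) (n : ℕ) : ℝ := if n = 0 then 0 else wb q M n

theorem wc_le_wb2 {q M : ℝ} (hq : 1 ≤ q) (hM : 0 ≤ M) (n : ℕ) : wc q M n ≤ wb2 q M n := by
  unfold wc wb2
  split_ifs with h
  · have := wb_nonneg hq hM n; positivity
  · have h1 : (1:ℝ) ≤ n := by exact_mod_cast Nat.one_le_iff_ne_zero.2 h
    have := wb_nonneg hq hM n
    nlinarith [mul_le_mul_of_nonneg_right (by nlinarith : (1:ℝ) ≤ (n:ℝ) ^ 2) this]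

theorem wc_le_wb {q M : ℝ} (hq : 1 ≤ q) (hM : 0 ≤ M) (n : ℕ) : wc q M n ≤ wb q M n := by
  unfold wc
  split_ifs with h
  · exact wb_nonneg hq hM n
  · exact le_rfl

theorem wc_nonneg {q M : ℝ} (hq : 1 ≤ q) (hM : 0 ≤ M) (n : ℕ) : 0 ≤ wc q M n := by
  unfold wc
  split_ifs with h
  · exact le_rfl
  · exact wb_nonneg hq hM n

theorem kw_km_zero_right (w : ℕ → ℝ) (J : ℕ) : kw w km J 0 = 0 := by
  unfold kw km ds; simp

theorem kw_km_zero_left (w : ℕ → ℝ) (K : ℕ) : kw w km 0 K = 0 := by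
  unfold kw km ds; simp

theorem kw_km_ac {q M : ℝ} (hq : 1 ≤ q) (hM : 0 ≤ M) (J K : ℕ) :
    kw (wb q M) km J K ≤ wa q J * wc q M K := by
  unfold wc
  split_ifs with h
  · subst h; rw [kw_km_zero_right]; simp
  · exact kw_km_ab hq hM J K

theorem kw_km_ca {q M : ℝ} (hq : 1 ≤ q) (hM : 0 ≤ M) (J K : ℕ) :
    kw (wb q M) km J K ≤ wc q M J * wa q K := by
  unfold wc
  split_ifs with h
  · subst h; rw [kw_km_zero_left]; simp
  · exact kw_km_ba hq hM J K

theorem ofReal_two_mul (x : ℝ) : ENNReal.ofReal (2 * x) = 2 * ENNReal.ofReal x := by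
  rw [ENNReal.ofReal_mul (by norm_num : (0:ℝ) ≤ 2), ENNReal.ofReal_ofNat]

theorem ofReal_four_mul (x : ℝ) : ENNReal.ofReal (4 * x) = 4 * ENNReal.ofReal x := by
  rw [ENNReal.ofReal_mul (by norm_num : (0:ℝ) ≤ 4), ENNReal.ofReal_ofNat]

theorem ofReal_mul3 {x y : ℝ} (hx : 0 ≤ x) (hy : 0 ≤ y) (z : ℝ) :
    ENNReal.ofReal (x * y * z) = ENNReal.ofReal x * ENNReal.ofReal y * ENNReal.ofReal z := by
  rw [ENNReal.ofReal_mul (mul_nonneg hx hy), ENNReal.ofReal_mul hx]

/-- two-term product form -/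
theorem nm_bil_prod2 {w a b c d : ℕ → ℝ} (hw : ∀ n, 0 ≤ w n) (ha : ∀ n, 0 ≤ a n)
    (hb : ∀ n, 0 ≤ b n) (hc : ∀ n, 0 ≤ c n) (hd : ∀ n, 0 ≤ d n)
    {k : ℕ → ℕ → ℕ → ℝ} (hs : ∀ J K n, J + K < n → k J K n = 0)
    (hk : ∀ J K, kw w k J K ≤ 2 * a J * b K + 2 * c J * d K) (x y : ℕ → ℝ) :
    nm w (bil k x y) ≤ 2 * (nm a x * nm b y) + 2 * (nm c x * nm d y) := by
  refine (nm_bil_le hw hs x y).trans ?_
  unfold nm
  rw [← tsum2_mul, ← tsum2_mul, ← ENNReal.tsum_mul_left, ← ENNReal.tsum_mul_left, ← ENNReal.tsum_add]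
  refine ENNReal.tsum_le_tsum fun J => ?_
  rw [← ENNReal.tsum_mul_left, ← ENNReal.tsum_mul_left, ← ENNReal.tsum_add]
  refine ENNReal.tsum_le_tsum fun K => ?_
  calc ENNReal.ofReal (kw w k J K) * (‖x J‖ₑ * ‖y K‖ₑ)
      ≤ ENNReal.ofReal (2 * a J * b K + 2 * c J * d K) * (‖x J‖ₑ * ‖y K‖ₑ) :=
        mul_le_mul_left (ENNReal.ofReal_le_ofReal (hk J K)) _
    _ = _ := by
        have h1 := mul_nonneg (ha J) (hb K)
        have h2 := mul_nonneg (hc J) (hd K)
        rw [show 2 * a J * b K + 2 * c J * d K = 2 * (a J * b K) + 2 * (c J * d K) by ring,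
          ENNReal.ofReal_add (by positivity) (by positivity), ofReal_two_mul,
          ofReal_two_mul, ENNReal.ofReal_mul (ha J), ENNReal.ofReal_mul (hc J)]
        ring

theorem tsum3_mul (a b c : ℕ → ℝ≥0∞) :
    ∑' J, ∑' K, ∑' L, a J * b K * c L = (∑' J, a J) * (∑' K, b K) * ∑' L, c L := by
  calc ∑' J, ∑' K, ∑' L, a J * b K * c L = ∑' J, ∑' K, a J * b K * ∑' L, c L :=
        tsum_congr fun J => tsum_congr fun K => ENNReal.tsum_mul_left
    _ = ∑' J, (∑' K, a J * b K) * ∑' L, c L := tsum_congr fun J => ENNReal.tsum_mul_right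
    _ = (∑' J, ∑' K, a J * b K) * ∑' L, c L := ENNReal.tsum_mul_right
    _ = _ := by rw [tsum2_mul]

theorem nm_T4 {q M : ℝ} (hq : 1 ≤ q) (hM : 0 ≤ M) (x y z : ℕ → ℝ) :
    nm (wb q M) (bil kg (bil ki x y) z) ≤
      4 * (nm (wa2 q) x * nm (wb q M) y * nm (wa q) z)
      + 2 * (nm (wb q M) x * nm (wa2 q) y * nm (wa q) z)
      + 2 * (nm (wa q) x * nm (wb q M) y * nm (fun n => wa q n * lam n) z) := by
  have hw := wb_nonneg hq hM
  obtain ⟨-, -, -, -, hsg⟩ := PK_kg
  obtain ⟨-, -, -, -, hsi⟩ := PK_ki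
  refine (nm_bil_le hw hsg _ _).trans ?_
  have hk0 : ∀ Q L, 0 ≤ kw (wb q M) kg Q L := fun Q L =>
    Finset.sum_nonneg fun n _ => mul_nonneg (hw n) (abs_nonneg _)
  calc ∑' Q, ∑' L, ENNReal.ofReal (kw (wb q M) kg Q L) * (‖bil ki x y Q‖ₑ * ‖z L‖ₑ)
      ≤ ∑' Q, ∑' L, ENNReal.ofReal (kw (wb q M) kg Q L) *
        ((∑' J, ∑' K, ENNReal.ofReal |ki J K Q| * (‖x J‖ₑ * ‖y K‖ₑ)) * ‖z L‖ₑ) := by
        refine ENNReal.tsum_le_tsum fun Q => ENNReal.tsum_le_tsum fun L => ?_
        exact mul_le_mul_right (mul_le_mul_left (enorm_bil_le ki x y Q) _) _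
    _ = ∑' Q, ∑' L, ∑' J, ∑' K, ENNReal.ofReal (kw (wb q M) kg Q L) * ENNReal.ofReal |ki J K Q| *
        (‖x J‖ₑ * ‖y K‖ₑ * ‖z L‖ₑ) := by
        refine tsum_congr fun Q => tsum_congr fun L => ?_
        rw [← ENNReal.tsum_mul_right, ← ENNReal.tsum_mul_left]
        refine tsum_congr fun J => ?_
        rw [← ENNReal.tsum_mul_right, ← ENNReal.tsum_mul_left]
        refine tsum_congr fun K => ?_
        ring
    _ = ∑' J, ∑' K, ∑' L, ∑' Q, ENNReal.ofReal (kw (wb q M) kg Q L) * ENNReal.ofReal |ki J K Q| *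
        (‖x J‖ₑ * ‖y K‖ₑ * ‖z L‖ₑ) := by
        have e1 : ∀ F : ℕ → ℕ → ℕ → ℕ → ℝ≥0∞, ∑' Q, ∑' L, ∑' J, ∑' K, F Q L J K =
            ∑' J, ∑' K, ∑' L, ∑' Q, F Q L J K := by
          intro F
          rw [ENNReal.tsum_comm]
          calc ∑' L, ∑' Q, ∑' J, ∑' K, F Q L J K = ∑' L, ∑' J, ∑' Q, ∑' K, F Q L J K :=
                tsum_congr fun L => ENNReal.tsum_comm
            _ = ∑' J, ∑' L, ∑' Q, ∑' K, F Q L J K := ENNReal.tsum_comm
            _ = ∑' J, ∑' L, ∑' K, ∑' Q, F Q L J K :=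
                tsum_congr fun J => tsum_congr fun L => ENNReal.tsum_comm
            _ = _ := tsum_congr fun J => ENNReal.tsum_comm
        exact e1 _
    _ = ∑' J, ∑' K, ∑' L, ENNReal.ofReal (∑ Q ∈ range (J + K + 1), |ki J K Q| * kw (wb q M) kg Q L) *
        (‖x J‖ₑ * ‖y K‖ₑ * ‖z L‖ₑ) := by
        refine tsum_congr fun J => tsum_congr fun K => tsum_congr fun L => ?_
        rw [ENNReal.tsum_mul_right]
        congr 1
        rw [tsum_eq_sum (s := range (J + K + 1)), ENNReal.ofReal_sum_of_nonneg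
          (fun Q _ => mul_nonneg (abs_nonneg _) (hk0 Q L))]
        · refine Finset.sum_congr rfl fun Q _ => ?_
          rw [ENNReal.ofReal_mul (abs_nonneg _), mul_comm]
        · intro Q hQ
          rw [Finset.mem_range] at hQ
          rw [hsi J K Q (by omega)]
          simp
    _ ≤ ∑' J, ∑' K, ∑' L, (4 * ((ENNReal.ofReal (wa2 q J) * ‖x J‖ₑ) * (ENNReal.ofReal (wb q M K) * ‖y K‖ₑ) *
          (ENNReal.ofReal (wa q L) * ‖z L‖ₑ)) +
        2 * ((ENNReal.ofReal (wb q M J) * ‖x J‖ₑ) * (ENNReal.ofReal (wa2 q K) * ‖y K‖ₑ) *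
          (ENNReal.ofReal (wa q L) * ‖z L‖ₑ)) +
        2 * ((ENNReal.ofReal (wa q J) * ‖x J‖ₑ) * (ENNReal.ofReal (wb q M K) * ‖y K‖ₑ) *
          (ENNReal.ofReal (wa q L * lam L) * ‖z L‖ₑ))) := by
        refine ENNReal.tsum_le_tsum fun J => ENNReal.tsum_le_tsum fun K =>
          ENNReal.tsum_le_tsum fun L => ?_
        have p1 := wa_nonneg hq J
        have p2 := wa2_nonneg hq J
        have p3 := hw J
        have p4 := wa2_nonneg hq K
        have p5 := hw K
        have p6 := wa_nonneg hq L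
        have p7 := lam_nonneg L
        refine (mul_le_mul_left (ENNReal.ofReal_le_ofReal (k4_le hq hM J K L)) _).trans (le_of_eq ?_)
        rw [ENNReal.ofReal_add (by positivity) (by positivity),
          ENNReal.ofReal_add (by positivity) (by positivity),
          ofReal_four_mul, ofReal_two_mul, ofReal_two_mul, ofReal_mul3 p2 p5, ofReal_mul3 p3 p4,
          ofReal_mul3 p1 p5]
        ring
    _ = _ := by
        simp_rw [ENNReal.tsum_add, ENNReal.tsum_mul_left (a := (4 : ℝ≥0∞)),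
          ENNReal.tsum_mul_left (a := (2 : ℝ≥0∞)), tsum3_mul]
        rfl

/-- the part of the form without the nonlocal term, first version -/
theorem nm_T123 {q M : ℝ} (hq : 1 ≤ q) (hM : 0 ≤ M) (x y z : ℕ → ℝ) (B : ℝ≥0∞)
    (hB : nm (wb q M) (bil km (bil km x y) z) ≤ B) :
    nm (wb q M) (T x y z) ≤
      2 * (nm (wa q) x * nm (wa q) y * nm (fun n => wb q M n * lam n) z)
      + nm (wa q) x * (nm (fun n => wb q M n * lam n) y * nm (wa q) z
        + nm (wa q) y * nm (fun n => wb q M n * lam n) z)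
      + 2 * B + nm (wb q M) (bil kg (bil ki x y) z) := by
  have hw := wb_nonneg hq hM
  have ha := wa_nonneg hq
  have hsm : ∀ J K n, J + K < n → km J K n = 0 := fun J K n h => km_supp h.le
  have hwl : ∀ n, 0 ≤ wb q M n * lam n := fun n => mul_nonneg (hw n) (lam_nonneg n)
  have hlabs : (fun n => wb q M n * |lam n|) = fun n => wb q M n * lam n :=
    funext fun n => by rw [abs_of_nonneg (lam_nonneg n)]
  have e1 : nm (wb q M) (bil km (bil km x y) (lmul z)) ≤
      nm (wa q) x * nm (wa q) y * nm (fun n => wb q M n * lam n) z := by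
    refine (nm_bil_prod hw ha hsm (kw_km_ab hq hM) _ _).trans ?_
    have h1 : nm (wb q M) (lmul z) = nm (fun n => wb q M n * lam n) z := by
      unfold lmul
      rw [nm_mulp hw, hlabs]
    rw [h1]
    exact mul_le_mul_left (nm_bil_prod ha ha hsm (kw_km_aa hq) _ _) _
  have e2 : nm (wb q M) (bil km x (lmul (bil km y z))) ≤
      nm (wa q) x * (2 * (nm (fun n => wb q M n * lam n) y * nm (wa q) z)
        + 2 * (nm (wa q) y * nm (fun n => wb q M n * lam n) z)) := by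
    refine (nm_bil_prod hw ha hsm (kw_km_ab hq hM) _ _).trans (mul_le_mul_right ?_ _)
    have h1 : nm (wb q M) (lmul (bil km y z)) = nm (fun n => wb q M n * |lam n|) (bil km y z) := by
      unfold lmul
      rw [nm_mulp hw]
    rw [h1]
    refine nm_bil_prod2 (fun n => mul_nonneg (hw n) (abs_nonneg _)) hwl ha ha hwl hsm ?_ y z
    intro J K
    have := kw_km_lam hq hM J K
    linarith
  have h2e : ‖(-2:ℝ)‖ₑ = 2 := by
    rw [enorm_neg, Real.enorm_eq_ofReal (by norm_num)]; simp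
  have h2e' : ‖(2:ℝ)‖ₑ = 2 := by rw [Real.enorm_eq_ofReal (by norm_num)]; simp
  have hhe : ‖(1 / 2:ℝ)‖ₑ * 2 = 1 := by
    rw [Real.enorm_eq_ofReal (by norm_num), ← ENNReal.ofReal_ofNat, ← ENNReal.ofReal_mul (by norm_num)]
    norm_num
  have hT : T x y z = fun n => ((fun n => (fun n => (-2 : ℝ) • bil km (bil km x y) (lmul z) n) n
      + (fun n => (1 / 2 : ℝ) • bil km x (lmul (bil km y z)) n) n) n
      + (fun n => (2 : ℝ) • bil km (bil km x y) z n) n) +
      (fun n => (-1 : ℝ) • bil kg (bil ki x y) z n) n := by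
    funext n
    unfold T
    simp only [smul_eq_mul]
    ring
  rw [hT]
  refine (nm_add _ _ _).trans (add_le_add ((nm_add _ _ _).trans (add_le_add
    ((nm_add _ _ _).trans (add_le_add ?_ ?_)) ?_)) ?_)
  · rw [nm_smul, h2e]
    exact mul_le_mul_right e1 _
  · rw [nm_smul]
    refine (mul_le_mul_right e2 _).trans (le_of_eq ?_)
    calc ‖(1 / 2:ℝ)‖ₑ * (nm (wa q) x * (2 * (nm (fun n => wb q M n * lam n) y * nm (wa q) z)
        + 2 * (nm (wa q) y * nm (fun n => wb q M n * lam n) z)))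
        = (‖(1 / 2:ℝ)‖ₑ * 2) * (nm (wa q) x * ((nm (fun n => wb q M n * lam n) y * nm (wa q) z)
        + (nm (wa q) y * nm (fun n => wb q M n * lam n) z))) := by ring
      _ = _ := by rw [hhe, one_mul]
  · rw [nm_smul, h2e']
    exact mul_le_mul_right hB _
  · rw [nm_smul]
    have : ‖(-1:ℝ)‖ₑ = 1 := by rw [enorm_neg, enorm_one]
    rw [this, one_mul]

theorem nm_T3_a {q M : ℝ} (hq : 1 ≤ q) (hM : 0 ≤ M) (x y z : ℕ → ℝ) :
    nm (wb q M) (bil km (bil km x y) z) ≤ nm (wa q) x * nm (wa q) y * nm (wc q M) z := by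
  have hsm : ∀ J K n, J + K < n → km J K n = 0 := fun J K n h => km_supp h.le
  refine (nm_bil_prod (wb_nonneg hq hM) (wa_nonneg hq) hsm (kw_km_ac hq hM) _ _).trans ?_
  exact mul_le_mul_left (nm_bil_prod (wa_nonneg hq) (wa_nonneg hq) hsm (kw_km_aa hq) _ _) _

theorem nm_T3_b {q M : ℝ} (hq : 1 ≤ q) (hM : 0 ≤ M) (x y z : ℕ → ℝ) :
    nm (wb q M) (bil km (bil km x y) z) ≤ nm (wa q) x * nm (wc q M) y * nm (wa q) z := by
  have hsm : ∀ J K n, J + K < n → km J K n = 0 := fun J K n h => km_supp h.le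
  refine (nm_bil_prod (wb_nonneg hq hM) (wb_nonneg hq hM) hsm (kw_km_ba hq hM) _ _).trans ?_
  exact mul_le_mul_left (nm_bil_prod (wb_nonneg hq hM) (wa_nonneg hq) hsm (kw_km_ac hq hM) _ _) _

end

end Pool.Agent.N535
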