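import Mathlib
import Pool.Agent.H786.G.R_seed8.H858R2.Duh
import Pool.Agent.H786.G.R_pool_sql_team_seeded_63374d34.N535.Tri

set_option autoImplicit false
set_option linter.all false
open Finset MeasureTheory
open scoped ENNReal

namespace Pool.Agent.N535

open Pool.Agent.H858R2 (CI ev evH abs_ev_le norm_evH_le continuous_ev ev_one ev_zero)

noncomputable section

/-- `L¹` norm on `[0,1]` -/
def I1 (f : CI) : ℝ := ∫ s in (0:ℝ)..1, |ev f s|

theorem I1_nonneg (f : CI) : 0 ≤ I1 f :=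
  intervalIntegral.integral_nonneg zero_le_one fun _ _ => abs_nonneg _

theorem ofReal_I1 (f : CI) : ENNReal.ofReal (I1 f) = ∫⁻ s in Set.Ioc (0:ℝ) 1, ‖ev f s‖ₑ := by
  unfold I1
  rw [intervalIntegral.integral_of_le zero_le_one]
  rw [ofReal_integral_eq_lintegral_ofReal]
  · refine lintegral_congr fun s => ?_
    rw [Real.enorm_eq_ofReal_abs]
  · exact ((continuous_ev f).abs.integrableOn_Icc (a := 0) (b := 1)).mono_set Set.Ioc_subset_Icc_self
  · exact Filter.Eventually.of_forall fun s => abs_nonneg _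

/-- sum of sup norms -/
def nS (w : ℕ → ℝ) (F : ℕ → CI) : ℝ≥0∞ := ∑' n, ENNReal.ofReal (w n) * ‖F n‖ₑ

/-- sum of `L¹` norms -/
def nI (Θ : ℝ) (w : ℕ → ℝ) (F : ℕ → CI) : ℝ≥0∞ :=
  ∑' n, ENNReal.ofReal (w n) * ENNReal.ofReal (Θ * I1 (F n))

theorem nI_eq {Θ : ℝ} (hΘ : 0 ≤ Θ) (w : ℕ → ℝ) (F : ℕ → CI) :
    nI Θ w F = ENNReal.ofReal Θ * ∫⁻ s in Set.Ioc (0:ℝ) 1, nm w (fun n => ev (F n) s) := by
  unfold nI nm
  rw [lintegral_tsum, ← ENNReal.tsum_mul_left]
  · refine tsum_congr fun n => ?_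
    rw [ENNReal.ofReal_mul hΘ, ofReal_I1, lintegral_const_mul]
    · ring
    · exact (continuous_ev (F n)).measurable.enorm
  · intro n
    exact ((continuous_ev (F n)).measurable.enorm.const_mul _).aemeasurable

theorem nm_le_nS (w : ℕ → ℝ) (F : ℕ → CI) (s : ℝ) : nm w (fun n => ev (F n) s) ≤ nS w F := by
  refine ENNReal.tsum_le_tsum fun n => mul_le_mul_right ?_ _
  rw [Real.enorm_eq_ofReal_abs, ← ofReal_norm]
  exact ENNReal.ofReal_le_ofReal (abs_ev_le _ _)

theorem meas_nm (w : ℕ → ℝ) (F : ℕ → CI) : Measurable fun s => nm w (fun n => ev (F n) s) := by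
  unfold nm
  exact Measurable.ennreal_tsum fun n => (continuous_ev (F n)).measurable.enorm.const_mul _

theorem cont_evH (s : ℝ) : Continuous (evH s) := by
  have : LipschitzWith 1 (evH s) := LipschitzWith.of_dist_le_mul fun x y => by
    rw [dist_eq_norm, dist_eq_norm, ← map_sub]
    simpa using norm_evH_le s (x - y)
  exact this.continuous

theorem ev_T {q : ℝ} (hq : 1 < q) {F G H : ℕ → CI} (hF : SS q F) (hG : SS q G) (hH : SS q H)
    (s : ℝ) (n : ℕ) : ev (T F G H n) s =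
      T (fun m => ev (F m) s) (fun m => ev (G m) s) (fun m => ev (H m) s) n :=
  T_map hq hF hG hH (evH s) (cont_evH s) n

theorem ev_ee (s : ℝ) : (fun m => ev ((ee : ℕ → CI) m) s) = (ee : ℕ → ℝ) := by
  funext m
  unfold ee
  split_ifs
  · rfl
  · rfl

/-- the norm of the solution space -/
def nX (Θ q M : ℝ) (F : ℕ → CI) : ℝ≥0∞ := nS (wb q M) F + nI Θ (wb2 q M) F

theorem nm_ee (w : ℕ → ℝ) : nm w (ee : ℕ → ℝ) = ENNReal.ofReal (w 1) := by
  unfold nm
  rw [tsum_eq_single 1]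
  · simp [ee]
  · intro n hn
    simp [ee, hn]

section
variable {q M : ℝ} (hq : 1 ≤ q) (hM : 0 ≤ M) (x : ℕ → ℝ)
include hq hM

theorem bl_le : nm (fun n => wb q M n * lam n) x ≤ nm (wb2 q M) x := by
  refine nm_mono (fun n => ?_) x
  unfold wb2
  rw [mul_comm]
  exact mul_le_mul_of_nonneg_right (lam_le n) (wb_nonneg hq hM n)

theorem al_le : nm (fun n => wa q n * lam n) x ≤ nm (wb2 q M) x := by
  refine nm_mono (fun n => ?_) x
  unfold wb2
  calc wa q n * lam n ≤ wb q M n * (n:ℝ) ^ 2 :=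
        mul_le_mul (wa_le_wb hq hM n) (lam_le n) (lam_nonneg n) (wb_nonneg hq hM n)
    _ = _ := by ring

theorem a2_le : nm (wa2 q) x ≤ nm (wb2 q M) x := nm_mono (wa2_le_wb2 hq hM) x
theorem c_le : nm (wc q M) x ≤ nm (wb2 q M) x := nm_mono (wc_le_wb2 hq hM) x
theorem a_le : nm (wa q) x ≤ nm (wb q M) x := nm_mono (wa_le_wb hq hM) x

end

theorem pt3 {q M : ℝ} (hq : 1 ≤ q) (hM : 0 ≤ M) (x y z : ℕ → ℝ) :
    nm (wb q M) (T x y z) ≤
      7 * (nm (wb q M) x * nm (wb q M) y * nm (wb2 q M) z)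
      + 3 * (nm (wb q M) x * nm (wb q M) z * nm (wb2 q M) y)
      + 4 * (nm (wb q M) y * nm (wb q M) z * nm (wb2 q M) x) := by
  refine (nm_T123 hq hM x y z _ (nm_T3_a hq hM x y z)).trans ?_
  refine (add_le_add_right (nm_T4 hq hM x y z) _).trans ?_
  have hx := a_le hq hM x
  have hy := a_le hq hM y
  have hz := a_le hq hM z
  calc _ ≤ 2 * (nm (wb q M) x * nm (wb q M) y * nm (wb2 q M) z)
      + nm (wb q M) x * (nm (wb2 q M) y * nm (wb q M) z + nm (wb q M) y * nm (wb2 q M) z)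
      + 2 * (nm (wb q M) x * nm (wb q M) y * nm (wb2 q M) z)
      + (4 * (nm (wb2 q M) x * nm (wb q M) y * nm (wb q M) z)
      + 2 * (nm (wb q M) x * nm (wb2 q M) y * nm (wb q M) z)
      + 2 * (nm (wb q M) x * nm (wb q M) y * nm (wb2 q M) z)) := by
        gcongr
        · exact bl_le hq hM z
        · exact bl_le hq hM y
        · exact bl_le hq hM z
        · exact c_le hq hM z
        · exact a2_le hq hM x
        · exact a2_le hq hM y
        · exact al_le hq hM z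
    _ = _ := by ring

theorem nm_zero (w : ℕ → ℝ) : nm w (fun _ => 0) = 0 := by unfold nm; simp

theorem bl_ee {q M : ℝ} : nm (fun n => wb q M n * lam n) (ee : ℕ → ℝ) = 0 := by
  rw [nm_ee, lam_one]; simp
theorem al_ee {q : ℝ} : nm (fun n => wa q n * lam n) (ee : ℕ → ℝ) = 0 := by
  rw [nm_ee, lam_one]; simp
theorem a_ee {q : ℝ} : nm (wa q) (ee : ℕ → ℝ) = ENNReal.ofReal q := by
  rw [nm_ee]; simp [wa]

theorem pt_e1 {q M : ℝ} (hq : 1 ≤ q) (hM : 0 ≤ M) (y z : ℕ → ℝ) :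
    nm (wb q M) (T ee y z) ≤ ENNReal.ofReal q * (5 * (nm (wb q M) y * nm (wb2 q M) z)
      + 1 * (nm (wb q M) z * nm (wb2 q M) y)) := by
  refine (nm_T123 hq hM _ y z _ (nm_T3_a hq hM _ y z)).trans ?_
  rw [bil_ki_ee_left, bil_zero_left, nm_zero, a_ee, add_zero]
  have hy := a_le hq hM y
  have hz := a_le hq hM z
  calc _ ≤ 2 * (ENNReal.ofReal q * nm (wb q M) y * nm (wb2 q M) z)
      + ENNReal.ofReal q * (nm (wb2 q M) y * nm (wb q M) z + nm (wb q M) y * nm (wb2 q M) z)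
      + 2 * (ENNReal.ofReal q * nm (wb q M) y * nm (wb2 q M) z) := by
        gcongr
        · exact bl_le hq hM z
        · exact bl_le hq hM y
        · exact bl_le hq hM z
        · exact c_le hq hM z
    _ = _ := by ring

theorem pt_e2 {q M : ℝ} (hq : 1 ≤ q) (hM : 0 ≤ M) (x z : ℕ → ℝ) :
    nm (wb q M) (T x ee z) ≤ ENNReal.ofReal q * (5 * (nm (wb q M) x * nm (wb2 q M) z)) := by
  refine (nm_T123 hq hM x _ z _ (nm_T3_a hq hM x _ z)).trans ?_
  rw [bil_ki_ee_right, bil_zero_left, nm_zero, a_ee, bl_ee, add_zero, zero_mul, zero_add]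
  have hx := a_le hq hM x
  calc _ ≤ 2 * (nm (wb q M) x * ENNReal.ofReal q * nm (wb2 q M) z)
      + nm (wb q M) x * (ENNReal.ofReal q * nm (wb2 q M) z)
      + 2 * (nm (wb q M) x * ENNReal.ofReal q * nm (wb2 q M) z) := by
        gcongr
        · exact bl_le hq hM z
        · exact bl_le hq hM z
        · exact c_le hq hM z
    _ = _ := by ring

theorem pt_e3 {q M : ℝ} (hq : 1 ≤ q) (hM : 0 ≤ M) (x y : ℕ → ℝ) :
    nm (wb q M) (T x y ee) ≤ ENNReal.ofReal q * (5 * (nm (wb q M) x * nm (wb2 q M) y)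
      + 4 * (nm (wb q M) y * nm (wb2 q M) x)) := by
  refine (nm_T123 hq hM x y _ _ (nm_T3_b hq hM x y _)).trans ?_
  refine (add_le_add_right (nm_T4 hq hM x y _) _).trans ?_
  rw [a_ee, bl_ee, al_ee, mul_zero, mul_zero, mul_zero, mul_zero, mul_zero, add_zero, add_zero, zero_add]
  have hx := a_le hq hM x
  have hy := a_le hq hM y
  calc _ ≤ nm (wb q M) x * (nm (wb2 q M) y * ENNReal.ofReal q)
      + 2 * (nm (wb q M) x * nm (wb2 q M) y * ENNReal.ofReal q)
      + (4 * (nm (wb2 q M) x * nm (wb q M) y * ENNReal.ofReal q)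
      + 2 * (nm (wb q M) x * nm (wb2 q M) y * ENNReal.ofReal q)) := by
        gcongr
        · exact bl_le hq hM y
        · exact c_le hq hM y
        · exact a2_le hq hM x
        · exact a2_le hq hM y
    _ = _ := by ring

/-! ### time dependent estimates -/

section
variable {Θ q M : ℝ} (hΘ : 0 ≤ Θ) (hq : 1 < q) (hM : 0 ≤ M) {F G H : ℕ → CI}
  (hF : SS q F) (hG : SS q G) (hH : SS q H)

theorem lin3 (k₁ k₂ k₃ : ℝ≥0∞) (μ : Measure ℝ) (a b c : ℝ → ℝ≥0∞) (ha : Measurable a)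
    (hb : Measurable b) (hc : Measurable c) : ∫⁻ s, (k₁ * a s + k₂ * b s + k₃ * c s) ∂μ =
      k₁ * ∫⁻ s, a s ∂μ + k₂ * ∫⁻ s, b s ∂μ + k₃ * ∫⁻ s, c s ∂μ := by
  rw [lintegral_add_right _ (hc.const_mul _), lintegral_add_right _ (hb.const_mul _),
    lintegral_const_mul _ ha, lintegral_const_mul _ hb, lintegral_const_mul _ hc]

theorem lin2 (k₁ k₂ k : ℝ≥0∞) (μ : Measure ℝ) (a b : ℝ → ℝ≥0∞) (ha : Measurable a)
    (hb : Measurable b) : ∫⁻ s, k * (k₁ * a s + k₂ * b s) ∂μ =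
      k * (k₁ * ∫⁻ s, a s ∂μ + k₂ * ∫⁻ s, b s ∂μ) := by
  have hm : Measurable fun s => k₁ * a s + k₂ * b s := (ha.const_mul _).add (hb.const_mul _)
  rw [lintegral_const_mul _ hm,
    lintegral_add_right _ (hb.const_mul _), lintegral_const_mul _ ha, lintegral_const_mul _ hb]

/-- integration of a product of two sup-bounded quantities and one integrated one -/
theorem int3 (hΘ : 0 ≤ Θ) (w w' : ℕ → ℝ) (F : ℕ → CI) (A B : ℝ≥0∞) (a b : ℝ → ℝ≥0∞)
    (ha : ∀ s, a s ≤ A) (hb : ∀ s, b s ≤ B) :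
    ENNReal.ofReal Θ * ∫⁻ s in Set.Ioc (0:ℝ) 1, a s * b s * nm w (fun n => ev (F n) s) ≤
      A * B * nI Θ w F := by
  calc ENNReal.ofReal Θ * ∫⁻ s in Set.Ioc (0:ℝ) 1, a s * b s * nm w (fun n => ev (F n) s)
      ≤ ENNReal.ofReal Θ * ∫⁻ s in Set.Ioc (0:ℝ) 1, A * B * nm w (fun n => ev (F n) s) := by
        refine mul_le_mul_right (lintegral_mono fun s => ?_) _
        exact mul_le_mul_left (mul_le_mul' (ha s) (hb s)) _
    _ = _ := by
        rw [lintegral_const_mul _ (meas_nm w F), nI_eq hΘ]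
        ring

include hΘ hq hM hF hG hH in
theorem est3 : nI Θ (wb q M) (T F G H) ≤ 7 * (nX Θ q M F * nX Θ q M G * nX Θ q M H) := by
  rw [nI_eq hΘ]
  have e0 : ∀ s : ℝ, nm (wb q M) (fun n => ev (T F G H n) s) ≤
      7 * (nm (wb q M) (fun n => ev (F n) s) * nm (wb q M) (fun n => ev (G n) s)
        * nm (wb2 q M) (fun n => ev (H n) s))
      + 3 * (nm (wb q M) (fun n => ev (F n) s) * nm (wb q M) (fun n => ev (H n) s)
        * nm (wb2 q M) (fun n => ev (G n) s))
      + 4 * (nm (wb q M) (fun n => ev (G n) s) * nm (wb q M) (fun n => ev (H n) s)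
        * nm (wb2 q M) (fun n => ev (F n) s)) := by
    intro s
    have : (fun n => ev (T F G H n) s) = T (fun m => ev (F m) s) (fun m => ev (G m) s)
      (fun m => ev (H m) s) := funext fun n => ev_T hq hF hG hH s n
    rw [this]
    exact pt3 hq.le hM _ _ _
  have mS : ∀ F : ℕ → CI, ∀ w, Measurable fun s => nm w (fun n => ev (F n) s) := fun F w => meas_nm w F
  calc ENNReal.ofReal Θ * ∫⁻ s in Set.Ioc (0:ℝ) 1, nm (wb q M) (fun n => ev (T F G H n) s)
      ≤ ENNReal.ofReal Θ * ∫⁻ s in Set.Ioc (0:ℝ) 1,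
        (7 * (nm (wb q M) (fun n => ev (F n) s) * nm (wb q M) (fun n => ev (G n) s)
        * nm (wb2 q M) (fun n => ev (H n) s))
      + 3 * (nm (wb q M) (fun n => ev (F n) s) * nm (wb q M) (fun n => ev (H n) s)
        * nm (wb2 q M) (fun n => ev (G n) s))
      + 4 * (nm (wb q M) (fun n => ev (G n) s) * nm (wb q M) (fun n => ev (H n) s)
        * nm (wb2 q M) (fun n => ev (F n) s))) :=
        mul_le_mul_right (lintegral_mono fun s => e0 s) _
    _ = 7 * (ENNReal.ofReal Θ * ∫⁻ s in Set.Ioc (0:ℝ) 1,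
          (nm (wb q M) (fun n => ev (F n) s) * nm (wb q M) (fun n => ev (G n) s)
          * nm (wb2 q M) (fun n => ev (H n) s)))
      + 3 * (ENNReal.ofReal Θ * ∫⁻ s in Set.Ioc (0:ℝ) 1,
          (nm (wb q M) (fun n => ev (F n) s) * nm (wb q M) (fun n => ev (H n) s)
          * nm (wb2 q M) (fun n => ev (G n) s)))
      + 4 * (ENNReal.ofReal Θ * ∫⁻ s in Set.Ioc (0:ℝ) 1,
          (nm (wb q M) (fun n => ev (G n) s) * nm (wb q M) (fun n => ev (H n) s)
          * nm (wb2 q M) (fun n => ev (F n) s))) := by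
        have m1 : Measurable fun s => nm (wb q M) (fun n => ev (F n) s) * nm (wb q M) (fun n => ev (G n) s)
          * nm (wb2 q M) (fun n => ev (H n) s) := ((mS F (wb q M)).mul (mS G (wb q M))).mul (mS H (wb2 q M))
        have m2 : Measurable fun s => nm (wb q M) (fun n => ev (F n) s) * nm (wb q M) (fun n => ev (H n) s)
          * nm (wb2 q M) (fun n => ev (G n) s) := ((mS F (wb q M)).mul (mS H (wb q M))).mul (mS G (wb2 q M))
        have m3 : Measurable fun s => nm (wb q M) (fun n => ev (G n) s) * nm (wb q M) (fun n => ev (H n) s)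
          * nm (wb2 q M) (fun n => ev (F n) s) := ((mS G (wb q M)).mul (mS H (wb q M))).mul (mS F (wb2 q M))
        rw [lin3 7 3 4 _ _ _ _ m1 m2 m3]
        ring
    _ ≤ 7 * (nS (wb q M) F * nS (wb q M) G * nI Θ (wb2 q M) H)
      + 3 * (nS (wb q M) F * nS (wb q M) H * nI Θ (wb2 q M) G)
      + 4 * (nS (wb q M) G * nS (wb q M) H * nI Θ (wb2 q M) F) := by
        refine add_le_add (add_le_add ?_ ?_) ?_ <;> refine mul_le_mul_right ?_ _
        · exact int3 hΘ _ (wb q M) H _ _ _ _ (nm_le_nS _ F) (nm_le_nS _ G)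
        · exact int3 hΘ _ (wb q M) G _ _ _ _ (nm_le_nS _ F) (nm_le_nS _ H)
        · exact int3 hΘ _ (wb q M) F _ _ _ _ (nm_le_nS _ G) (nm_le_nS _ H)
    _ ≤ _ := by
        unfold nX
        set a := nS (wb q M) F
        set b := nS (wb q M) G
        set c := nS (wb q M) H
        set a' := nI Θ (wb2 q M) F
        set b' := nI Θ (wb2 q M) G
        set c' := nI Θ (wb2 q M) H
        calc 7 * (a * b * c') + 3 * (a * c * b') + 4 * (b * c * a')
            ≤ 7 * (a * b * c') + 7 * (a * c * b') + 7 * (b * c * a') := by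
              gcongr <;> norm_num
          _ ≤ 7 * (a * b * c') + 7 * (a * c * b') + 7 * (b * c * a') +
              7 * (a * b * c + a * b' * c' + a' * b * c' + a' * b' * c + a' * b' * c') := le_self_add
          _ = _ := by ring

theorem nX_two (A B : ℝ≥0∞) {G H : ℕ → CI} (k : ℝ≥0∞)
    (hA : A = nS (wb q M) G * nI Θ (wb2 q M) H) (hB : B = nS (wb q M) H * nI Θ (wb2 q M) G) :
    k * (A + B) ≤ k * (nX Θ q M G * nX Θ q M H) := by
  subst hA hB
  unfold nX
  refine mul_le_mul_right ?_ _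
  set b := nS (wb q M) G
  set c := nS (wb q M) H
  set b' := nI Θ (wb2 q M) G
  set c' := nI Θ (wb2 q M) H
  calc b * c' + c * b' ≤ b * c' + c * b' + (b * c + b' * c') := le_self_add
    _ = _ := by ring

include hΘ hq hM hG hH in
theorem est_e (u v : ℝ≥0∞) (hu : u ≤ 5) (hv : v ≤ 5) {K : ℕ → CI}
    (hK : ∀ s : ℝ, nm (wb q M) (fun n => ev (K n) s) ≤ ENNReal.ofReal q *
      (u * (nm (wb q M) (fun n => ev (G n) s) * nm (wb2 q M) (fun n => ev (H n) s))
      + v * (nm (wb q M) (fun n => ev (H n) s) * nm (wb2 q M) (fun n => ev (G n) s)))) :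
    nI Θ (wb q M) K ≤ 5 * ENNReal.ofReal q * (nX Θ q M G * nX Θ q M H) := by
  rw [nI_eq hΘ]
  have mS : ∀ F : ℕ → CI, ∀ w, Measurable fun s => nm w (fun n => ev (F n) s) := fun F w => meas_nm w F
  have m1 : Measurable fun s => nm (wb q M) (fun n => ev (G n) s) * nm (wb2 q M) (fun n => ev (H n) s) :=
    (mS G (wb q M)).mul (mS H (wb2 q M))
  have m2 : Measurable fun s => nm (wb q M) (fun n => ev (H n) s) * nm (wb2 q M) (fun n => ev (G n) s) :=
    (mS H (wb q M)).mul (mS G (wb2 q M))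
  calc ENNReal.ofReal Θ * ∫⁻ s in Set.Ioc (0:ℝ) 1, nm (wb q M) (fun n => ev (K n) s)
      ≤ ENNReal.ofReal Θ * ∫⁻ s in Set.Ioc (0:ℝ) 1, ENNReal.ofReal q *
        (5 * (nm (wb q M) (fun n => ev (G n) s) * nm (wb2 q M) (fun n => ev (H n) s))
        + 5 * (nm (wb q M) (fun n => ev (H n) s) * nm (wb2 q M) (fun n => ev (G n) s))) := by
        refine mul_le_mul_right (lintegral_mono fun s => (hK s).trans ?_) _
        gcongr
    _ = ENNReal.ofReal q * (5 * (ENNReal.ofReal Θ * ∫⁻ s in Set.Ioc (0:ℝ) 1,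
          (nm (wb q M) (fun n => ev (G n) s) * nm (wb2 q M) (fun n => ev (H n) s)))
        + 5 * (ENNReal.ofReal Θ * ∫⁻ s in Set.Ioc (0:ℝ) 1,
          (nm (wb q M) (fun n => ev (H n) s) * nm (wb2 q M) (fun n => ev (G n) s)))) := by
        rw [lin2 5 5 _ _ _ _ m1 m2]
        ring
    _ ≤ ENNReal.ofReal q * (5 * (nS (wb q M) G * nI Θ (wb2 q M) H)
        + 5 * (nS (wb q M) H * nI Θ (wb2 q M) G)) := by
        have k1 := int3 hΘ (wb2 q M) (wb q M) H _ 1 _ (fun _ => 1) (nm_le_nS (wb q M) G) (fun _ => le_rfl)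
        have k2 := int3 hΘ (wb2 q M) (wb q M) G _ 1 _ (fun _ => 1) (nm_le_nS (wb q M) H) (fun _ => le_rfl)
        simp only [mul_one] at k1 k2
        gcongr
    _ = 5 * ENNReal.ofReal q * ((nS (wb q M) G * nI Θ (wb2 q M) H)
        + (nS (wb q M) H * nI Θ (wb2 q M) G)) := by ring
    _ ≤ _ := nX_two _ _ _ rfl rfl

include hΘ hq hM hG hH in
theorem est_e1 : nI Θ (wb q M) (T ee G H) ≤ 5 * ENNReal.ofReal q * (nX Θ q M G * nX Θ q M H) := by
  refine est_e hΘ hq hM hG hH 5 1 le_rfl (by norm_num) fun s => ?_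
  have : (fun n => ev (T ee G H n) s) = T ee (fun m => ev (G m) s) (fun m => ev (H m) s) := by
    funext n
    rw [ev_T hq (SS_ee q) hG hH s n, ev_ee]
  rw [this]
  exact pt_e1 hq.le hM _ _

include hΘ hq hM hG hH in
theorem est_e2 : nI Θ (wb q M) (T G ee H) ≤ 5 * ENNReal.ofReal q * (nX Θ q M G * nX Θ q M H) := by
  refine est_e hΘ hq hM hG hH 5 0 le_rfl (by norm_num) fun s => ?_
  have : (fun n => ev (T G ee H n) s) = T (fun m => ev (G m) s) ee (fun m => ev (H m) s) := by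
    funext n
    rw [ev_T hq hG (SS_ee q) hH s n, ev_ee]
  rw [this, zero_mul, add_zero]
  exact pt_e2 hq.le hM _ _

include hΘ hq hM hG hH in
theorem est_e3 : nI Θ (wb q M) (T G H ee) ≤ 5 * ENNReal.ofReal q * (nX Θ q M G * nX Θ q M H) := by
  refine est_e hΘ hq hM hG hH 5 4 le_rfl (by norm_num) fun s => ?_
  have : (fun n => ev (T G H ee n) s) = T (fun m => ev (G m) s) (fun m => ev (H m) s) ee := by
    funext n
    rw [ev_T hq hG hH (SS_ee q) s n, ev_ee]
  rw [this]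
  exact pt_e3 hq.le hM _ _

end

end

end Pool.Agent.N535
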