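import Mathlib
import Pool.Agent.H786.G.R_pool_sql_team_seeded_63374d34.N535.Duh2

set_option autoImplicit false
set_option linter.all false
open Finset MeasureTheory Set Filter Topology
open scoped ENNReal

namespace Pool.Agent.N535

open Pool.Agent.H858R2 (CI ev evH abs_ev_le norm_evH_le continuous_ev ev_one ev_zero ev_of ev_add ev_sub
  ev_neg ev_smul ev_mul)

noncomputable section

variable {Θ q M : ℝ}

theorem wb_ge_one (hq : 1 ≤ q) (hM : 1 ≤ M) (n : ℕ) : 1 ≤ wb q M n := by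
  unfold wb
  have h1 : (1:ℝ) ≤ q ^ n := one_le_pow₀ hq
  have h2 : (0:ℝ) ≤ n := Nat.cast_nonneg n
  nlinarith

theorem nX_eq (F : ℕ → CI) : nX Θ q M F = ∑' n, (ENNReal.ofReal (wb q M n) * ‖F n‖ₑ +
    ENNReal.ofReal (wb2 q M n) * ENNReal.ofReal (Θ * I1 (F n))) := by
  unfold nX nS nI
  rw [← ENNReal.tsum_add]

theorem norm_le_nX (hq : 1 ≤ q) (hM : 1 ≤ M) (F : ℕ → CI) (n : ℕ) : ‖F n‖ₑ ≤ nX Θ q M F := by
  rw [nX_eq]
  refine le_trans ?_ (ENNReal.le_tsum n)
  refine le_trans ?_ le_self_add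
  have : (1 : ℝ≥0∞) ≤ ENNReal.ofReal (wb q M n) := by
    rw [← ENNReal.ofReal_one]
    exact ENNReal.ofReal_le_ofReal (wb_ge_one hq hM n)
  calc ‖F n‖ₑ = 1 * ‖F n‖ₑ := (one_mul _).symm
    _ ≤ _ := mul_le_mul_left this _

theorem nS_add (w : ℕ → ℝ) (F G : ℕ → CI) : nS w (fun n => F n + G n) ≤ nS w F + nS w G := by
  unfold nS
  rw [← ENNReal.tsum_add]
  refine ENNReal.tsum_le_tsum fun n => ?_
  rw [← mul_add]
  exact mul_le_mul_right (enorm_add_le _ _) _

theorem nI_add (hΘ : 0 ≤ Θ) (w : ℕ → ℝ) (F G : ℕ → CI) :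
    nI Θ w (fun n => F n + G n) ≤ nI Θ w F + nI Θ w G := by
  unfold nI
  rw [← ENNReal.tsum_add]
  refine ENNReal.tsum_le_tsum fun n => ?_
  rw [← mul_add]
  refine mul_le_mul_right ?_ _
  rw [← ENNReal.ofReal_add (mul_nonneg hΘ (I1_nonneg _)) (mul_nonneg hΘ (I1_nonneg _)), ← mul_add]
  exact ENNReal.ofReal_le_ofReal (mul_le_mul_of_nonneg_left (I1_add_le _ _) hΘ)

theorem nX_add (hΘ : 0 ≤ Θ) (F G : ℕ → CI) :
    nX Θ q M (fun n => F n + G n) ≤ nX Θ q M F + nX Θ q M G := by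
  unfold nX
  refine (add_le_add (nS_add _ F G) (nI_add hΘ _ F G)).trans (le_of_eq ?_)
  ring

theorem nX_neg (F : ℕ → CI) : nX Θ q M (fun n => - F n) = nX Θ q M F := by
  unfold nX nS nI
  congr 1
  · exact tsum_congr fun n => by rw [enorm_neg]
  · exact tsum_congr fun n => by rw [I1_neg]

theorem nX_sub_comm (F G : ℕ → CI) :
    nX Θ q M (fun n => F n - G n) = nX Θ q M (fun n => G n - F n) := by
  rw [← nX_neg]
  congr 1
  funext n
  simp

theorem nX_tri (hΘ : 0 ≤ Θ) (F G H : ℕ → CI) :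
    nX Θ q M (fun n => F n - H n) ≤ nX Θ q M (fun n => F n - G n) + nX Θ q M (fun n => G n - H n) := by
  have h := nX_add (Θ := Θ) (q := q) (M := M) hΘ (fun n => F n - G n) (fun n => G n - H n)
  simpa using h

theorem continuous_I1 : Continuous I1 := by
  have : LipschitzWith 1 I1 := LipschitzWith.of_dist_le_mul fun f g => by
    rw [Real.dist_eq, NNReal.coe_one, one_mul, dist_eq_norm]
    have h1 : ∀ f g : CI, I1 f ≤ I1 g + ‖f - g‖ := by
      intro f g
      have h2 := I1_add_le g (f - g)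
      have h3 : I1 (f - g) ≤ ‖f - g‖ := by
        unfold I1
        have : ∫ s in (0:ℝ)..1, |ev (f - g) s| ≤ ∫ s in (0:ℝ)..1, ‖f - g‖ := by
          apply intervalIntegral.integral_mono_on zero_le_one
          · exact (continuous_ev _).abs.intervalIntegrable _ _
          · exact continuous_const.intervalIntegrable _ _
          · intro s _
            exact abs_ev_le _ _
        simpa using this
      rw [add_sub_cancel] at h2
      linarith
    rw [abs_le]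
    constructor
    · have := h1 g f
      rw [← norm_neg, neg_sub] at this
      linarith
    · have := h1 f g
      linarith
  exact this.continuous

/-- lower semicontinuity of the norm -/
theorem nX_lsc {G : ℕ → ℕ → CI} {F : ℕ → CI} (h : ∀ n, Tendsto (fun k => G k n) atTop (𝓝 (F n)))
    {B : ℝ≥0∞} (hB : ∀ k, nX Θ q M (G k) ≤ B) : nX Θ q M F ≤ B := by
  rw [nX_eq, ENNReal.tsum_eq_iSup_sum]
  refine iSup_le fun s => ?_
  have ht : Tendsto (fun k => ∑ n ∈ s, (ENNReal.ofReal (wb q M n) * ‖G k n‖ₑ +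
      ENNReal.ofReal (wb2 q M n) * ENNReal.ofReal (Θ * I1 (G k n)))) atTop
      (𝓝 (∑ n ∈ s, (ENNReal.ofReal (wb q M n) * ‖F n‖ₑ +
      ENNReal.ofReal (wb2 q M n) * ENNReal.ofReal (Θ * I1 (F n))))) := by
    refine tendsto_finset_sum _ fun n _ => Tendsto.add ?_ ?_
    · exact ENNReal.Tendsto.const_mul ((continuous_enorm.tendsto _).comp (h n))
        (Or.inr ENNReal.ofReal_ne_top)
    · refine ENNReal.Tendsto.const_mul (ENNReal.tendsto_ofReal ?_) (Or.inr ENNReal.ofReal_ne_top)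
      exact ((continuous_I1.tendsto _).comp (h n)).const_mul Θ
  refine le_of_tendsto' ht fun k => ?_
  refine le_trans ?_ (hB k)
  rw [nX_eq]
  exact ENNReal.sum_le_tsum s

theorem half_pow_tendsto {P : ℝ≥0∞} (hP : P ≠ ∞) :
    Tendsto (fun m : ℕ => (2⁻¹ : ℝ≥0∞) ^ m * P) atTop (𝓝 0) := by
  have h1 : Tendsto (fun m : ℕ => (2⁻¹ : ℝ≥0∞) ^ m) atTop (𝓝 0) :=
    ENNReal.tendsto_pow_atTop_nhds_zero_of_lt_one (by norm_num)
  have := ENNReal.Tendsto.mul_const h1 (Or.inr hP)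
  simpa using this

theorem picard (hΘ : 0 ≤ Θ) (hq : 1 ≤ q) (hM : 1 ≤ M) (Φ : (ℕ → CI) → (ℕ → CI)) (P : ℝ≥0∞)
    (hP : P ≠ ∞) (hball : ∀ F, nX Θ q M F ≤ P → nX Θ q M (Φ F) ≤ P)
    (hcon : ∀ F G, nX Θ q M F ≤ P → nX Θ q M G ≤ P →
      nX Θ q M (fun n => Φ F n - Φ G n) ≤ 2⁻¹ * nX Θ q M (fun n => F n - G n)) :
    ∃ F, nX Θ q M F ≤ P ∧ Φ F = F := by
  set f : ℕ → ℕ → CI := fun m => Φ^[m] (fun _ => 0) with hf
  have hf0 : f 0 = fun _ => 0 := rfl
  have hfs : ∀ m, f (m + 1) = Φ (f m) := fun m => Function.iterate_succ_apply' Φ m _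
  have h0 : nX Θ q M (fun _ => (0 : CI)) = 0 := by
    rw [nX_eq]
    have : I1 (0 : CI) = 0 := by unfold I1; simp
    simp [this]
  have hfP : ∀ m, nX Θ q M (f m) ≤ P := by
    intro m
    induction m with
    | zero => rw [hf0, h0]; exact zero_le
    | succ m ih => rw [hfs]; exact hball _ ih
  have hd : ∀ m j, nX Θ q M (fun n => f (m + j) n - f m n) ≤ 2⁻¹ ^ m * P := by
    intro m
    induction m with
    | zero =>
      intro j
      rw [hf0]
      simpa using hfP j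
    | succ m ih =>
      intro j
      have e1 : m + 1 + j = m + j + 1 := by ring
      rw [e1, hfs, hfs]
      refine (hcon _ _ (hfP _) (hfP _)).trans ?_
      rw [pow_succ, mul_comm (2⁻¹ ^ m) 2⁻¹, mul_assoc]
      exact mul_le_mul_right (ih j) _
  have hcau : ∀ n, CauchySeq fun m => f m n := by
    intro n
    refine cauchySeq_of_le_geometric (2⁻¹ : ℝ) P.toReal (by norm_num) fun m => ?_
    rw [dist_comm, dist_eq_norm]
    have h1 := (norm_le_nX hq hM (fun n => f (m + 1) n - f m n) n).trans (hd m 1)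
    have h2 := ENNReal.toReal_mono (ENNReal.mul_ne_top (by
      apply ENNReal.pow_ne_top; norm_num) hP) h1
    rw [toReal_enorm, ENNReal.toReal_mul, ENNReal.toReal_pow] at h2
    simp only [ENNReal.toReal_inv, ENNReal.toReal_ofNat] at h2
    linarith
  choose F hF using fun n => cauchySeq_tendsto_of_complete (hcau n)
  have hFm : ∀ m, nX Θ q M (fun n => F n - f m n) ≤ 2⁻¹ ^ m * P := by
    intro m
    refine nX_lsc (G := fun k n => f (m + k) n - f m n) (fun n => ?_) (fun k => hd m k)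
    refine Tendsto.sub_const ?_ _
    have := (tendsto_add_atTop_iff_nat (f := fun k => f k n) m).2 (hF n)
    refine this.congr fun k => ?_
    rw [add_comm]
  have hFP : nX Θ q M F ≤ P := nX_lsc hF hfP
  refine ⟨F, hFP, ?_⟩
  have h3 : ∀ m, nX Θ q M (fun n => Φ F n - F n) ≤ 2 * (2⁻¹ ^ m * P) := by
    intro m
    calc nX Θ q M (fun n => Φ F n - F n)
        ≤ nX Θ q M (fun n => Φ F n - f (m + 1) n) + nX Θ q M (fun n => f (m + 1) n - F n) :=
          nX_tri hΘ _ _ _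
      _ ≤ 2⁻¹ ^ m * P + 2⁻¹ ^ m * P := by
          refine add_le_add ?_ ?_
          · rw [hfs]
            refine (hcon _ _ hFP (hfP m)).trans ?_
            calc 2⁻¹ * nX Θ q M (fun n => F n - f m n) ≤ 1 * (2⁻¹ ^ m * P) :=
                  mul_le_mul' (by norm_num) (hFm m)
              _ = _ := one_mul _
          · rw [nX_sub_comm]
            refine (hFm (m + 1)).trans ?_
            refine mul_le_mul_left ?_ _
            rw [pow_succ]
            calc (2⁻¹:ℝ≥0∞) ^ m * 2⁻¹ ≤ 2⁻¹ ^ m * 1 := mul_le_mul_right (by norm_num) _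
              _ = _ := mul_one _
      _ = _ := by ring
  have h4 : nX Θ q M (fun n => Φ F n - F n) = 0 := by
    refine le_antisymm ?_ zero_le
    have ht : Tendsto (fun m : ℕ => 2 * ((2⁻¹ : ℝ≥0∞) ^ m * P)) atTop (𝓝 (2 * 0)) :=
      ENNReal.Tendsto.const_mul (half_pow_tendsto hP) (Or.inr (by norm_num))
    rw [mul_zero] at ht
    exact ge_of_tendsto' ht h3
  funext n
  have h5 := norm_le_nX (Θ := Θ) hq hM (fun n => Φ F n - F n) n
  rw [h4] at h5
  have h6 : Φ F n - F n = 0 := by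
    have := le_antisymm h5 zero_le
    simpa using this
  exact sub_eq_zero.1 h6

/-! ### the nonlinearity -/

/-- `T(1+w,1+w,1+w)` without its constant and linear parts -/
def Nl (F : ℕ → CI) (n : ℕ) : CI := T F F F n + T ee F F n + T F ee F n + T F F ee n

theorem SS_of_nX (hq : 1 ≤ q) (hM : 1 ≤ M) {F : ℕ → CI} (h : nX Θ q M F ≠ ∞) : SS q F := by
  have h1 : (∑' n, ENNReal.ofReal (q ^ n * ‖F n‖)) ≠ ∞ := by
    refine ne_top_of_le_ne_top h ?_
    rw [nX_eq]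
    refine ENNReal.tsum_le_tsum fun n => ?_
    refine le_trans ?_ le_self_add
    rw [← ofReal_norm, ← ENNReal.ofReal_mul (wb_nonneg hq (by linarith) n)]
    refine ENNReal.ofReal_le_ofReal (mul_le_mul_of_nonneg_right ?_ (norm_nonneg _))
    unfold wb
    have h2 : (0:ℝ) ≤ n := Nat.cast_nonneg n
    have h3 : (0:ℝ) < q ^ n := by positivity
    nlinarith
  have h2 : Summable fun n => q ^ n * ‖F n‖ := by
    have := ENNReal.summable_toReal h1
    refine this.congr fun n => ?_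
    rw [ENNReal.toReal_ofReal]
    have : 0 ≤ q := by linarith
    positivity
  intro r h3 h4
  refine Summable.of_nonneg_of_le (fun n => by positivity) (fun n => ?_) h2
  exact mul_le_mul_of_nonneg_right (pow_le_pow_left₀ (by linarith) h4.le n) (norm_nonneg _)

theorem nX_Dop (hΘ : 0 ≤ Θ) (hq : 1 ≤ q) (hM : 0 ≤ M) (H : ℕ → CI) :
    nX Θ q M (fun n => Dop Θ n (H n)) ≤ 5 * nI Θ (wb q M) H := by
  unfold nX
  have h1 : nS (wb q M) (fun n => Dop Θ n (H n)) ≤ nI Θ (wb q M) H := by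
    unfold nS nI
    refine ENNReal.tsum_le_tsum fun n => mul_le_mul_right ?_ _
    rw [← ofReal_norm]
    exact ENNReal.ofReal_le_ofReal (Dop_norm hΘ n _)
  have h2 : nI Θ (wb2 q M) (fun n => Dop Θ n (H n)) ≤ 4 * nI Θ (wb q M) H := by
    unfold nI
    rw [← ENNReal.tsum_mul_left]
    refine ENNReal.tsum_le_tsum fun n => ?_
    have hw := wb_nonneg hq hM n
    rw [← ENNReal.ofReal_mul (wb2_nonneg hq hM n), ← ENNReal.ofReal_mul hw, ← ofReal_four_mul]
    refine ENNReal.ofReal_le_ofReal ?_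
    unfold wb2
    calc (n:ℝ) ^ 2 * wb q M n * (Θ * I1 (Dop Θ n (H n)))
        = wb q M n * ((n:ℝ) ^ 2 * (Θ * I1 (Dop Θ n (H n)))) := by ring
      _ ≤ wb q M n * (4 * (Θ * I1 (H n))) := mul_le_mul_of_nonneg_left (Dop_I1 hΘ n _) hw
      _ = _ := by ring
  calc _ ≤ nI Θ (wb q M) H + 4 * nI Θ (wb q M) H := add_le_add h1 h2
    _ = _ := by ring

theorem nX_Lin (hΘ : 0 < Θ) (hq : 1 ≤ q) (hM : 0 ≤ M) (a : ℕ → ℝ) :
    nX Θ q M (Lin Θ a) ≤ 4 * nm (wb q M) a := by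
  unfold nX
  have h1 : nS (wb q M) (Lin Θ a) ≤ nm (wb q M) a := by
    unfold nS nm
    refine ENNReal.tsum_le_tsum fun n => mul_le_mul_right ?_ _
    rw [← ofReal_norm, Real.enorm_eq_ofReal_abs]
    exact ENNReal.ofReal_le_ofReal (Lin_norm hΘ.le a n)
  have h2 : nI Θ (wb2 q M) (Lin Θ a) ≤ 3 * nm (wb q M) a := by
    unfold nI nm
    rw [← ENNReal.tsum_mul_left]
    refine ENNReal.tsum_le_tsum fun n => ?_
    have hw := wb_nonneg hq hM n
    have h3 : (3 : ℝ≥0∞) = ENNReal.ofReal 3 := by simp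
    rw [Real.enorm_eq_ofReal_abs, ← ENNReal.ofReal_mul (wb2_nonneg hq hM n), ← ENNReal.ofReal_mul hw,
      h3, ← ENNReal.ofReal_mul (by norm_num)]
    refine ENNReal.ofReal_le_ofReal ?_
    unfold wb2
    calc (n:ℝ) ^ 2 * wb q M n * (Θ * I1 (Lin Θ a n))
        = wb q M n * ((n:ℝ) ^ 2 * (Θ * I1 (Lin Θ a n))) := by ring
      _ ≤ wb q M n * (3 * |a n|) := mul_le_mul_of_nonneg_left (Lin_I1 hΘ a n) hw
      _ = _ := by ring
  calc _ ≤ nm (wb q M) a + 3 * nm (wb q M) a := add_le_add h1 h2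
    _ = _ := by ring

theorem Nl_sub (hq : 1 < q) {F G : ℕ → CI} (hF : SS q F) (hG : SS q G) :
    (fun n => Nl F n - Nl G n) = fun n =>
      ((T (fun m => F m - G m) F F n + T G (fun m => F m - G m) F n) + T G G (fun m => F m - G m) n)
      + ((T ee (fun m => F m - G m) F n + T ee G (fun m => F m - G m) n)
      + ((T (fun m => F m - G m) ee F n + T G ee (fun m => F m - G m) n)
      + (T (fun m => F m - G m) F ee n + T G (fun m => F m - G m) ee n))) := by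
  have he : SS q (ee : ℕ → CI) := SS_ee q
  rw [T_sub1 hq hF hG hF hF, T_sub2 hq hG hF hG hF, T_sub3 hq hG hG hF hG,
    T_sub2 hq he hF hG hF, T_sub3 hq he hG hF hG, T_sub1 hq hF hG he hF, T_sub3 hq hG he hF hG,
    T_sub1 hq hF hG hF he, T_sub2 hq hG hF hG he]
  funext n
  unfold Nl
  ring

theorem nI_Nl_sub (hΘ : 0 ≤ Θ) (hq : 1 < q) (hM : 0 ≤ M) {F G : ℕ → CI} (hF : SS q F) (hG : SS q G)
    {P : ℝ≥0∞} (hFP : nX Θ q M F ≤ P) (hGP : nX Θ q M G ≤ P) :
    nI Θ (wb q M) (fun n => Nl F n - Nl G n) ≤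
      (21 * P ^ 2 + 30 * ENNReal.ofReal q * P) * nX Θ q M (fun n => F n - G n) := by
  have hD : SS q (fun n => F n - G n) := hF.sub hG
  rw [Nl_sub hq hF hG]
  set δ := nX Θ q M (fun n => F n - G n) with hδ
  have a1 := est3 hΘ hq hM hD hF hF
  have a2 := est3 hΘ hq hM hG hD hF
  have a3 := est3 hΘ hq hM hG hG hD
  have b1 := est_e1 hΘ hq hM hD hF
  have b2 := est_e1 hΘ hq hM hG hD
  have c1 := est_e2 hΘ hq hM hD hF
  have c2 := est_e2 hΘ hq hM hG hD
  have d1 := est_e3 hΘ hq hM hD hF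
  have d2 := est_e3 hΘ hq hM hG hD
  rw [← hδ] at a1 a2 a3 b1 b2 c1 c2 d1 d2
  have A1 : nI Θ (wb q M) (T (fun m => F m - G m) F F) ≤ 7 * (δ * P * P) := a1.trans (by gcongr)
  have A2 : nI Θ (wb q M) (T G (fun m => F m - G m) F) ≤ 7 * (P * δ * P) := a2.trans (by gcongr)
  have A3 : nI Θ (wb q M) (T G G (fun m => F m - G m)) ≤ 7 * (P * P * δ) := a3.trans (by gcongr)
  have B1 : nI Θ (wb q M) (T ee (fun m => F m - G m) F) ≤ 5 * ENNReal.ofReal q * (δ * P) :=
    b1.trans (by gcongr)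
  have B2 : nI Θ (wb q M) (T ee G (fun m => F m - G m)) ≤ 5 * ENNReal.ofReal q * (P * δ) :=
    b2.trans (by gcongr)
  have C1 : nI Θ (wb q M) (T (fun m => F m - G m) ee F) ≤ 5 * ENNReal.ofReal q * (δ * P) :=
    c1.trans (by gcongr)
  have C2 : nI Θ (wb q M) (T G ee (fun m => F m - G m)) ≤ 5 * ENNReal.ofReal q * (P * δ) :=
    c2.trans (by gcongr)
  have D1 : nI Θ (wb q M) (T (fun m => F m - G m) F ee) ≤ 5 * ENNReal.ofReal q * (δ * P) :=
    d1.trans (by gcongr)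
  have D2 : nI Θ (wb q M) (T G (fun m => F m - G m) ee) ≤ 5 * ENNReal.ofReal q * (P * δ) :=
    d2.trans (by gcongr)
  have key : ∀ A B : ℕ → CI, ∀ u v : ℝ≥0∞, nI Θ (wb q M) A ≤ u → nI Θ (wb q M) B ≤ v →
      nI Θ (wb q M) (fun n => A n + B n) ≤ u + v := fun A B u v hA hB =>
    (nI_add hΘ _ A B).trans (add_le_add hA hB)
  refine (key _ _ _ _ (key _ _ _ _ (key _ _ _ _ A1 A2) A3) (key _ _ _ _ (key _ _ _ _ B1 B2)
    (key _ _ _ _ (key _ _ _ _ C1 C2) (key _ _ _ _ D1 D2)))).trans (le_of_eq ?_)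
  ring

theorem nI_Nl (hΘ : 0 ≤ Θ) (hq : 1 < q) (hM : 0 ≤ M) {F : ℕ → CI} (hF : SS q F)
    {P : ℝ≥0∞} (hFP : nX Θ q M F ≤ P) :
    nI Θ (wb q M) (Nl F) ≤ (7 * P ^ 2 + 15 * ENNReal.ofReal q * P) * P := by
  have A1 : nI Θ (wb q M) (T F F F) ≤ 7 * (P * P * P) := (est3 hΘ hq hM hF hF hF).trans (by gcongr)
  have B1 : nI Θ (wb q M) (T ee F F) ≤ 5 * ENNReal.ofReal q * (P * P) :=
    (est_e1 hΘ hq hM hF hF).trans (by gcongr)
  have C1 : nI Θ (wb q M) (T F ee F) ≤ 5 * ENNReal.ofReal q * (P * P) :=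
    (est_e2 hΘ hq hM hF hF).trans (by gcongr)
  have D1 : nI Θ (wb q M) (T F F ee) ≤ 5 * ENNReal.ofReal q * (P * P) :=
    (est_e3 hΘ hq hM hF hF).trans (by gcongr)
  have key : ∀ A B : ℕ → CI, ∀ u v : ℝ≥0∞, nI Θ (wb q M) A ≤ u → nI Θ (wb q M) B ≤ v →
      nI Θ (wb q M) (fun n => A n + B n) ≤ u + v := fun A B u v hA hB =>
    (nI_add hΘ _ A B).trans (add_le_add hA hB)
  have h := key _ _ _ _ (key _ _ _ _ (key _ _ _ _ A1 B1) C1) D1
  refine le_trans (le_of_eq rfl) (h.trans (le_of_eq ?_))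
  ring

/-- the solution of the integral equations -/
theorem sol_exists {Θ q M ε : ℝ} (hΘ : 0 < Θ) (hq : 1 < q) (hq2 : q ≤ 2) (hM : 1 ≤ M) (hε : 0 ≤ ε)
    (hε2 : ε ≤ 1 / 8000) (a : ℕ → ℝ) (ha : nm (wb q M) a ≤ ENNReal.ofReal ε) :
    ∃ c : ℕ → CI, nX Θ q M c ≤ ENNReal.ofReal (8 * ε) ∧
      ∀ n, c n = Lin Θ a n + Dop Θ n (Nl c n) := by
  have hM0 : 0 ≤ M := by linarith
  set ρ : ℝ := 8 * ε with hρ
  have hρ0 : 0 ≤ ρ := by positivity
  have hρ1 : ρ ≤ 1 / 1000 := by rw [hρ]; linarith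
  set P := ENNReal.ofReal ρ with hPdef
  have hP : P ≠ ∞ := ENNReal.ofReal_ne_top
  have hss : ∀ F, nX Θ q M F ≤ P → SS q F := fun F hF =>
    SS_of_nX hq.le hM (ne_top_of_le_ne_top hP hF)
  have hqe : ENNReal.ofReal q ≤ 2 := by
    rw [← ENNReal.ofReal_ofNat]; exact ENNReal.ofReal_le_ofReal hq2
  have hball : ∀ F, nX Θ q M F ≤ P → nX Θ q M (fun n => Lin Θ a n + Dop Θ n (Nl F n)) ≤ P := by
    intro F hF
    have h1 := nI_Nl hΘ.le hq hM0 (hss F hF) hF
    calc nX Θ q M (fun n => Lin Θ a n + Dop Θ n (Nl F n))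
        ≤ nX Θ q M (Lin Θ a) + nX Θ q M (fun n => Dop Θ n (Nl F n)) := nX_add hΘ.le _ _
      _ ≤ 4 * ENNReal.ofReal ε + 5 * ((7 * P ^ 2 + 15 * 2 * P) * P) := by
          refine add_le_add ((nX_Lin hΘ hq.le hM0 a).trans (mul_le_mul_right ha _)) ?_
          refine (nX_Dop hΘ.le hq.le hM0 _).trans (mul_le_mul_right (h1.trans ?_) _)
          gcongr
      _ = ENNReal.ofReal (4 * ε + 5 * ((7 * ρ ^ 2 + 15 * 2 * ρ) * ρ)) := by
          rw [ENNReal.ofReal_add (by positivity) (by positivity), ofReal_four_mul,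
            ENNReal.ofReal_mul (by norm_num : (0:ℝ) ≤ 5), ENNReal.ofReal_mul (by positivity),
            ENNReal.ofReal_add (by positivity) (by positivity),
            ENNReal.ofReal_mul (by norm_num : (0:ℝ) ≤ 7), ENNReal.ofReal_pow hρ0,
            ENNReal.ofReal_mul (by norm_num : (0:ℝ) ≤ 15 * 2), ENNReal.ofReal_mul (by norm_num : (0:ℝ) ≤ 15)]
          simp only [ENNReal.ofReal_ofNat]
          rfl
      _ ≤ P := by
          refine ENNReal.ofReal_le_ofReal ?_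
          have : 4 * ε = ρ / 2 := by rw [hρ]; ring
          rw [this]
          nlinarith [mul_nonneg hρ0 hρ0, mul_nonneg (mul_nonneg hρ0 hρ0) hρ0,
            mul_le_mul_of_nonneg_left hρ1 (mul_nonneg hρ0 hρ0), mul_le_mul_of_nonneg_left hρ1 hρ0]
  have hcon : ∀ F G, nX Θ q M F ≤ P → nX Θ q M G ≤ P →
      nX Θ q M (fun n => (Lin Θ a n + Dop Θ n (Nl F n)) - (Lin Θ a n + Dop Θ n (Nl G n))) ≤
        2⁻¹ * nX Θ q M (fun n => F n - G n) := by
    intro F G hF hG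
    have e1 : (fun n => (Lin Θ a n + Dop Θ n (Nl F n)) - (Lin Θ a n + Dop Θ n (Nl G n))) =
        fun n => Dop Θ n (Nl F n - Nl G n) := by
      funext n
      rw [Dop_sub]
      abel
    rw [e1]
    have h1 := nI_Nl_sub hΘ.le hq hM0 (hss F hF) (hss G hG) hF hG
    refine (nX_Dop hΘ.le hq.le hM0 _).trans ((mul_le_mul_right h1 _).trans ?_)
    rw [← mul_assoc]
    refine mul_le_mul_left ?_ _
    calc 5 * (21 * P ^ 2 + 30 * ENNReal.ofReal q * P) ≤ 5 * (21 * P ^ 2 + 30 * 2 * P) := by gcongr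
      _ = ENNReal.ofReal (5 * (21 * ρ ^ 2 + 30 * 2 * ρ)) := by
          rw [ENNReal.ofReal_mul (by norm_num : (0:ℝ) ≤ 5),
            ENNReal.ofReal_add (by positivity) (by positivity),
            ENNReal.ofReal_mul (by norm_num : (0:ℝ) ≤ 21), ENNReal.ofReal_pow hρ0,
            ENNReal.ofReal_mul (by norm_num : (0:ℝ) ≤ 30 * 2), ENNReal.ofReal_mul (by norm_num : (0:ℝ) ≤ 30)]
          simp only [ENNReal.ofReal_ofNat]
          rfl
      _ ≤ ENNReal.ofReal (2⁻¹) := by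
          refine ENNReal.ofReal_le_ofReal ?_
          nlinarith [mul_nonneg hρ0 hρ0, mul_le_mul_of_nonneg_left hρ1 hρ0]
      _ = 2⁻¹ := by
          rw [ENNReal.ofReal_inv_of_pos (by norm_num)]; simp
  obtain ⟨c, h1, h2⟩ := picard hΘ.le hq.le hM (fun F n => Lin Θ a n + Dop Θ n (Nl F n)) P hP hball hcon
  exact ⟨c, h1, fun n => (congrFun h2 n).symm⟩

end

end Pool.Agent.N535
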