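import Mathlib
import Pool.Agent.H786.G.R_pool_sql_team_seeded_63374d34.N535.Tri

set_option autoImplicit false
set_option linter.all false
open Finset Set Filter Topology
open scoped ENNReal

namespace Pool.Agent.N535

noncomputable section

/-- the sequence space `ℓ¹` -/
abbrev E1 : Type := lp (fun _ : ℕ => ℝ) 1

theorem E1_hasSum (X : E1) : HasSum (fun n => |X n|) ‖X‖ := by
  have h := lp.hasSum_norm (p := 1) (by simp) X
  simpa using h

theorem E1_norm (X : E1) : ‖X‖ = ∑' n, |X n| := (E1_hasSum X).tsum_eq.symm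

theorem E1_summable (X : E1) : Summable fun n => |X n| := (E1_hasSum X).summable

theorem mem_E1 {x : ℕ → ℝ} (h : Summable fun n => |x n|) : Memℓp x 1 := by
  apply memℓp_gen
  simpa using h

/-- the element `(r^n x_n)` of `ℓ¹` -/
def toE (r : ℝ) (x : ℕ → ℝ) : E1 :=
  open Classical in
  if h : Summable (fun n => |r ^ n * x n|) then ⟨fun n => r ^ n * x n, mem_E1 h⟩ else 0

theorem summ_abs {r : ℝ} (hr : 0 ≤ r) {x : ℕ → ℝ} (h : Summable fun n => r ^ n * ‖x n‖) :
    Summable (fun n => |r ^ n * x n|) := by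
  refine h.congr fun n => ?_
  rw [abs_mul, abs_of_nonneg (pow_nonneg hr n), Real.norm_eq_abs]

theorem toE_apply {r : ℝ} (hr : 0 ≤ r) {x : ℕ → ℝ} (h : Summable fun n => r ^ n * ‖x n‖) (n : ℕ) :
    toE r x n = r ^ n * x n := by
  unfold toE
  rw [dif_pos (summ_abs hr h)]

theorem toE_norm {r : ℝ} (hr : 0 ≤ r) {x : ℕ → ℝ} (h : Summable fun n => r ^ n * ‖x n‖) :
    ‖toE r x‖ = ∑' n, r ^ n * ‖x n‖ := by
  rw [E1_norm]
  refine tsum_congr fun n => ?_
  rw [toE_apply hr h, abs_mul, abs_of_nonneg (pow_nonneg hr n), Real.norm_eq_abs]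

/-- the sequence `(r^{-n} X_n)` -/
def sq' (r : ℝ) (X : E1) (n : ℕ) : ℝ := X n / r ^ n

theorem sq'_summ {r : ℝ} (hr : 0 < r) (X : E1) : Summable fun n => r ^ n * ‖sq' r X n‖ := by
  refine (E1_summable X).congr fun n => ?_
  have : 0 < r ^ n := pow_pos hr n
  unfold sq'
  rw [norm_div, Real.norm_eq_abs, Real.norm_of_nonneg this.le]
  field_simp

theorem toE_sq' {r : ℝ} (hr : 0 < r) (X : E1) : toE r (sq' r X) = X := by
  apply lp.ext
  funext n
  rw [toE_apply hr.le (sq'_summ hr X)]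
  have : 0 < r ^ n := pow_pos hr n
  unfold sq'
  field_simp

theorem sq'_toE {r : ℝ} (hr : 0 < r) {x : ℕ → ℝ} (h : Summable fun n => r ^ n * ‖x n‖) :
    sq' r (toE r x) = x := by
  funext n
  unfold sq'
  rw [toE_apply hr.le h]
  have : 0 < r ^ n := pow_pos hr n
  field_simp

theorem SS_sq' {r : ℝ} (hr : 0 < r) (X : E1) : SS r (sq' r X) := by
  intro r' h1 h2
  refine Summable.of_nonneg_of_le (fun n => by positivity) (fun n => ?_) (sq'_summ hr X)
  exact mul_le_mul_of_nonneg_right (pow_le_pow_left₀ (by linarith) h2.le n) (norm_nonneg _)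

theorem sq'_add (r : ℝ) (X Y : E1) : sq' r (X + Y) = fun n => sq' r X n + sq' r Y n := by
  funext n
  unfold sq'
  rw [lp.coeFn_add, Pi.add_apply, add_div]

theorem sq'_smul (r c : ℝ) (X : E1) : sq' r (c • X) = fun n => c • sq' r X n := by
  funext n
  unfold sq'
  rw [lp.coeFn_smul, Pi.smul_apply, smul_eq_mul, smul_eq_mul, mul_div_assoc]

theorem toE_add {r : ℝ} (hr : 0 ≤ r) {x y : ℕ → ℝ} (hx : Summable fun n => r ^ n * ‖x n‖)
    (hy : Summable fun n => r ^ n * ‖y n‖) : toE r (fun n => x n + y n) = toE r x + toE r y := by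
  have hxy : Summable fun n => r ^ n * ‖x n + y n‖ := by
    refine Summable.of_nonneg_of_le (fun n => by positivity) (fun n => ?_) (hx.add hy)
    rw [← mul_add]
    exact mul_le_mul_of_nonneg_left (norm_add_le _ _) (by positivity)
  apply lp.ext
  funext n
  rw [lp.coeFn_add, Pi.add_apply, toE_apply hr hx, toE_apply hr hy, toE_apply hr hxy]
  ring

theorem toE_smul {r : ℝ} (hr : 0 ≤ r) {x : ℕ → ℝ} (hx : Summable fun n => r ^ n * ‖x n‖) (c : ℝ) :
    toE r (fun n => c • x n) = c • toE r x := by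
  have hxy : Summable fun n => r ^ n * ‖c • x n‖ := by
    refine (hx.mul_left |c|).congr fun n => ?_
    rw [norm_smul, Real.norm_eq_abs c]; ring
  apply lp.ext
  funext n
  rw [lp.coeFn_smul, Pi.smul_apply, toE_apply hr hx, toE_apply hr hxy]
  simp only [smul_eq_mul]
  ring

/-! ### bilinear operators -/

theorem nm_eq_ofReal {r : ℝ} (hr : 0 ≤ r) {x : ℕ → ℝ} (h : Summable fun n => r ^ n * ‖x n‖) :
    nm (fun n => r ^ n) x = ENNReal.ofReal (∑' n, r ^ n * ‖x n‖) := by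
  unfold nm
  rw [ENNReal.ofReal_tsum_of_nonneg (fun n => by positivity) h]
  refine tsum_congr fun n => ?_
  rw [ENNReal.ofReal_mul (by positivity), ofReal_norm]

theorem bil_norm {k : ℕ → ℕ → ℕ → ℝ} (hk : PK k) {r r' : ℝ} (h1 : 1 ≤ r') (h : r' < r) :
    ∃ C : ℝ, 0 ≤ C ∧ ∀ x y : ℕ → ℝ, (Summable fun n => r ^ n * ‖x n‖) →
      (Summable fun n => r ^ n * ‖y n‖) →
      ∑' n, r' ^ n * ‖bil k x y n‖ ≤ C * (∑' n, r ^ n * ‖x n‖) * ∑' n, r ^ n * ‖y n‖ := by
  obtain ⟨C, hC, hb⟩ := kw_pow_le hk h1 h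
  refine ⟨C, hC, fun x y hx hy => ?_⟩
  have hr0 : 0 ≤ r := by linarith
  have hr0' : 0 ≤ r' := by linarith
  have hsx : SS r x := fun r'' a b =>
    Summable.of_nonneg_of_le (fun n => by positivity) (fun n =>
      mul_le_mul_of_nonneg_right (pow_le_pow_left₀ (by linarith) b.le n) (norm_nonneg _)) hx
  have hsy : SS r y := fun r'' a b =>
    Summable.of_nonneg_of_le (fun n => by positivity) (fun n =>
      mul_le_mul_of_nonneg_right (pow_le_pow_left₀ (by linarith) b.le n) (norm_nonneg _)) hy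
  have hs := (hsx.bil (by linarith) hk hsy) r' h1 h
  have h2 := nm_bil_prod (w := fun n => r' ^ n) (a := fun n => C * r ^ n) (b := fun n => r ^ n)
    (fun n => by positivity) (fun n => by positivity) hk.choose_spec.choose_spec.2.2
    (fun J K => (hb J K).trans (le_of_eq (by ring))) x y
  rw [nm_eq_ofReal hr0' hs, nm_eq_ofReal hr0 hy] at h2
  have h3 : nm (fun n => C * r ^ n) x = ENNReal.ofReal (C * ∑' n, r ^ n * ‖x n‖) := by
    rw [ENNReal.ofReal_mul hC, ← nm_eq_ofReal hr0 hx]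
    unfold nm
    rw [← ENNReal.tsum_mul_left]
    refine tsum_congr fun n => ?_
    rw [ENNReal.ofReal_mul hC]
    ring
  rw [h3, ← ENNReal.ofReal_mul (mul_nonneg hC (tsum_nonneg fun n => by positivity))] at h2
  exact (ENNReal.ofReal_le_ofReal_iff (mul_nonneg (mul_nonneg hC (tsum_nonneg fun n => by positivity))
    (tsum_nonneg fun n => by positivity))).1 h2

/-- the operator form of a kernel -/
theorem bop_exists {k : ℕ → ℕ → ℕ → ℝ} (hk : PK k) {r r' : ℝ} (h1 : 1 ≤ r') (h : r' < r) :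
    ∃ B : E1 →L[ℝ] E1 →L[ℝ] E1, ∀ x y : ℕ → ℝ, (Summable fun n => r ^ n * ‖x n‖) →
      (Summable fun n => r ^ n * ‖y n‖) → B (toE r x) (toE r y) = toE r' (bil k x y) := by
  obtain ⟨C, hC, hb⟩ := bil_norm hk h1 h
  have hr : 0 < r := by linarith
  have hr1 : 1 < r := by linarith
  have hr' : 0 ≤ r' := by linarith
  have hsum : ∀ X Y : E1, Summable fun n => r' ^ n * ‖bil k (sq' r X) (sq' r Y) n‖ := fun X Y =>
    (SS.bil hr1 hk (SS_sq' hr X) (SS_sq' hr Y)) r' h1 h
  let B0 : E1 →ₗ[ℝ] E1 →ₗ[ℝ] E1 := LinearMap.mk₂ ℝ (fun X Y => toE r' (bil k (sq' r X) (sq' r Y)))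
    (fun X X' Y => by
      rw [sq'_add, bil_add_left hr1 hk (SS_sq' hr X) (SS_sq' hr X') (SS_sq' hr Y)]
      exact toE_add hr' (hsum X Y) (hsum X' Y))
    (fun c X Y => by
      rw [sq'_smul, bil_smul_left]
      exact toE_smul hr' (hsum X Y) c)
    (fun X Y Y' => by
      rw [sq'_add, bil_add_right hr1 hk (SS_sq' hr X) (SS_sq' hr Y) (SS_sq' hr Y')]
      exact toE_add hr' (hsum X Y) (hsum X Y'))
    (fun c X Y => by
      rw [sq'_smul, bil_smul_right]
      exact toE_smul hr' (hsum X Y) c)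
  refine ⟨B0.mkContinuous₂ C fun X Y => ?_, fun x y hx hy => ?_⟩
  · show ‖toE r' (bil k (sq' r X) (sq' r Y))‖ ≤ C * ‖X‖ * ‖Y‖
    rw [toE_norm hr' (hsum X Y)]
    have h2 := hb (sq' r X) (sq' r Y) (sq'_summ hr X) (sq'_summ hr Y)
    rw [← toE_norm hr.le (sq'_summ hr X), ← toE_norm hr.le (sq'_summ hr Y), toE_sq' hr, toE_sq' hr] at h2
    exact h2
  · show toE r' (bil k (sq' r (toE r x)) (sq' r (toE r y))) = _
    rw [sq'_toE hr hx, sq'_toE hr hy]

/-- the operator form of a multiplier of polynomial growth -/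
theorem mop_exists {l : ℕ → ℝ} (hl : ∃ (C : ℝ) (p : ℕ), 0 ≤ C ∧ ∀ n : ℕ, |l n| ≤ C * ((n : ℝ) + 1) ^ p)
    {r r' : ℝ} (h1 : 1 ≤ r') (h : r' < r) :
    ∃ B : E1 →L[ℝ] E1, ∀ x : ℕ → ℝ, (Summable fun n => r ^ n * ‖x n‖) →
      B (toE r x) = toE r' (fun n => l n • x n) := by
  obtain ⟨C, p, hC, hb⟩ := hl
  have hr : 0 < r := by linarith
  have hr' : 0 < r' := by linarith
  obtain ⟨C', hC', h'⟩ := poly_le_geom p hr' h
  have hterm : ∀ (x : ℕ → ℝ) n, r' ^ n * ‖l n • x n‖ ≤ C * C' * (r ^ n * ‖x n‖) := by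
    intro x n
    rw [norm_smul, Real.norm_eq_abs (l n)]
    calc r' ^ n * (|l n| * ‖x n‖) ≤ r' ^ n * ((C * ((n : ℝ) + 1) ^ p) * ‖x n‖) := by
          gcongr; exact hb n
      _ = C * (((n : ℝ) + 1) ^ p * r' ^ n) * ‖x n‖ := by ring
      _ ≤ C * (C' * r ^ n) * ‖x n‖ :=
          mul_le_mul_of_nonneg_right (mul_le_mul_of_nonneg_left (h' n) hC) (norm_nonneg _)
      _ = _ := by ring
  have hs : ∀ x : ℕ → ℝ, (Summable fun n => r ^ n * ‖x n‖) → Summable fun n => r' ^ n * ‖l n • x n‖ :=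
    fun x hx => Summable.of_nonneg_of_le (fun n => by positivity) (hterm x) (hx.mul_left _)
  have hsum : ∀ X : E1, Summable fun n => r' ^ n * ‖l n • sq' r X n‖ := fun X => hs _ (sq'_summ hr X)
  let B0 : E1 →ₗ[ℝ] E1 :=
    { toFun := fun X => toE r' (fun n => l n • sq' r X n)
      map_add' := fun X Y => by
        rw [← toE_add hr'.le (hsum X) (hsum Y), sq'_add]
        congr 1
        funext n
        rw [smul_add]
      map_smul' := fun c X => by
        rw [RingHom.id_apply, ← toE_smul hr'.le (hsum X), sq'_smul]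
        congr 1
        funext n
        rw [smul_comm] }
  refine ⟨B0.mkContinuous (C * C') fun X => ?_, fun x hx => ?_⟩
  · show ‖toE r' (fun n => l n • sq' r X n)‖ ≤ C * C' * ‖X‖
    rw [toE_norm hr'.le (hsum X)]
    have e : ‖X‖ = ∑' n, r ^ n * ‖sq' r X n‖ := by
      rw [← toE_norm hr.le (sq'_summ hr X), toE_sq' hr]
    rw [e, ← tsum_mul_left]
    exact Summable.tsum_le_tsum (hterm _) (hsum X) ((sq'_summ hr X).mul_left _)
  · show toE r' (fun n => l n • sq' r (toE r x) n) = _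
    rw [sq'_toE hr hx]

/-! ### curves -/

theorem toE_single {r : ℝ} (hr : 0 ≤ r) {x : ℕ → ℝ} (h : Summable fun n => r ^ n * ‖x n‖) :
    toE r x = ∑' n, (r ^ n * x n) • (lp.single 1 n (1:ℝ) : E1) := by
  have h1 := lp.hasSum_single (p := 1) (by norm_num) (toE r x)
  rw [← h1.tsum_eq]
  refine tsum_congr fun n => ?_
  rw [toE_apply hr h, ← lp.single_smul]
  simp

theorem norm_single_one (n : ℕ) : ‖(lp.single 1 n (1:ℝ) : E1)‖ = 1 := by
  rw [lp.norm_single (by norm_num)]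
  simp

end

end Pool.Agent.N535
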