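import Mathlib
import Pool.Agent.H786.G.R_pool_sql_team_seeded_63374d34.N535.Smo
import Pool.Agent.H786.G.R_pool_sql_team_seeded_63374d34.N535.Bnd

set_option autoImplicit false
set_option linter.all false
open Finset Set Filter Topology Polynomial
open scoped ENNReal ContDiff

namespace Pool.Agent.N535

noncomputable section

/-- half length of the interval of evaluation -/
def bb (ρ : ℝ) : ℝ := (ρ + ρ⁻¹) / 2

theorem one_lt_bb {ρ : ℝ} (hρ : 1 < ρ) : 1 < bb ρ := by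
  unfold bb
  have h0 : 0 < ρ := by linarith
  have : ρ * ρ⁻¹ = 1 := mul_inv_cancel₀ h0.ne'
  have h1 : 0 < ρ⁻¹ := inv_pos.2 h0
  have h2 : ρ⁻¹ < 1 := inv_lt_one_of_one_lt₀ hρ
  nlinarith [mul_pos (sub_pos.2 hρ) (sub_pos.2 h2)]

/-- values of the derivatives of `s_n` -/
def sv (k n : ℕ) (t : ℝ) : ℝ := (derivative^[k] (sp n)).eval t

theorem sv_deriv (k n : ℕ) (t : ℝ) : HasDerivAt (sv k n) (sv (k + 1) n t) t := by
  unfold sv
  rw [Function.iterate_succ_apply']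
  exact Polynomial.hasDerivAt _ _

/-- geometric bound -/
theorem sv_geom {ρ r : ℝ} (hρ : 1 ≤ ρ) (h : ρ < r) (k : ℕ) :
    ∃ C : ℝ, 0 ≤ C ∧ ∀ (n : ℕ) (t : ℝ), |t| ≤ bb ρ → |sv k n t| ≤ C * r ^ n := by
  obtain ⟨C, hC, hb⟩ := poly_le_geom (2 * k + 1) (by linarith : 0 < ρ) h
  refine ⟨2 ^ k * C, by positivity, fun n t ht => ?_⟩
  have h0 : (0:ℝ) ≤ n := Nat.cast_nonneg n
  calc |sv k n t| ≤ 2 ^ k * (n:ℝ) ^ (2 * k + 1) * ρ ^ n := sp_deriv_bound hρ ht k n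
    _ ≤ 2 ^ k * ((n:ℝ) + 1) ^ (2 * k + 1) * ρ ^ n := by gcongr; linarith
    _ = 2 ^ k * (((n:ℝ) + 1) ^ (2 * k + 1) * ρ ^ n) := by ring
    _ ≤ 2 ^ k * (C * r ^ n) := mul_le_mul_of_nonneg_left (hb n) (by positivity)
    _ = _ := by ring

/-- the function with coefficients `x`, and its derivatives -/
def evk (k : ℕ) (x : ℕ → ℝ) (t : ℝ) : ℝ := ∑' n, x n * sv k n t

section
variable {q ρ : ℝ} {x y z : ℕ → ℝ}

theorem geom_summ (hρ : 1 < ρ) (hq : ρ < q) (hx : SS q x) {φ : ℕ → ℝ} {C : ℝ} (hC : 0 ≤ C)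
    (r : ℝ) (hr : 1 ≤ r) (hr2 : r < q)
    (hφ : ∀ n, |φ n| ≤ C * r ^ n) : Summable fun n => ‖x n * φ n‖ := by
  refine Summable.of_nonneg_of_le (fun n => norm_nonneg _) (fun n => ?_) ((hx r hr hr2).mul_left C)
  rw [norm_mul, Real.norm_eq_abs (φ n)]
  calc ‖x n‖ * |φ n| ≤ ‖x n‖ * (C * r ^ n) := by gcongr; exact hφ n
    _ = _ := by ring

theorem evk_summ (hρ : 1 < ρ) (hq : ρ < q) (hx : SS q x) (k : ℕ) {t : ℝ} (ht : |t| ≤ bb ρ) :
    Summable fun n => ‖x n * sv k n t‖ := by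
  obtain ⟨r, hr1, hr2⟩ := exists_between hq
  obtain ⟨C, hC, hb⟩ := sv_geom hρ.le hr1 k
  exact geom_summ hρ hq hx hC r (by linarith) hr2 (fun n => hb n t ht)

theorem evk_deriv (hρ : 1 < ρ) (hq : ρ < q) (hx : SS q x) (k : ℕ) {t : ℝ} (ht : |t| < bb ρ) :
    HasDerivAt (evk k x) (evk (k + 1) x t) t := by
  obtain ⟨r, hr1, hr2⟩ := exists_between hq
  obtain ⟨C, hC, hb⟩ := sv_geom hρ.le hr1 (k + 1)
  have hmem : t ∈ Ioo (-bb ρ) (bb ρ) := abs_lt.1 ht
  have hu : Summable fun n => C * (r ^ n * ‖x n‖) := (hx r (by linarith) hr2).mul_left C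
  unfold evk
  refine hasDerivAt_tsum_of_isPreconnected hu isOpen_Ioo isPreconnected_Ioo
    (fun n y _ => (sv_deriv k n y).const_mul (x n)) (fun n y hy => ?_) hmem
    (evk_summ hρ hq hx k ht.le).of_norm hmem
  rw [norm_mul, Real.norm_eq_abs (sv _ _ _)]
  calc ‖x n‖ * |sv (k + 1) n y| ≤ ‖x n‖ * (C * r ^ n) := by
        gcongr; exact hb n y (abs_lt.2 hy).le
    _ = _ := by ring

/-! ### algebra -/

theorem functional_bil (hq : 1 < q) {k : ℕ → ℕ → ℕ → ℝ} (hk : PK k) (hx : SS q x) (hy : SS q y)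
    {φ : ℕ → ℝ} {C r : ℝ} (hC : 0 ≤ C) (hr : 1 ≤ r) (hr2 : r < q) (hφ : ∀ n, |φ n| ≤ C * r ^ n) :
    ∑' n, bil k x y n * φ n =
      ∑' p : ℕ × ℕ, (x p.1 * y p.2) * ∑ n ∈ range (p.1 + p.2 + 1), k p.1 p.2 n * φ n := by
  have hF := fam_summable hk hx hy hr hr2
  have hG : Summable fun w : (ℕ × ℕ) × ℕ => k w.1.1 w.1.2 w.2 * (x w.1.1 * y w.1.2) * φ w.2 := by
    refine Summable.of_norm_bounded (hF.mul_left C) fun w => ?_
    rw [norm_mul, norm_mul, norm_mul, Real.norm_eq_abs (φ _), Real.norm_eq_abs (k _ _ _)]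
    calc |k w.1.1 w.1.2 w.2| * (‖x w.1.1‖ * ‖y w.1.2‖) * |φ w.2|
        ≤ |k w.1.1 w.1.2 w.2| * (‖x w.1.1‖ * ‖y w.1.2‖) * (C * r ^ w.2) := by
          gcongr; exact hφ _
      _ = _ := by ring
  have e1 : ∑' n, bil k x y n * φ n =
      ∑' n, ∑' p : ℕ × ℕ, k p.1 p.2 n * (x p.1 * y p.2) * φ n := by
    refine tsum_congr fun n => ?_
    unfold bil
    rw [← tsum_mul_right]
    rfl
  rw [e1]
  have hG' : Summable fun w : ℕ × (ℕ × ℕ) => k w.2.1 w.2.2 w.1 * (x w.2.1 * y w.2.2) * φ w.1 :=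
    hG.prod_symm
  have e2 : ∑' n, ∑' p : ℕ × ℕ, k p.1 p.2 n * (x p.1 * y p.2) * φ n =
      ∑' p : ℕ × ℕ, ∑' n, k p.1 p.2 n * (x p.1 * y p.2) * φ n :=
    (Summable.tsum_comm (f := fun (n : ℕ) (p : ℕ × ℕ) => k p.1 p.2 n * (x p.1 * y p.2) * φ n)
      hG').symm
  rw [e2]
  obtain ⟨-, -, -, -, hs⟩ := hk
  refine tsum_congr fun p => ?_
  rw [tsum_eq_sum (s := range (p.1 + p.2 + 1))]
  · rw [Finset.mul_sum]
    exact Finset.sum_congr rfl fun n _ => by ring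
  · intro n hn
    rw [Finset.mem_range] at hn
    rw [hs p.1 p.2 n (by omega)]
    ring

theorem poly_eval_sum (k : ℕ → ℕ → ℕ → ℝ) (J K : ℕ) (L : ℝ[X] →ₗ[ℝ] ℝ) :
    ∑ n ∈ range (J + K + 1), k J K n * L (sp n) = L (∑ n ∈ range (J + K + 1), k J K n • sp n) := by
  rw [map_sum]
  refine Finset.sum_congr rfl fun n _ => ?_
  rw [map_smul, smul_eq_mul]

theorem prod_tsum {a b : ℕ → ℝ} (ha : Summable fun n => ‖x n * a n‖) (hb : Summable fun n => ‖y n * b n‖) :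
    ∑' p : ℕ × ℕ, (x p.1 * y p.2) * (a p.1 * b p.2) = (∑' n, x n * a n) * ∑' n, y n * b n := by
  rw [tsum_mul_tsum_of_summable_norm ha hb]
  exact tsum_congr fun p => by ring

theorem prod_summ {a b : ℕ → ℝ} (ha : Summable fun n => ‖x n * a n‖) (hb : Summable fun n => ‖y n * b n‖) :
    Summable fun p : ℕ × ℕ => (x p.1 * y p.2) * (a p.1 * b p.2) := by
  have := (summable_mul_of_summable_norm ha hb)
  exact this.congr fun p => by ring

/-- value at `t` as a linear functional on polynomials -/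
def Lv (t : ℝ) : ℝ[X] →ₗ[ℝ] ℝ := Polynomial.leval t
/-- value of the derivative -/
def Ld (t : ℝ) : ℝ[X] →ₗ[ℝ] ℝ := (Polynomial.leval t).comp Polynomial.derivative

theorem Lv_apply (t : ℝ) (p : ℝ[X]) : Lv t p = p.eval t := rfl
theorem Ld_apply (t : ℝ) (p : ℝ[X]) : Ld t p = (derivative p).eval t := rfl

theorem sv_zero_eq (n : ℕ) (t : ℝ) : sv 0 n t = Lv t (sp n) := rfl
theorem sv_one_eq (n : ℕ) (t : ℝ) : sv 1 n t = Ld t (sp n) := rfl

/-- multiplicativity -/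
theorem ev_mul (hρ : 1 < ρ) (hq : ρ < q) (hx : SS q x) (hy : SS q y) {t : ℝ} (ht : |t| ≤ bb ρ) :
    evk 0 (bil km x y) t = evk 0 x t * evk 0 y t := by
  obtain ⟨r, hr1, hr2⟩ := exists_between hq
  obtain ⟨C, hC, hb⟩ := sv_geom hρ.le hr1 0
  unfold evk
  rw [functional_bil (hρ.trans hq) PK_km hx hy hC (by linarith) hr2 (fun n => hb n t ht),
    ← prod_tsum (evk_summ hρ hq hx 0 ht) (evk_summ hρ hq hy 0 ht)]
  refine tsum_congr fun p => ?_
  simp only [sv_zero_eq]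
  rw [poly_eval_sum, km_poly, Lv_apply, Lv_apply, Lv_apply, eval_mul]

/-- the antiderivative -/
theorem ev_ii (hρ : 1 < ρ) (hq : ρ < q) (hx : SS q x) (hy : SS q y) {t : ℝ} (ht : |t| ≤ bb ρ) :
    evk 1 (bil ki x y) t = evk 1 x t * evk 1 y t := by
  obtain ⟨r, hr1, hr2⟩ := exists_between hq
  obtain ⟨C, hC, hb⟩ := sv_geom hρ.le hr1 1
  unfold evk
  rw [functional_bil (hρ.trans hq) PK_ki hx hy hC (by linarith) hr2 (fun n => hb n t ht),
    ← prod_tsum (evk_summ hρ hq hx 1 ht) (evk_summ hρ hq hy 1 ht)]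
  refine tsum_congr fun p => ?_
  simp only [sv_one_eq]
  rw [poly_eval_sum, ki_poly, Ld_apply, Ld_apply, Ld_apply, deriv_IP, eval_mul]

/-- the transport term -/
theorem ev_gp (hρ : 1 < ρ) (hq : ρ < q) (hx : SS q x) (hy : SS q y) {t : ℝ} (ht : |t| ≤ bb ρ) :
    evk 0 (bil kg x y) t = evk 0 x t * (t * evk 0 y t + (1 - t ^ 2) * evk 1 y t) := by
  obtain ⟨r, hr1, hr2⟩ := exists_between hq
  obtain ⟨C, hC, hb⟩ := sv_geom hρ.le hr1 0
  have s0 := evk_summ hρ hq hy 0 ht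
  have s1 := evk_summ hρ hq hy 1 ht
  have e0 : t * evk 0 y t + (1 - t ^ 2) * evk 1 y t =
      ∑' n, y n * (t * sv 0 n t + (1 - t ^ 2) * sv 1 n t) := by
    unfold evk
    rw [← tsum_mul_left, ← tsum_mul_left, ← (s0.of_norm.mul_left t).tsum_add (s1.of_norm.mul_left _)]
    exact tsum_congr fun n => by ring
  have hs : Summable fun n => ‖y n * (t * sv 0 n t + (1 - t ^ 2) * sv 1 n t)‖ := by
    refine Summable.of_nonneg_of_le (fun n => norm_nonneg _) (fun n => ?_)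
      ((s0.mul_left |t|).add (s1.mul_left |1 - t ^ 2|))
    rw [← Real.norm_eq_abs t, ← Real.norm_eq_abs (1 - t ^ 2), ← norm_mul, ← norm_mul]
    refine le_trans (le_of_eq ?_) (norm_add_le _ _)
    congr 1; ring
  rw [e0]
  unfold evk
  rw [functional_bil (hρ.trans hq) PK_kg hx hy hC (by linarith) hr2 (fun n => hb n t ht),
    ← prod_tsum (evk_summ hρ hq hx 0 ht) hs]
  refine tsum_congr fun p => ?_
  simp only [sv_zero_eq, sv_one_eq]
  rw [poly_eval_sum, kg_poly, Lv_apply, Lv_apply, Lv_apply, Ld_apply]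
  unfold GP
  simp only [eval_mul, eval_add, eval_sub, eval_X, eval_one, eval_pow]

/-- `Δ` as a functional -/
def Lp (t : ℝ) : ℝ[X] →ₗ[ℝ] ℝ :=
  (1 - t ^ 2) • (Polynomial.leval t).comp (Polynomial.derivative.comp Polynomial.derivative)
    - (3 * t) • (Polynomial.leval t).comp Polynomial.derivative

theorem Lp_apply (t : ℝ) (p : ℝ[X]) :
    Lp t p = (1 - t ^ 2) * (derivative (derivative p)).eval t - 3 * t * (derivative p).eval t := by
  simp [Lp, Polynomial.leval]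

theorem Lp_sp (t : ℝ) (n : ℕ) : Lp t (sp n) = -(lam n * sv 0 n t) := by
  have h := congrArg (Polynomial.eval t) (lap_sp (n : ℤ))
  rw [Lp_apply, sv_zero_eq, Lv_apply]
  simp only [eval_mul, eval_sub, eval_neg, eval_pow, eval_X, eval_one, eval_ofNat, eval_intCast] at h
  rw [h]
  unfold lam
  split_ifs with h0
  · subst h0; simp [sp_zero]
  · push_cast; ring

/-- `Δ` of the function with coefficients `x` -/
theorem ev_lmul (hρ : 1 < ρ) (hq : ρ < q) (hx : SS q x) {t : ℝ} (ht : |t| ≤ bb ρ) :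
    evk 0 (lmul x) t = -((1 - t ^ 2) * evk 2 x t - 3 * t * evk 1 x t) := by
  have s2 := evk_summ hρ hq hx 2 ht
  have s1 := evk_summ hρ hq hx 1 ht
  unfold evk lmul
  rw [← tsum_mul_left, ← tsum_mul_left, ← (s2.of_norm.mul_left _).tsum_sub (s1.of_norm.mul_left _),
    ← tsum_neg]
  refine tsum_congr fun n => ?_
  have h := Lp_sp t n
  rw [Lp_apply] at h
  have e1 : sv 2 n t = (derivative (derivative (sp n))).eval t := rfl
  have e2 : sv 1 n t = (derivative (sp n)).eval t := rfl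
  rw [e1, e2, smul_eq_mul]
  linear_combination (x n) * h

theorem ev_lmul_mul (hρ : 1 < ρ) (hq : ρ < q) (hx : SS q x) (hy : SS q y) {t : ℝ} (ht : |t| ≤ bb ρ) :
    evk 0 (lmul (bil km x y)) t =
      evk 0 x t * evk 0 (lmul y) t + evk 0 y t * evk 0 (lmul x) t
        - 2 * (1 - t ^ 2) * (evk 1 x t * evk 1 y t) := by
  obtain ⟨r, hr1, hr2⟩ := exists_between hq
  obtain ⟨C2, hC2, hb2⟩ := sv_geom hρ.le hr1 2
  obtain ⟨C1, hC1, hb1⟩ := sv_geom hρ.le hr1 1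
  have hφ : ∀ n : ℕ, |Lp t (sp n)| ≤ (|1 - t ^ 2| * C2 + |3 * t| * C1) * r ^ n := by
    intro n
    have e1 : sv 2 n t = (derivative (derivative (sp n))).eval t := rfl
    have e2 : sv 1 n t = (derivative (sp n)).eval t := rfl
    rw [Lp_apply, ← e1, ← e2]
    refine (abs_sub _ _).trans ?_
    rw [abs_mul, abs_mul (3 * t)]
    have h2 := mul_le_mul_of_nonneg_left (hb2 n t ht) (abs_nonneg (1 - t ^ 2))
    have h1 := mul_le_mul_of_nonneg_left (hb1 n t ht) (abs_nonneg (3 * t))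
    linarith
  have hl : ∀ u : ℕ → ℝ, evk 0 (lmul u) t = -∑' n, u n * Lp t (sp n) := by
    intro u
    unfold evk lmul
    rw [← tsum_neg]
    refine tsum_congr fun n => ?_
    rw [Lp_sp, smul_eq_mul]; ring
  have sl : ∀ u : ℕ → ℝ, SS q u → Summable fun n => ‖u n * Lp t (sp n)‖ := fun u hu =>
    geom_summ hρ hq hu (by positivity) r (by linarith) hr2 hφ
  rw [hl, hl y, hl x, functional_bil (hρ.trans hq) PK_km hx hy (by positivity) (by linarith) hr2 hφ]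
  have p1 := prod_tsum (evk_summ hρ hq hx 0 ht) (sl y hy)
  have p2 := prod_tsum (sl x hx) (evk_summ hρ hq hy 0 ht)
  have p3 := prod_tsum (evk_summ hρ hq hx 1 ht) (evk_summ hρ hq hy 1 ht)
  have q1 := prod_summ (evk_summ hρ hq hx 0 ht) (sl y hy)
  have q2 := prod_summ (sl x hx) (evk_summ hρ hq hy 0 ht)
  have q3 := prod_summ (evk_summ hρ hq hx 1 ht) (evk_summ hρ hq hy 1 ht)
  have e : ∑' p : ℕ × ℕ, (x p.1 * y p.2) * ∑ n ∈ range (p.1 + p.2 + 1), km p.1 p.2 n * Lp t (sp n) =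
      ∑' p : ℕ × ℕ, (x p.1 * y p.2) * (sv 0 p.1 t * Lp t (sp p.2)) +
      ∑' p : ℕ × ℕ, (x p.1 * y p.2) * (Lp t (sp p.1) * sv 0 p.2 t) +
      2 * (1 - t ^ 2) * ∑' p : ℕ × ℕ, (x p.1 * y p.2) * (sv 1 p.1 t * sv 1 p.2 t) := by
    rw [← tsum_mul_left, ← q1.tsum_add q2, ← (q1.add q2).tsum_add (q3.mul_left _)]
    refine tsum_congr fun p => ?_
    rw [poly_eval_sum, km_poly]
    have h := congrArg (Polynomial.eval t) (lap_mul (sp (p.1 : ℤ)) (sp (p.2 : ℤ)))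
    simp only [eval_mul, eval_sub, eval_add, eval_pow, eval_X, eval_one, eval_ofNat] at h
    have h' : Lp t (sp (p.1 : ℤ) * sp (p.2 : ℤ)) = sv 0 p.1 t * Lp t (sp p.2) +
        Lp t (sp p.1) * sv 0 p.2 t + 2 * (1 - t ^ 2) * (sv 1 p.1 t * sv 1 p.2 t) := by
      rw [Lp_apply, Lp_apply, Lp_apply, sv_zero_eq, sv_zero_eq, sv_one_eq, sv_one_eq, Lv_apply, Lv_apply,
        Ld_apply, Ld_apply, h]
      ring
    rw [h']
    ring
  rw [e, p1, p2, p3]
  unfold evk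
  ring

theorem evk_add (hρ : 1 < ρ) (hq : ρ < q) (hx : SS q x) (hy : SS q y) (k : ℕ) {t : ℝ}
    (ht : |t| ≤ bb ρ) : evk k (fun n => x n + y n) t = evk k x t + evk k y t := by
  unfold evk
  rw [← (evk_summ hρ hq hx k ht).of_norm.tsum_add (evk_summ hρ hq hy k ht).of_norm]
  exact tsum_congr fun n => by ring

theorem evk_sub (hρ : 1 < ρ) (hq : ρ < q) (hx : SS q x) (hy : SS q y) (k : ℕ) {t : ℝ}
    (ht : |t| ≤ bb ρ) : evk k (fun n => x n - y n) t = evk k x t - evk k y t := by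
  unfold evk
  rw [← (evk_summ hρ hq hx k ht).of_norm.tsum_sub (evk_summ hρ hq hy k ht).of_norm]
  exact tsum_congr fun n => by ring

theorem evk_smul (c : ℝ) (k : ℕ) (t : ℝ) : evk k (fun n => c • x n) t = c * evk k x t := by
  unfold evk
  rw [← tsum_mul_left]
  exact tsum_congr fun n => by
    show c * x n * sv k n t = _
    ring

theorem evk_zero_ee (t : ℝ) : evk 0 ee t = 1 := by
  unfold evk
  rw [tsum_eq_single 1]
  · simp [ee, sv, sp_one]
  · intro n hn; simp [ee, hn]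

theorem evk_succ_ee (k : ℕ) (t : ℝ) : evk (k + 1) ee t = 0 := by
  unfold evk
  rw [tsum_eq_single 1]
  · simp [ee, sv, sp_one]
  · intro n hn; simp [ee, hn]

/-- the value of the trilinear form -/
theorem ev_T' (hρ : 1 < ρ) (hq : ρ < q) (hx : SS q x) (hy : SS q y) (hz : SS q z) {t : ℝ}
    (ht : |t| ≤ bb ρ) : evk 0 (T x y z) t =
      -2 * (evk 0 x t * evk 0 y t * evk 0 (lmul z) t)
      + 1 / 2 * (evk 0 x t * (evk 0 y t * evk 0 (lmul z) t + evk 0 z t * evk 0 (lmul y) t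
        - 2 * (1 - t ^ 2) * (evk 1 y t * evk 1 z t)))
      + 2 * (evk 0 x t * evk 0 y t * evk 0 z t)
      - evk 0 (bil ki x y) t * (t * evk 0 z t + (1 - t ^ 2) * evk 1 z t) := by
  have hq1 : 1 < q := hρ.trans hq
  have hxy := hx.bil hq1 PK_km hy
  have hyz := hy.bil hq1 PK_km hz
  have hi := hx.bil hq1 PK_ki hy
  unfold T
  rw [evk_sub hρ hq (((((hxy.bil hq1 PK_km hz.lmul)).smul _).add ((hx.bil hq1 PK_km hyz.lmul).smul _)).add
    ((hxy.bil hq1 PK_km hz).smul _)) (hi.bil hq1 PK_kg hz) 0 ht,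
    evk_add hρ hq (((hxy.bil hq1 PK_km hz.lmul).smul _).add ((hx.bil hq1 PK_km hyz.lmul).smul _))
      ((hxy.bil hq1 PK_km hz).smul _) 0 ht,
    evk_add hρ hq ((hxy.bil hq1 PK_km hz.lmul).smul _) ((hx.bil hq1 PK_km hyz.lmul).smul _) 0 ht,
    evk_smul, evk_smul, evk_smul, ev_mul hρ hq hxy hz.lmul ht, ev_mul hρ hq hx hyz.lmul ht,
    ev_mul hρ hq hxy hz ht, ev_mul hρ hq hx hy ht, ev_lmul_mul hρ hq hy hz ht, ev_gp hρ hq hi hz ht]

end

/-! ### joint smoothness -/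

/-- coordinate functionals -/
def cL (n : ℕ) : E1 →L[ℝ] ℝ :=
  LinearMap.mkContinuous { toFun := fun X => X n, map_add' := fun X Y => by simp, map_smul' := fun c X => by simp }
    1 fun X => by
      rw [one_mul]
      exact lp.norm_apply_le_norm one_ne_zero X n

theorem cL_apply (n : ℕ) (X : E1) : cL n X = X n := rfl
theorem norm_cL_le (n : ℕ) : ‖cL n‖ ≤ 1 := LinearMap.mkContinuous_norm_le _ zero_le_one _

/-- evaluation functionals -/
def Ak (k : ℕ) (r t : ℝ) : E1 →L[ℝ] ℝ := ∑' n, (sv k n t / r ^ n) • cL n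

section
variable {ρ r q : ℝ}

theorem Ak_bound (hρ : 1 < ρ) (h : ρ < r) (k : ℕ) :
    ∃ u : ℕ → ℝ, Summable u ∧ ∀ n, ∀ t : ℝ, |t| ≤ bb ρ → ‖(sv k n t / r ^ n) • cL n‖ ≤ u n := by
  obtain ⟨r', h1, h2⟩ := exists_between h
  obtain ⟨C, hC, hb⟩ := sv_geom hρ.le h1 k
  have hr' : 0 < r' := by linarith
  have hr : 0 < r := by linarith
  refine ⟨fun n => C * (r' / r) ^ n, ?_, fun n t ht => ?_⟩
  · exact (summable_geometric_of_lt_one (by positivity) ((div_lt_one hr).2 h2)).mul_left C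
  · rw [norm_smul, norm_div, Real.norm_eq_abs, Real.norm_of_nonneg (by positivity : (0:ℝ) ≤ r ^ n)]
    have h3 := hb n t ht
    have h4 := norm_cL_le n
    calc |sv k n t| / r ^ n * ‖cL n‖ ≤ (C * r' ^ n) / r ^ n * 1 := by gcongr
      _ = C * (r' / r) ^ n := by rw [div_pow]; ring

theorem Ak_deriv (hρ : 1 < ρ) (h : ρ < r) (k : ℕ) {t : ℝ} (ht : t ∈ Ioo (-bb ρ) (bb ρ)) :
    HasDerivAt (Ak k r) (Ak (k + 1) r t) t := by
  obtain ⟨u, hu, hb⟩ := Ak_bound hρ h (k + 1)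
  obtain ⟨u', hu', hb'⟩ := Ak_bound hρ h k
  unfold Ak
  refine hasDerivAt_tsum_of_isPreconnected hu isOpen_Ioo isPreconnected_Ioo
    (fun n y _ => (((sv_deriv k n y).div_const (r ^ n)).smul_const (cL n))) (fun n y hy => ?_) ht ?_ ht
  · exact hb n y (abs_lt.2 hy).le
  · exact Summable.of_norm_bounded hu' fun n => hb' n t (abs_lt.2 ht).le

theorem Ak_smooth (hρ : 1 < ρ) (h : ρ < r) (m : ℕ) :
    ∀ k, ContDiffOn ℝ m (Ak k r) (Ioo (-bb ρ) (bb ρ)) := by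
  induction m with
  | zero =>
    intro k
    rw [Nat.cast_zero, contDiffOn_zero]
    exact fun t ht => (Ak_deriv hρ h k ht).continuousAt.continuousWithinAt
  | succ m ih =>
    intro k
    have : ((m + 1 : ℕ) : WithTop ℕ∞) = (m : WithTop ℕ∞) + 1 := by push_cast; rfl
    rw [this, contDiffOn_succ_iff_deriv_of_isOpen isOpen_Ioo]
    refine ⟨fun t ht => (Ak_deriv hρ h k ht).differentiableAt.differentiableWithinAt, ?_, ?_⟩
    · intro hω
      exact absurd hω (by simp)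
    · exact (ih (k + 1)).congr fun t ht => (Ak_deriv hρ h k ht).deriv

theorem Ak_apply (hρ : 1 < ρ) (h : ρ < r) (k : ℕ) {t : ℝ} (ht : |t| ≤ bb ρ) {x : ℕ → ℝ}
    (hx : Summable fun n => r ^ n * ‖x n‖) : Ak k r t (toE r x) = evk k x t := by
  obtain ⟨u, hu, hb⟩ := Ak_bound hρ h k
  have hs : Summable fun n => (sv k n t / r ^ n) • cL n :=
    Summable.of_norm_bounded hu fun n => hb n t ht
  have hr : 0 < r := by linarith
  unfold Ak
  have h1 := (ContinuousLinearMap.apply ℝ ℝ (toE r x)).map_tsum hs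
  have h2 : (ContinuousLinearMap.apply ℝ ℝ (toE r x)) (∑' n, (sv k n t / r ^ n) • cL n) =
      (∑' n, (sv k n t / r ^ n) • cL n) (toE r x) := rfl
  rw [← h2, h1]
  unfold evk
  refine tsum_congr fun n => ?_
  show ((sv k n t / r ^ n) • cL n) (toE r x) = _
  rw [ContinuousLinearMap.smul_apply, cL_apply, toE_apply hr.le hx, smul_eq_mul]
  have : r ^ n ≠ 0 := by positivity
  field_simp

theorem evk_smooth (hρ : 1 < ρ) (h : ρ < q) {f : ℕ → ℝ → ℝ} (hf : ∀ m, SMC m q f) (k : ℕ) :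
    ContDiffOn ℝ ∞ (fun p : ℝ × ℝ => evk k (fun n => f n p.1) p.2)
      (Set.Ioo 0 1 ×ˢ Set.Ioo (-bb ρ) (bb ρ)) := by
  obtain ⟨r, h1, h2⟩ := exists_between h
  rw [contDiffOn_infty]
  intro m
  have a1 : ContDiffOn ℝ m (fun p : ℝ × ℝ => Ak k r p.2) (Set.Ioo 0 1 ×ˢ Set.Ioo (-bb ρ) (bb ρ)) :=
    (Ak_smooth hρ h1 m k).comp contDiff_snd.contDiffOn fun p hp => hp.2
  have a2 : ContDiffOn ℝ m (fun p : ℝ × ℝ => toE r (fun n => f n p.1))
      (Set.Ioo 0 1 ×ˢ Set.Ioo (-bb ρ) (bb ρ)) :=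
    ((hf m).2 r (by linarith) h2).comp contDiff_fst.contDiffOn fun p hp => hp.1
  refine (a1.clm_apply a2).congr fun p hp => ?_
  exact (Ak_apply hρ h1 k (abs_lt.2 hp.2).le ((hf m).1 p.1 hp.1 r (by linarith) h2)).symm

end

end

end Pool.Agent.N535
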