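import Mathlib
import Pool.Agent.H786.G.R_seed8.H858R2.Max

set_option autoImplicit false
open scoped ContDiff Manifold Topology Matrix
open Set

namespace Pool.Agent.N535

open Pool.Agent.QTot
open Pool.Agent.H858R2 (En ctarget ctrn)

/-- `ℝ⁴` -/
abbrev E4 : Type := EuclideanSpace ℝ (Fin 4)

instance : Fact (Module.finrank ℝ (EuclideanSpace ℝ (Fin 4)) = 3 + 1) := ⟨by simp⟩

/-- the unit sphere `S³` with Mathlib's smooth structure -/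
abbrev S3 : Type := Metric.sphere (0 : EuclideanSpace ℝ (Fin 4)) 1

/-- smooth Riemannian metrics on `S³` -/
abbrev Met : Type := Pool.Agent.H858R2.Metric 3 S3

/-- The scalar curvature `R = g^{ij} Ric_{ij}` of a matrix field. -/
noncomputable def Scal {n : ℕ} (G : Eu n → Mt n) (x : Eu n) : ℝ :=
  ∑ i, ∑ j, (G x)⁻¹ i j * Ric G x i j

/-- `g_p(u, u)` for a tangent vector `u` of `S³` at `p`. (Mathlib identifies the tangent space at `p`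
with `ℝ³` by the preferred chart at `p`.) -/
noncomputable def sq (g : Met) (p : S3) (u : TangentSpace (𝓡 3) p) : ℝ :=
  ∑ i, ∑ j, g.G (chartAt (En 3) p) (WithLp.ofLp (chartAt (En 3) p p)) i j *
    WithLp.ofLp (u : En 3) i * WithLp.ofLp (u : En 3) j

/-- The value `ĝ_p(u, u)` of the round metric of curvature `1`, i.e. the square of the Euclidean norm
of the image of `u` under the derivative of the inclusion `S³ → ℝ⁴`. -/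
noncomputable def rsq (p : S3) (u : TangentSpace (𝓡 3) p) : ℝ :=
  let w : E4 := mfderiv (𝓡 3) 𝓘(ℝ, E4) (fun q : S3 => (q : E4)) p u
  ‖w‖ ^ 2

/-! ### auxiliary definitions -/

/-- the ambient coordinates of a point of the sphere -/
def amb (p : S3) : Fin 4 → ℝ := WithLp.ofLp (p : E4)

/-- the inverse of the chart `e` of `S³`, as a map `ℝ³ → ℝ⁴` -/
noncomputable def Pinv (e : OpenPartialHomeomorph S3 (En 3)) (y : Eu 3) : Fin 4 → ℝ :=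
  amb (e.symm (WithLp.toLp 2 y))

/-- Jacobian matrix of a map `ℝ³ → ℝ⁴` -/
noncomputable def JP (P : Eu 3 → (Fin 4 → ℝ)) (y : Eu 3) : Matrix (Fin 4) (Fin 3) ℝ :=
  Matrix.of fun a i => pd i (fun y => P y a) y

/-- the ambient form `α(x₀) ⟨a, b⟩ + β(x₀) a₀ b₀` -/
noncomputable def ambG (α β : ℝ → ℝ) (x : Fin 4 → ℝ) : Matrix (Fin 4) (Fin 4) ℝ :=
  Matrix.of fun a b => (if a = b then α (x 0) else 0) + (if a = 0 ∧ b = 0 then β (x 0) else 0)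

/-- pull-back of the ambient form by a map `ℝ³ → ℝ⁴` -/
noncomputable def pullA (P : Eu 3 → (Fin 4 → ℝ)) (α β : ℝ → ℝ) (y : Eu 3) : Mt 3 :=
  (JP P y)ᵀ * ambG α β (P y) * JP P y

/-- In the coordinates `(x, ω)`, `x = x₀ ∈ (-1,1)`, `ω ∈ S²`, the metric `α ⟨,⟩ + β dx₀²` is
`E(x) dx² + F(x) g_{S²}`. -/
noncomputable def Ef (α β : ℝ → ℝ) (x : ℝ) : ℝ := α x / (1 - x ^ 2) + β x
noncomputable def Ff (α : ℝ → ℝ) (x : ℝ) : ℝ := α x * (1 - x ^ 2)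

/-- sectional curvatures of `E(x) dx² + F(x) g_{S²}` -/
noncomputable def Krf (E F : ℝ → ℝ) (x : ℝ) : ℝ :=
  -(deriv (deriv F) x / (2 * F x) - deriv F x ^ 2 / (4 * F x ^ 2)
    - deriv F x * deriv E x / (4 * F x * E x)) / E x
noncomputable def Kff (E F : ℝ → ℝ) (x : ℝ) : ℝ :=
  1 / F x - deriv F x ^ 2 / (4 * F x ^ 2 * E x)

/-- positivity of `α ⟨,⟩ + β dx₀²` on the sphere -/
def PosAB (α β : ℝ → ℝ) : Prop := ∀ x ∈ Icc (-1 : ℝ) 1, 0 < α x ∧ 0 < α x + β x * (1 - x ^ 2)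

/-- TARGET G1 -/
def StMetric : Prop := ∀ (α β : ℝ → ℝ) (O : Set ℝ), IsOpen O → Icc (-1 : ℝ) 1 ⊆ O →
  ContDiffOn ℝ ∞ α O → ContDiffOn ℝ ∞ β O → PosAB α β →
  ∃ g : Met, ∀ e, g.G e = pullA (Pinv e) α β

/-- TARGET G2 -/
def StScal : Prop := ∀ (α β : ℝ → ℝ) (O : Set ℝ) (c : ℝ), IsOpen O → Icc (-1 : ℝ) 1 ⊆ O →
  ContDiffOn ℝ ∞ α O → ContDiffOn ℝ ∞ β O → PosAB α β →
  (∀ x ∈ Ioo (-1 : ℝ) 1, c ≤ 4 * Krf (Ef α β) (Ff α) x + 2 * Kff (Ef α β) (Ff α) x) →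
  ∀ e ∈ atlas (En 3) S3, ∀ y, c ≤ Scal (pullA (Pinv e) α β) y

/-- TARGET G3 -/
def StRicci : Prop := ∀ (t₁ t₂ : ℝ) (α β : ℝ → ℝ → ℝ) (O : Set (ℝ × ℝ)), IsOpen O →
  Ioo t₁ t₂ ×ˢ Icc (-1 : ℝ) 1 ⊆ O →
  ContDiffOn ℝ ∞ (fun p : ℝ × ℝ => α p.1 p.2) O → ContDiffOn ℝ ∞ (fun p : ℝ × ℝ => β p.1 p.2) O →
  (∀ t ∈ Ioo t₁ t₂, PosAB (α t) (β t)) →
  (∀ t ∈ Ioo t₁ t₂, ∀ x ∈ Ioo (-1 : ℝ) 1, HasDerivAt (fun s => Ef (α s) (β s) x)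
    (-4 * Krf (Ef (α t) (β t)) (Ff (α t)) x * Ef (α t) (β t) x) t) →
  (∀ t ∈ Ioo t₁ t₂, ∀ x ∈ Ioo (-1 : ℝ) 1, HasDerivAt (fun s => Ff (α s) x)
    (-2 * (Krf (Ef (α t) (β t)) (Ff (α t)) x + Kff (Ef (α t) (β t)) (Ff (α t)) x)
      * Ff (α t) x) t) →
  ∀ e ∈ atlas (En 3) S3,
    (∀ i j, ContDiffOn ℝ ∞ (fun p : ℝ × Eu 3 => pullA (Pinv e) (α p.1) (β p.1) p.2 i j)
      (Ioo t₁ t₂ ×ˢ univ)) ∧
    ∀ t ∈ Ioo t₁ t₂, ∀ y i j, HasDerivAt (fun τ => pullA (Pinv e) (α τ) (β τ) y i j)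
      (-2 * Ric (pullA (Pinv e) (α t) (β t)) y i j) t

/-- TARGET G4 -/
def StVal : Prop := ∀ (h : ℝ → ℝ) (g : Met), (∀ e ∈ atlas (En 3) S3,
    g.G e = pullA (Pinv e) (fun x => h x ^ 2) (fun _ => 0)) →
  ∀ (p : S3) (u : TangentSpace (𝓡 3) p), sq g p u = h ((p : E4) 0) ^ 2 * rsq p u

/-- TARGET E: from the conformal gauge to Ricci flow -/
def StGauge : Prop := ∀ (T d : ℝ) (v I : ℝ → ℝ → ℝ), 0 < T → 0 < d →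
  ContDiffOn ℝ ∞ (fun p : ℝ × ℝ => v p.1 p.2) (Ioo 0 T ×ˢ Ioo (-1 - d) (1 + d)) →
  ContDiffOn ℝ ∞ (fun p : ℝ × ℝ => I p.1 p.2) (Ioo 0 T ×ˢ Ioo (-1 - d) (1 + d)) →
  (∀ t ∈ Ioo 0 T, ∀ x ∈ Ioo (-1 - d) (1 + d), 0 < v t x) →
  (∀ t ∈ Ioo 0 T, ∀ x ∈ Ioo (-1 : ℝ) 1, deriv (I t) x = deriv (v t) x ^ 2) →
  (∀ t ∈ Ioo 0 T, ∀ x ∈ Ioo (-1 : ℝ) 1, HasDerivAt (fun s => v s x)
    (v t x ^ 2 * ((1 - x ^ 2) * deriv (deriv (v t)) x - 3 * x * deriv (v t) x)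
      - v t x * ((1 - x ^ 2) * deriv (v t) x ^ 2) + 2 * v t x ^ 3
      - I t x * (x * v t x + (1 - x ^ 2) * deriv (v t) x)) t) →
  ∀ (t₁ t₀ t₂ : ℝ), 0 < t₁ → t₁ < t₀ → t₀ < t₂ → t₂ < T →
  ∃ (α β : ℝ → ℝ → ℝ) (O : Set (ℝ × ℝ)), IsOpen O ∧ Ioo t₁ t₂ ×ˢ Icc (-1 : ℝ) 1 ⊆ O ∧
    ContDiffOn ℝ ∞ (fun p : ℝ × ℝ => α p.1 p.2) O ∧ ContDiffOn ℝ ∞ (fun p : ℝ × ℝ => β p.1 p.2) O ∧
    (∀ t ∈ Ioo t₁ t₂, PosAB (α t) (β t)) ∧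
    (∀ x ∈ Icc (-1 : ℝ) 1, α t₀ x = (v t₀ x)⁻¹ ^ 2 ∧ β t₀ x = 0) ∧
    (∀ t ∈ Ioo t₁ t₂, ∀ x ∈ Ioo (-1 : ℝ) 1, HasDerivAt (fun s => Ef (α s) (β s) x)
      (-4 * Krf (Ef (α t) (β t)) (Ff (α t)) x * Ef (α t) (β t) x) t) ∧
    (∀ t ∈ Ioo t₁ t₂, ∀ x ∈ Ioo (-1 : ℝ) 1, HasDerivAt (fun s => Ff (α s) x)
      (-2 * (Krf (Ef (α t) (β t)) (Ff (α t)) x + Kff (Ef (α t) (β t)) (Ff (α t)) x)
        * Ff (α t) x) t)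

/-- TARGET F: metrics `h² ĝ` with a small bump of fixed relative size at scale `r → 0` at the pole
are not `C⁰`-close to the round metric, modulo diffeomorphisms. -/
def StFar : Prop := ∀ a b : ℝ, 0 < a → a ≤ b → b ≤ 1 / 10 → ∃ ε : ℝ, 0 < ε ∧ ∃ η : ℝ, 0 < η ∧
  ∃ r₀ : ℝ, 0 < r₀ ∧ ∀ r ∈ Ioo 0 r₀, ∀ h : ℝ → ℝ, ContinuousOn h (Icc (-1 : ℝ) 1) →
  (∀ x ∈ Icc (-1 : ℝ) 1, (1 - η) * (1 + a * (r / (r + Real.sqrt (2 - 2 * x)))) ≤ h x ∧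
    h x ≤ (1 + η) * (1 + b * (r / (r + Real.sqrt (2 - 2 * x))))) →
  ∀ φ : S3 ≃ₘ^∞⟮𝓡 3, 𝓡 3⟯ S3, ∃ (p : S3) (u : TangentSpace (𝓡 3) p), u ≠ 0 ∧
    ε * rsq p u ≤
      |h ((φ p : E4) 0) ^ 2 * rsq (φ p) (mfderiv (𝓡 3) (𝓡 3) φ p u) - rsq p u|

end Pool.Agent.N535
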