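import Mathlib
import Pool.Agent.H786.G.R_pool_sql_team_seeded_63374d34.N535.Pde
import Pool.Agent.H786.G.R_pool_sql_team_seeded_63374d34.N535.Defs

set_option autoImplicit false
set_option linter.all false
open Set Filter Topology
open scoped ENNReal ContDiff

namespace Pool.Agent.N535

open Pool.Agent.H858R2 (CI ev evH)

noncomputable section

/-- rescaled time -/
def stt (A Θ t : ℝ) : ℝ := -Real.log (1 - 4 * t / A) / (4 * Θ)

/-- final time -/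
def Tf (A Θ : ℝ) : ℝ := A * (1 - Real.exp (-(4 * Θ))) / 4

/-- time belonging to the rescaled time `s` -/
def tf (A Θ s : ℝ) : ℝ := A * (1 - Real.exp (-(4 * Θ * s))) / 4

section
variable {A Θ t s : ℝ}

theorem Tf_pos (hA : 0 < A) (hΘ : 0 < Θ) : 0 < Tf A Θ := by
  unfold Tf
  have : Real.exp (-(4 * Θ)) < 1 := Real.exp_lt_one_iff.2 (by linarith)
  have h2 := mul_pos hA (sub_pos.2 this)
  linarith

theorem arg_gt (hA : 0 < A) (ht : t < Tf A Θ) : Real.exp (-(4 * Θ)) < 1 - 4 * t / A := by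
  unfold Tf at ht
  have h1 : 4 * t < A * (1 - Real.exp (-(4 * Θ))) := by linarith
  have h2 : 4 * t / A < 1 - Real.exp (-(4 * Θ)) := by
    rw [div_lt_iff₀ hA]; linarith
  linarith

theorem arg_pos (hA : 0 < A) (ht : t < Tf A Θ) : 0 < 1 - 4 * t / A :=
  (Real.exp_pos _).trans (arg_gt hA ht)

theorem sub_pos' (hA : 0 < A) (ht : t < Tf A Θ) : 0 < A - 4 * t := by
  have h1 := mul_pos hA (arg_pos hA ht)
  have h2 : A * (1 - 4 * t / A) = A - 4 * t := by field_simp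
  rwa [h2] at h1

theorem stt_mem (hA : 0 < A) (hΘ : 0 < Θ) (ht : t ∈ Ioo 0 (Tf A Θ)) : stt A Θ t ∈ Ioo (0:ℝ) 1 := by
  have h1 := arg_gt hA ht.2
  have h0 := arg_pos hA ht.2
  have h2 : 1 - 4 * t / A < 1 := by
    have : 0 < 4 * t / A := div_pos (by linarith [ht.1]) hA
    linarith
  have h3 : Real.log (1 - 4 * t / A) < 0 := Real.log_neg h0 h2
  have h4 : -(4 * Θ) < Real.log (1 - 4 * t / A) := (Real.lt_log_iff_exp_lt h0).2 h1
  unfold stt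
  constructor
  · exact div_pos (by linarith) (by linarith)
  · rw [div_lt_one (by linarith)]; linarith

theorem stt_deriv (hA : 0 < A) (hΘ : 0 < Θ) (ht : t < Tf A Θ) :
    HasDerivAt (stt A Θ) (1 / (Θ * (A - 4 * t))) t := by
  have h0 := arg_pos hA ht
  have h1 : HasDerivAt (fun t : ℝ => 1 - 4 * t / A) (-(4 / A)) t := by
    have := (((hasDerivAt_id t).const_mul 4).div_const A).const_sub 1
    simpa using this
  have h2 := ((h1.log h0.ne').neg).div_const (4 * Θ)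
  have hs := sub_pos' hA ht
  refine h2.congr_deriv ?_
  have e : 1 - 4 * t / A = (A - 4 * t) / A := by field_simp
  rw [e]
  field_simp

theorem stt_smooth (hA : 0 < A) : ContDiffOn ℝ ∞ (stt A Θ) (Iio (Tf A Θ)) := by
  unfold stt
  refine ContDiffOn.div_const (ContDiffOn.neg (ContDiffOn.log ?_ ?_)) _
  · exact (contDiff_const.sub ((contDiff_const.mul contDiff_id).div_const A)).contDiffOn
  · intro t ht
    exact (arg_pos hA ht).ne'

theorem stt_tf (hA : 0 < A) (hΘ : 0 < Θ) (s : ℝ) : stt A Θ (tf A Θ s) = s := by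
  unfold stt tf
  have e : 1 - 4 * (A * (1 - Real.exp (-(4 * Θ * s))) / 4) / A = Real.exp (-(4 * Θ * s)) := by
    field_simp
    ring
  rw [e, Real.log_exp]
  field_simp

theorem sub_tf : A - 4 * tf A Θ s = A * Real.exp (-(4 * Θ * s)) := by
  unfold tf; ring

theorem tf_pos (hA : 0 < A) (hΘ : 0 < Θ) (hs : 0 < s) : 0 < tf A Θ s := by
  unfold tf
  have : Real.exp (-(4 * Θ * s)) < 1 := Real.exp_lt_one_iff.2 (by
    have := mul_pos hΘ hs
    nlinarith)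
  have h2 := mul_pos hA (sub_pos.2 this)
  linarith

end

/-- the function in the conformal gauge -/
def vv (c : ℕ → CI) (A Θ t x : ℝ) : ℝ := (Real.sqrt (A - 4 * t))⁻¹ * Vf c (stt A Θ t) x
/-- the integral -/
def vI (c : ℕ → CI) (A Θ t x : ℝ) : ℝ := (A - 4 * t)⁻¹ * Jf c (stt A Θ t) x

section
variable {Θ q ρ A : ℝ} {a : ℕ → ℝ} {c : ℕ → CI}

theorem vv_smooth (h : IsSolC Θ q a c) (hA : 0 < A) (hΘ : 0 < Θ) (hρ : 1 < ρ) (hq : ρ < q) :
    ContDiffOn ℝ ∞ (fun p : ℝ × ℝ => vv c A Θ p.1 p.2) (Ioo 0 (Tf A Θ) ×ˢ Ioo (-bb ρ) (bb ρ)) := by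
  unfold vv
  refine ContDiffOn.mul ?_ ?_
  · refine ContDiffOn.inv (ContDiffOn.sqrt ?_ ?_) ?_
    · exact (contDiff_const.sub (contDiff_const.mul contDiff_fst)).contDiffOn
    · intro p hp; exact (sub_pos' hA hp.1.2).ne'
    · intro p hp; exact (Real.sqrt_pos.2 (sub_pos' hA hp.1.2)).ne'
  · have h1 : ContDiffOn ℝ ∞ (fun p : ℝ × ℝ => (stt A Θ p.1, p.2))
        (Ioo 0 (Tf A Θ) ×ˢ Ioo (-bb ρ) (bb ρ)) := by
      refine ContDiffOn.prodMk ?_ contDiff_snd.contDiffOn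
      exact (stt_smooth (Θ := Θ) hA).comp contDiff_fst.contDiffOn fun p hp => hp.1.2
    exact (Vf_smooth h hρ hq).comp h1 fun p hp => ⟨stt_mem hA hΘ hp.1, hp.2⟩

theorem vI_smooth (h : IsSolC Θ q a c) (hA : 0 < A) (hΘ : 0 < Θ) (hρ : 1 < ρ) (hq : ρ < q) :
    ContDiffOn ℝ ∞ (fun p : ℝ × ℝ => vI c A Θ p.1 p.2) (Ioo 0 (Tf A Θ) ×ˢ Ioo (-bb ρ) (bb ρ)) := by
  unfold vI
  refine ContDiffOn.mul ?_ ?_
  · refine ContDiffOn.inv ?_ ?_
    · exact (contDiff_const.sub (contDiff_const.mul contDiff_fst)).contDiffOn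
    · intro p hp; exact (sub_pos' hA hp.1.2).ne'
  · have h1 : ContDiffOn ℝ ∞ (fun p : ℝ × ℝ => (stt A Θ p.1, p.2))
        (Ioo 0 (Tf A Θ) ×ˢ Ioo (-bb ρ) (bb ρ)) := by
      refine ContDiffOn.prodMk ?_ contDiff_snd.contDiffOn
      exact (stt_smooth (Θ := Θ) hA).comp contDiff_fst.contDiffOn fun p hp => hp.1.2
    exact (Jf_smooth h hρ hq).comp h1 fun p hp => ⟨stt_mem hA hΘ hp.1, hp.2⟩

theorem vv_deriv (A Θ t x : ℝ) :
    deriv (vv c A Θ t) x = (Real.sqrt (A - 4 * t))⁻¹ * deriv (Vf c (stt A Θ t)) x := by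
  have : vv c A Θ t = fun x => (Real.sqrt (A - 4 * t))⁻¹ * Vf c (stt A Θ t) x := rfl
  rw [this, deriv_const_mul_field]

theorem vv_deriv2 (A Θ t x : ℝ) : deriv (deriv (vv c A Θ t)) x =
    (Real.sqrt (A - 4 * t))⁻¹ * deriv (deriv (Vf c (stt A Θ t))) x := by
  have : deriv (vv c A Θ t) = fun x => (Real.sqrt (A - 4 * t))⁻¹ * deriv (Vf c (stt A Θ t)) x :=
    funext fun x => vv_deriv A Θ t x
  rw [this, deriv_const_mul_field]

theorem vI_deriv (h : IsSolC Θ q a c) (hA : 0 < A) (hρ : 1 < ρ) (hq : ρ < q) {t : ℝ}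
    (ht : t < Tf A Θ) {x : ℝ} (hx : |x| < bb ρ) :
    deriv (vI c A Θ t) x = deriv (vv c A Θ t) x ^ 2 := by
  have e : vI c A Θ t = fun x => (A - 4 * t)⁻¹ * Jf c (stt A Θ t) x := rfl
  rw [vv_deriv, e, deriv_const_mul_field, (Jf_dx hρ hq h.ssc _ hx).deriv, mul_pow, inv_pow,
    Real.sq_sqrt (sub_pos' hA ht).le]

theorem vv_dt (h : IsSolC Θ q a c) (hA : 0 < A) (hΘ : 0 < Θ) (hρ : 1 < ρ) (hq : ρ < q) {t : ℝ}
    (ht : t ∈ Ioo 0 (Tf A Θ)) {x : ℝ} (hx : |x| < bb ρ) :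
    HasDerivAt (fun s => vv c A Θ s x)
      (vv c A Θ t x ^ 2 * ((1 - x ^ 2) * deriv (deriv (vv c A Θ t)) x - 3 * x * deriv (vv c A Θ t) x)
        - vv c A Θ t x * ((1 - x ^ 2) * deriv (vv c A Θ t) x ^ 2) + 2 * vv c A Θ t x ^ 3
        - vI c A Θ t x * (x * vv c A Θ t x + (1 - x ^ 2) * deriv (vv c A Θ t) x)) t := by
  have hy := sub_pos' hA ht.2
  have hS : 0 < Real.sqrt (A - 4 * t) := Real.sqrt_pos.2 hy
  have h1 : HasDerivAt (fun s : ℝ => A - 4 * s) (-4) t := by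
    have := ((hasDerivAt_id t).const_mul 4).const_sub A
    simpa using this
  have h2 : HasDerivAt (fun y => (Real.sqrt (A - 4 * y))⁻¹)
      (-(-4 / (2 * Real.sqrt (A - 4 * t))) / Real.sqrt (A - 4 * t) ^ 2) t :=
    (h1.sqrt hy.ne').inv hS.ne'
  have h3 := (Vf_dt h hρ hq (stt_mem hA hΘ ht) hx).comp t (stt_deriv hA hΘ ht.2)
  have h4 := h2.mul h3
  refine (h4.congr_of_eventuallyEq (Filter.Eventually.of_forall fun s => rfl)).congr_deriv ?_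
  rw [vv_deriv, vv_deriv2]
  unfold vv vI
  simp only [Function.comp]
  set S := Real.sqrt (A - 4 * t) with hSdef
  have hS2 : A - 4 * t = S ^ 2 := (Real.sq_sqrt hy.le).symm
  rw [hS2]
  generalize Vf c (stt A Θ t) x = W
  generalize deriv (Vf c (stt A Θ t)) x = W1
  generalize deriv (deriv (Vf c (stt A Θ t))) x = W2
  generalize Jf c (stt A Θ t) x = J
  have hS0 := hS.ne'
  have hΘ0 := hΘ.ne'
  field_simp
  ring

end

/-! ### Ricci flow from functions -/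

open Pool.Agent.QTot
open Pool.Agent.H858R2 (En ctarget ctrn IsRicciFlow)

theorem Pinv_mem (e : OpenPartialHomeomorph S3 (En 3)) (y : Eu 3) : Pinv e y 0 ∈ Icc (-1 : ℝ) 1 := by
  unfold Pinv amb
  set p : S3 := e.symm (WithLp.toLp 2 y)
  have h1 : ‖(p : E4)‖ = 1 := norm_eq_of_mem_sphere p
  have h2 : |(p : E4) 0| ≤ ‖(p : E4)‖ := by
    have := PiLp.norm_apply_le (p : E4) 0
    simpa using this
  rw [h1] at h2
  exact abs_le.1 h2

theorem pullA_congr {P : Eu 3 → (Fin 4 → ℝ)} {α α' β β' : ℝ → ℝ} (y : Eu 3)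
    (h1 : α (P y 0) = α' (P y 0)) (h2 : β (P y 0) = β' (P y 0)) :
    pullA P α β y = pullA P α' β' y := by
  unfold pullA
  have : ambG α β (P y) = ambG α' β' (P y) := by
    unfold ambG
    rw [h1, h2]
  rw [this]

/-- construction of the Ricci flow -/
theorem flow_of (HM : StMetric) (HR : StRicci) {t₁ t₀ t₂ : ℝ} (h10 : t₁ < t₀) (h02 : t₀ < t₂)
    {α β : ℝ → ℝ → ℝ} {O : Set (ℝ × ℝ)} (hO : IsOpen O) (hsub : Ioo t₁ t₂ ×ˢ Icc (-1 : ℝ) 1 ⊆ O)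
    (hα : ContDiffOn ℝ ∞ (fun p : ℝ × ℝ => α p.1 p.2) O)
    (hβ : ContDiffOn ℝ ∞ (fun p : ℝ × ℝ => β p.1 p.2) O)
    (hpos : ∀ t ∈ Ioo t₁ t₂, PosAB (α t) (β t))
    (hE : ∀ t ∈ Ioo t₁ t₂, ∀ x ∈ Ioo (-1 : ℝ) 1, HasDerivAt (fun s => Ef (α s) (β s) x)
      (-4 * Krf (Ef (α t) (β t)) (Ff (α t)) x * Ef (α t) (β t) x) t)
    (hF : ∀ t ∈ Ioo t₁ t₂, ∀ x ∈ Ioo (-1 : ℝ) 1, HasDerivAt (fun s => Ff (α s) x)
      (-2 * (Krf (Ef (α t) (β t)) (Ff (α t)) x + Kff (Ef (α t) (β t)) (Ff (α t)) x)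
        * Ff (α t) x) t) :
    ∃ g : ℝ → Met, IsRicciFlow (t₂ - t₀) g ∧ ∀ e, (g 0).G e = pullA (Pinv e) (α t₀) (β t₀) := by
  classical
  have hsl : ∀ t ∈ Ioo t₁ t₂, ∃ g : Met, ∀ e, g.G e = pullA (Pinv e) (α t) (β t) := by
    intro t ht
    have hcont : Continuous fun x : ℝ => (t, x) := by fun_prop
    refine HM (α t) (β t) ((fun x : ℝ => (t, x)) ⁻¹' O) (hO.preimage hcont) (fun x hx => hsub ⟨ht, hx⟩)
      ?_ ?_ (hpos t ht)
    · exact hα.comp (contDiff_prodMk_right t).contDiffOn fun x hx => hx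
    · exact hβ.comp (contDiff_prodMk_right t).contDiffOn fun x hx => hx
  have ht0 : t₀ ∈ Ioo t₁ t₂ := ⟨h10, h02⟩
  have hex : ∀ t : ℝ, ∃ g : Met, t ∈ Ico 0 (t₂ - t₀) → ∀ e, g.G e = pullA (Pinv e) (α (t₀ + t)) (β (t₀ + t)) := by
    intro t
    by_cases ht : t ∈ Ico 0 (t₂ - t₀)
    · obtain ⟨g, hg⟩ := hsl (t₀ + t) ⟨by linarith [ht.1], by linarith [ht.2]⟩
      exact ⟨g, fun _ => hg⟩
    · obtain ⟨g, hg⟩ := hsl t₀ ht0
      exact ⟨g, fun h => absurd h ht⟩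
  choose g hg using hex
  have hin : ∀ t ∈ Ico 0 (t₂ - t₀), t₀ + t ∈ Ioo t₁ t₂ := fun t ht =>
    ⟨by linarith [ht.1], by linarith [ht.2]⟩
  refine ⟨g, ⟨?_, ?_⟩, ?_⟩
  · intro e he i j
    have h1 := (HR t₁ t₂ α β O hO hsub hα hβ hpos hE hF e he).1 i j
    have h2 : ContDiffOn ℝ ∞ (fun p : ℝ × Eu 3 => pullA (Pinv e) (α (t₀ + p.1)) (β (t₀ + p.1)) p.2 i j)
        (Ico 0 (t₂ - t₀) ×ˢ ctarget e) := by
      have h3 : ContDiffOn ℝ ∞ (fun p : ℝ × Eu 3 => (t₀ + p.1, p.2)) (Ico 0 (t₂ - t₀) ×ˢ ctarget e) :=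
        ((contDiff_const.add contDiff_fst).prodMk contDiff_snd).contDiffOn
      exact h1.comp h3 fun p hp => ⟨hin p.1 hp.1, mem_univ _⟩
    refine h2.congr fun p hp => ?_
    rw [hg p.1 hp.1 e]
  · intro e he y hy t ht i j
    have h1 := (HR t₁ t₂ α β O hO hsub hα hβ hpos hE hF e he).2 (t₀ + t) (hin t ht) y i j
    have h2 : HasDerivAt (fun τ => pullA (Pinv e) (α (t₀ + τ)) (β (t₀ + τ)) y i j)
        (-2 * Ric (pullA (Pinv e) (α (t₀ + t)) (β (t₀ + t))) y i j) t := by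
      have h3 : HasDerivAt (fun τ : ℝ => t₀ + τ) 1 t := by
        simpa using (hasDerivAt_id t).const_add t₀
      have h5 := HasDerivAt.comp (h₂ := fun τ => pullA (Pinv e) (α τ) (β τ) y i j) t h1 h3
      rw [mul_one] at h5
      exact h5
    have h4 := h2.hasDerivWithinAt (s := Ico 0 (t₂ - t₀))
    rw [hg t ht e]
    exact h4.congr (fun τ hτ => by rw [hg τ hτ e]) (by rw [hg t ht e])
  · intro e
    have := hg 0 ⟨le_rfl, by linarith⟩ e
    rw [add_zero] at this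
    exact this

/-- the Ricci flow of a solution of the integral equations -/
theorem main_flow (HM : StMetric) (HR : StRicci) (HE : StGauge) {Θ q ρ A : ℝ} {a : ℕ → ℝ} {c : ℕ → CI}
    (h : IsSolC Θ q a c) (hA : 0 < A) (hΘ : 0 < Θ) (hρ : 1 < ρ) (hq : ρ < q)
    (hpos : ∀ s x : ℝ, |x| ≤ bb ρ → 0 < Vf c s x) {s₀ T' : ℝ} (hs₀ : 0 < s₀) (hT' : 0 < T')
    (hT : tf A Θ s₀ + T' < Tf A Θ) :
    ∃ g : ℝ → Met, IsRicciFlow T' g ∧ ∀ e, (g 0).G e =
      pullA (Pinv e) (fun x => (Real.sqrt (A * Real.exp (-(4 * Θ * s₀))) / Vf c s₀ x) ^ 2)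
        (fun _ => 0) := by
  have hd : 0 < bb ρ - 1 := by linarith [one_lt_bb hρ]
  have e1 : -1 - (bb ρ - 1) = -bb ρ := by ring
  have e2 : 1 + (bb ρ - 1) = bb ρ := by ring
  have ht0 := tf_pos hA hΘ hs₀
  have hTf := Tf_pos hA hΘ
  have hab : ∀ x ∈ Ioo (-1 : ℝ) 1, |x| < bb ρ := fun x hx =>
    (abs_lt.2 hx).trans (one_lt_bb hρ)
  obtain ⟨α, β, O, hO, hsub, hα, hβ, hP, h0, hE, hF⟩ := HE (Tf A Θ) (bb ρ - 1) (vv c A Θ) (vI c A Θ) hTf hd
    (by rw [e1, e2]; exact vv_smooth h hA hΘ hρ hq)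
    (by rw [e1, e2]; exact vI_smooth h hA hΘ hρ hq)
    (by
      rw [e1, e2]
      intro t ht x hx
      unfold vv
      exact mul_pos (inv_pos.2 (Real.sqrt_pos.2 (sub_pos' hA ht.2))) (hpos _ x (abs_lt.2 hx).le))
    (fun t ht x hx => vI_deriv h hA hρ hq ht.2 (hab x hx))
    (fun t ht x hx => vv_dt h hA hΘ hρ hq ht (hab x hx))
    (tf A Θ s₀ / 2) (tf A Θ s₀) (tf A Θ s₀ + T') (by linarith) (by linarith) (by linarith) hT
  obtain ⟨g, hg, hg0⟩ := flow_of HM HR (t₀ := tf A Θ s₀) (by linarith) (by linarith) hO hsub hα hβ hP hE hF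
  refine ⟨g, by simpa using hg, fun e => ?_⟩
  rw [hg0 e]
  funext y
  have hm := h0 _ (Pinv_mem e y)
  refine pullA_congr y ?_ hm.2
  rw [hm.1]
  unfold vv
  rw [stt_tf hA hΘ, sub_tf]
  congr 1
  rw [mul_inv, inv_inv]
  rfl

end

end Pool.Agent.N535
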